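import Mathlib

/-!
# Subspace theorem project: basic definitions
-/

set_option autoImplicit false

namespace Pool.Agent.Helper10.Sub

open MvPolynomial

/-! ### Hasse derivatives of polynomials in several variables -/

section hasse
variable {σ : Type*} {R : Type*} [CommRing R]

/-- Translation `P(X + ξ)`. -/
noncomputable def shift (ξ : σ → R) : MvPolynomial σ R →ₐ[R] MvPolynomial σ R :=
  aeval (fun i => X i + C (ξ i))

/-- `P(X + Y)` as a polynomial in `X` whose coefficients are polynomials in `Y`. -/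
noncomputable def taylor : MvPolynomial σ R →ₐ[R] MvPolynomial σ (MvPolynomial σ R) :=
  aeval (fun i => X i + C (X i))

/-- The Hasse derivative of order `k`: the coefficient of `Y ^ k` in `P(X + Y)`. -/
noncomputable def hd (k : σ →₀ ℕ) (P : MvPolynomial σ R) : MvPolynomial σ R :=
  coeff k (taylor P)

end hasse

/-- Weight of an exponent vector with respect to degrees `r`. -/
noncomputable def wt {b : ℕ} (r : Fin b → ℕ) (k : Fin b →₀ ℕ) : ℝ := ∑ h, (k h : ℝ) / (r h : ℝ)

/-- Block weight of an exponent vector. -/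
noncomputable def wtB {b : ℕ} {ι : Type*} [Fintype ι] (r : Fin b → ℕ) (k : (Fin b × ι) →₀ ℕ) : ℝ :=
  ∑ h, ((∑ i, k (h, i) : ℕ) : ℝ) / (r h : ℝ)

/-- Height of a rational number. -/
noncomputable def ht (x : ℚ) : ℝ := max (x.num.natAbs : ℝ) (x.den : ℝ)

/-- Height (maximum of the absolute values) of an integer vector. -/
noncomputable def htv {ι : Type*} [Fintype ι] (m : ι → ℤ) : ℝ :=
  ((Finset.univ.sup fun i => (m i).natAbs : ℕ) : ℝ)

/-- Primitive integer vectors. -/
def Prim {ι : Type*} [Fintype ι] (m : ι → ℤ) : Prop :=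
  ∀ d : ℤ, (∀ i, d ∣ m i) → IsUnit d

/-! ### Places, `S`-integers and systems of linear forms

The places are the archimedean one and the primes `p t`, `t : T` (a finite, injective family). -/

/-- The rational number `x` lies in `ℤ[1/P]`. -/
def PInt (P : ℕ) (x : ℚ) : Prop := ∃ k : ℕ, ∃ z : ℤ, x * (P : ℚ) ^ k = z

/-- The vector `x` has coordinates in `ℤ[1/P]`. -/
def PVec {ι : Type*} (P : ℕ) (x : ι → ℚ) : Prop := ∀ i, PInt P (x i)

/-- A system of `card ι` independent real linear forms and, for each `t`, of `card ι` independent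
`p t`-adic linear forms, with algebraic coefficients. -/
structure Sys (ι : Type*) [Fintype ι] [DecidableEq ι] (T : Type*) (p : T → ℕ)
    [∀ t, Fact (p t).Prime] where
  A : Matrix ι ι ℝ
  A' : ∀ t, Matrix ι ι ℚ_[p t]
  algA : ∀ i j, IsAlgebraic ℚ (A i j)
  algA' : ∀ t i j, IsAlgebraic ℚ (A' t i j)
  detA : A.det ≠ 0
  detA' : ∀ t, (A' t).det ≠ 0

variable {ι : Type*} [Fintype ι] [DecidableEq ι] {T : Type*} [Fintype T] {p : T → ℕ}
  [∀ t, Fact (p t).Prime]

/-- The real forms at a rational vector. -/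
noncomputable def Sys.L (S : Sys ι T p) (x : ι → ℚ) : ι → ℝ := fun i => ∑ j, S.A i j * (x j : ℝ)

/-- The `p t`-adic forms at a rational vector. -/
noncomputable def Sys.L' (S : Sys ι T p) (t : T) (x : ι → ℚ) : ι → ℚ_[p t] :=
  fun i => ∑ j, S.A' t i j * (x j : ℚ_[p t])

/-- Size at infinity: `max |L_i(x)| / a_i`. -/
noncomputable def Sys.Ninf (S : Sys ι T p) (a : ι → ℝ) (x : ι → ℚ) : ℝ := ‖fun i => S.L x i / a i‖

/-- Size at `p t`: `max |L'_i(x)|_p / a'_i`. -/
noncomputable def Sys.Np (S : Sys ι T p) (t : T) (a' : ι → ℝ) (x : ι → ℚ) : ℝ :=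
  ‖fun i => ‖S.L' t x i‖ / a' i‖

/-- Total size. -/
noncomputable def Sys.N (S : Sys ι T p) (a : ι → ℝ) (a' : T → ι → ℝ) (x : ι → ℚ) : ℝ :=
  S.Ninf a x * ∏ t, S.Np t (a' t) x

/-- Product of all weights. -/
noncomputable def wprod (a : ι → ℝ) (a' : T → ι → ℝ) : ℝ := (∏ i, a i) * ∏ t, ∏ i, a' t i

/-- The product of the primes `p t`. -/
def pprod (p : T → ℕ) : ℕ := ∏ t, p t

/-- Linear change of variables, the same in every block: `P(M Y_1, ..., M Y_b)`. -/
noncomputable def linSub {b : ℕ} {ι : Type*} [Fintype ι] {F : Type*} [CommRing F]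
    (M : Matrix ι ι F) (P : MvPolynomial (Fin b × ι) ℤ) : MvPolynomial (Fin b × ι) F :=
  aeval (fun q : Fin b × ι => ∑ j, C (M q.2 j) * X (q.1, j)) P

section alg
variable {κ : Type*} [Fintype κ] [DecidableEq κ] {F : Type*} [Field F] (K0 : Subfield F)

lemma det_mem {A : Matrix κ κ F} (h : ∀ i j, A i j ∈ K0) : A.det ∈ K0 := by
  rw [Matrix.det_apply]
  refine K0.sum_mem fun σ _ => ?_
  rw [Units.smul_def]
  exact K0.zsmul_mem (K0.prod_mem fun i _ => h _ _) _

lemma inv_mem {A : Matrix κ κ F} (h : ∀ i j, A i j ∈ K0) (i j : κ) : A⁻¹ i j ∈ K0 := by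
  rw [Matrix.inv_def, Matrix.smul_apply, smul_eq_mul]
  refine K0.mul_mem ?_ ?_
  · rw [Ring.inverse_eq_inv']
    exact K0.inv_mem (det_mem K0 h)
  · rw [Matrix.adjugate_apply]
    apply det_mem
    intro a b
    rw [Matrix.updateRow_apply]
    split_ifs
    · rw [Pi.single_apply]
      split_ifs
      · exact K0.one_mem
      · exact K0.zero_mem
    · exact h a b

lemma isAlgebraic_iff_mem {F : Type*} [Field F] [Algebra ℚ F] (x : F) :
    IsAlgebraic ℚ x ↔ x ∈ (algebraicClosure ℚ F).toSubfield := by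
  rw [IntermediateField.mem_toSubfield, mem_algebraicClosure_iff]

lemma inv_isAlgebraic {F : Type*} [Field F] [Algebra ℚ F] {A : Matrix κ κ F}
    (h : ∀ i j, IsAlgebraic ℚ (A i j)) (i j : κ) : IsAlgebraic ℚ (A⁻¹ i j) := by
  rw [isAlgebraic_iff_mem]
  exact inv_mem _ (fun a b => (isAlgebraic_iff_mem _).mp (h a b)) i j

lemma det_isAlgebraic {F : Type*} [Field F] [Algebra ℚ F] {A : Matrix κ κ F}
    (h : ∀ i j, IsAlgebraic ℚ (A i j)) : IsAlgebraic ℚ A.det := by
  rw [isAlgebraic_iff_mem]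
  exact det_mem _ (fun a b => (isAlgebraic_iff_mem _).mp (h a b))

end alg

/-- The dual system (inverse transposed matrices). -/
noncomputable def Sys.dual (S : Sys ι T p) : Sys ι T p where
  A := (S.A⁻¹).transpose
  A' := fun t => ((S.A' t)⁻¹).transpose
  algA := fun i j => inv_isAlgebraic S.algA j i
  algA' := fun t i j => inv_isAlgebraic (S.algA' t) j i
  detA := by
    rw [Matrix.det_transpose, Matrix.det_nonsing_inv, Ring.inverse_eq_inv']
    exact inv_ne_zero S.detA
  detA' := fun t => by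
    rw [Matrix.det_transpose, Matrix.det_nonsing_inv, Ring.inverse_eq_inv']
    exact inv_ne_zero (S.detA' t)

end Pool.Agent.Helper10.Sub
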