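import Pool.Agent.Helper10.Sub.Defs

/-!
# Definitions for the application to integral points on surfaces
-/

set_option autoImplicit false

namespace Pool.Agent.Helper10.Sub

open MvPolynomial

section appdefs
variable {κ : Type*} {k : Type*} [CommRing k] {L : Type*} [CommRing L] [Algebra k L]

/-- `A` is a zero of all polynomials in `J`. -/
def OnV (J : Set (MvPolynomial κ k)) (A : κ → L) : Prop := ∀ f ∈ J, aeval A f = 0

/-- The differential of `f` at `A`, applied to the vector `v`. -/
noncomputable def dif [Fintype κ] (f : MvPolynomial κ k) (A v : κ → L) : L :=
  ∑ i, aeval A (pderiv i f) * v i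

/-- The only vectors killed by the differentials at `A` of all polynomials in `J` are the
multiples of `A`. For homogeneous `J` and a common zero `A ≠ 0` this says that the projective
scheme cut out by `J` is reduced at `A` and `A` is an isolated point of it. -/
def Jac [Fintype κ] (J : Set (MvPolynomial κ k)) (A : κ → L) : Prop :=
  ∀ v : κ → L, (∀ f ∈ J, dif f A v = 0) → ∃ c : L, v = c • A

end appdefs

end Pool.Agent.Helper10.Sub
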