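import Pool.Agent.Helper10.Sub.Place

/-!
# Local approximations at one place, for a closed subscheme
-/

set_option autoImplicit false

namespace Pool.Agent.Helper10.Sub

open MvPolynomial

section place
variable {K : Type} [Field K] [CharZero K] {L : Type} [NontriviallyNormedField L] [ProperSpace L]
  [Algebra K L] {N : ℕ}

theorem placeJ (J₀ : Set (MvPolynomial (Fin (N + 1)) K))
    (hJ₀ : ∀ f ∈ J₀, ∃ e, f.IsHomogeneous e)
    (F : Fin 3 → MvPolynomial (Fin (N + 1)) K) (d : Fin 3 → ℕ) (hd : ∀ i, 1 ≤ d i)
    (hF : ∀ i, (F i).IsHomogeneous (d i)) (D : Fin 3 → K) (hD : ∀ i, D i ≠ 0)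
    (a b c : Fin 3) (habc : ∀ i, i = a ∨ i = b ∨ i = c)
    (hempty : ∀ A : Fin (N + 1) → L, OnV J₀ A →
      (∀ i, aeval A (F i) = 0) → A = 0)
    (hred : ∀ A : Fin (N + 1) → L, A ≠ 0 →
      OnV (J₀ ∪ {F b, F c}) A → Jac (J₀ ∪ {F b, F c}) A) :
    ∃ (E : ℝ) (Ty : Finset (Option (Fin (N + 1)) × (Option (Fin (N + 1)) → YN N → L))), 0 < E ∧
      (∀ t ∈ Ty, (∀ k m, IsAlgebraic K (t.2 k m)) ∧ ∀ k, ∃ c₀ c₁ c₂ : L,
        t.2 k = Pi.single (emb a k) 1 - c₀ • Pi.single (emb a t.1) 1
          - c₁ • Pi.single (Sum.inr b) 1 - c₂ • Pi.single (Sum.inr c) 1) ∧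
      ∀ x : Fin (N + 1) → K, x ≠ 0 → OnV J₀ x →
        ∀ w : Fin 3 → K, (∀ i, eval x (F i) = D i * w i ^ d i) →
        ∃ t ∈ Ty, ∀ k, ‖∑ m, t.2 k m * algebraMap K L (Sum.elim x w m)‖ *
          ‖fun j => algebraMap K L (x j)‖ ≤
          E * max ‖algebraMap K L (w b)‖ ‖algebraMap K L (w c)‖ ^ 2 := by
  classical
  set T : MvPolynomial (Option (Fin (N + 1))) K := rename some (F a) - C (D a) * X none ^ d a
    with hT
  set J : Set (MvPolynomial (Option (Fin (N + 1))) K) := rename some '' J₀ ∪ {T} with hJ
  have hinj : Function.Injective (algebraMap K L) := (algebraMap K L).injective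
  have : CharZero L := charZero_of_injective_algebraMap hinj
  have hJh : ∀ f ∈ J, ∃ e, f.IsHomogeneous e := by
    rintro f (⟨g, hg, rfl⟩ | hf)
    · obtain ⟨e, he⟩ := hJ₀ g hg
      exact ⟨e, he.rename_isHomogeneous⟩
    · rw [Set.mem_singleton_iff] at hf
      rw [hf]
      refine ⟨d a, (hF a).rename_isHomogeneous.sub ?_⟩
      have := ((isHomogeneous_C (Option (Fin (N + 1))) (D a)).mul
        ((isHomogeneous_X K (none : Option (Fin (N + 1)))).pow (d a)))
      simpa using this
  -- the Jacobian condition for the enlarged system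
  have hJac : ∀ A : Option (Fin (N + 1)) → L, A ≠ 0 →
      OnV (J ∪ {rename some (F b), rename some (F c)}) A →
      Jac (J ∪ {rename some (F b), rename some (F c)}) A := by
    intro A hA hOn
    set A0 : Fin (N + 1) → L := A ∘ some with hA0
    have hOn0 : OnV (J₀ ∪ {F b, F c}) A0 := by
      rintro f (hf | hf)
      · have := hOn (rename some f) (Or.inl (Or.inl ⟨f, hf, rfl⟩))
        rwa [aeval_rename] at this
      · have := hOn (rename some f) (by
          rcases hf with rfl | hf
          · exact Or.inr (Or.inl rfl)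
          · rw [Set.mem_singleton_iff] at hf
            rw [hf]
            exact Or.inr (Or.inr rfl))
        rwa [aeval_rename] at this
    have hFa : aeval A0 (F a) = algebraMap K L (D a) * A none ^ d a := by
      have := hOn T (Or.inl (Or.inr rfl))
      rw [hT, map_sub, aeval_rename, map_mul, map_pow, aeval_X, aeval_C, sub_eq_zero] at this
      exact this
    have hFb : aeval A0 (F b) = 0 := hOn0 _ (Or.inr (Or.inl rfl))
    have hFc : aeval A0 (F c) = 0 := hOn0 _ (Or.inr (Or.inr rfl))
    have hDa : algebraMap K L (D a) ≠ 0 := by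
      rw [Ne, map_eq_zero_iff _ hinj]; exact hD a
    have hda : d a ≠ 0 := by have := hd a; omega
    have hA0ne : A0 ≠ 0 := by
      intro h0
      apply hA
      have h1 : aeval A0 (F a) = 0 := by
        rw [h0]
        have h2 := dif_euler (hF a) (0 : Fin (N + 1) → L)
        have h3 : dif (F a) (0 : Fin (N + 1) → L) 0 = 0 := by simp [dif]
        rw [h3] at h2
        rcases mul_eq_zero.mp h2.symm with h4 | h4
        · exact absurd h4 (Nat.cast_ne_zero.mpr hda)
        · exact h4
      rw [hFa, mul_eq_zero] at h1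
      have h3 : A none = 0 := by
        rcases h1 with h1 | h1
        · exact absurd h1 hDa
        · exact pow_eq_zero_iff hda |>.mp h1
      funext k
      rcases k with _ | k
      · exact h3
      · exact congrFun h0 k
    have hFa0 : aeval A0 (F a) ≠ 0 := by
      intro h0
      apply hA0ne
      apply hempty A0 (fun f hf => hOn0 f (Or.inl hf))
      intro i
      rcases habc i with rfl | rfl | rfl
      · exact h0
      · exact hFb
      · exact hFc
    have hAn : A none ≠ 0 := by
      intro h0
      rw [hFa, h0, zero_pow hda, mul_zero] at hFa0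
      exact hFa0 rfl
    intro v hv
    obtain ⟨e, he⟩ := hred A0 hA0ne hOn0 (v ∘ some) (by
      have h1 : ∀ f ∈ J₀ ∪ {F b, F c}, dif f A0 (v ∘ some) = 0 := by
        rintro f (hf | hf)
        · have := hv (rename some f) (Or.inl (Or.inl ⟨f, hf, rfl⟩))
          rwa [dif_rename_some] at this
        · have := hv (rename some f) (by
            rcases hf with rfl | hf
            · exact Or.inr (Or.inl rfl)
            · rw [Set.mem_singleton_iff] at hf
              rw [hf]
              exact Or.inr (Or.inr rfl))
          rwa [dif_rename_some] at this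
      exact h1)
    refine ⟨e, ?_⟩
    have h2 := hv T (Or.inl (Or.inr rfl))
    rw [hT, dif_sub, dif_rename_some, he, dif_smul_right, dif_mul, dif_C, dif_pow, dif_X,
      dif_euler (hF a), hFa, aeval_X, aeval_C, mul_zero, add_zero] at h2
    have h3 : A none ^ d a = A none ^ (d a - 1) * A none := by
      rw [← pow_succ]; congr 1; omega
    rw [h3] at h2
    have h4 : algebraMap K L (D a) * (d a : L) * A none ^ (d a - 1) *
        (v none - e * A none) = 0 := by
      linear_combination -h2
    have h5 : v none = e * A none := by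
      have h6 : algebraMap K L (D a) * (d a : L) * A none ^ (d a - 1) ≠ 0 :=
        mul_ne_zero (mul_ne_zero hDa (Nat.cast_ne_zero.mpr hda)) (pow_ne_zero _ hAn)
      rcases mul_eq_zero.mp h4 with h7 | h7
      · exact absurd h7 h6
      · exact sub_eq_zero.mp h7
    funext k
    rcases k with _ | k
    · simpa using h5
    · exact congrFun he k
  obtain ⟨E, Ty, hE, hTy, hest⟩ := loc J hJh (rename some (F b)) (rename some (F c)) (d b) (d c)
    (hd b) (hd c) (hF b).rename_isHomogeneous (hF c).rename_isHomogeneous (D b) (D c) (hD b) (hD c)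
    hJac
  -- translate the types
  let tr : (Option (Fin (N + 1)) × (Option (Fin (N + 1)) → L) × (Option (Fin (N + 1)) → L) ×
      (Option (Fin (N + 1)) → L)) → Option (Fin (N + 1)) × (Option (Fin (N + 1)) → YN N → L) :=
    fun t => (t.1, fun k => Pi.single (emb a k) 1 - t.2.1 k • Pi.single (emb a t.1) 1
          - t.2.2.1 k • Pi.single (Sum.inr b) 1 - t.2.2.2 k • Pi.single (Sum.inr c) 1)
  refine ⟨E, Ty.image tr, hE, ?_, ?_⟩
  · intro t ht
    rw [Finset.mem_image] at ht
    obtain ⟨t, ht, rfl⟩ := ht
    refine ⟨?_, fun k => ⟨_, _, _, rfl⟩⟩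
    intro k m
    obtain ⟨-, -, -, halg⟩ := hTy t ht
    obtain ⟨h1, h2, h3⟩ := halg k
    have hs : ∀ m' : YN N, IsAlgebraic K ((Pi.single m' (1 : L) : YN N → L) m) := by
      intro m'
      rw [Pi.single_apply]
      split_ifs
      · exact isAlgebraic_one
      · exact isAlgebraic_zero
    exact (((hs _).sub (h1.mul (hs _))).sub (h2.mul (hs _))).sub (h3.mul (hs _))
  · intro x hx hxP w hw
    set z : Option (Fin (N + 1)) → L := fun k => k.elim (algebraMap K L (w a))
      (fun j => algebraMap K L (x j)) with hz
    have hzs : z ∘ some = fun j => algebraMap K L (x j) := rfl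
    have hzne : z ≠ 0 := by
      intro h0
      apply hx
      funext j
      have := congrFun h0 (some j)
      simp only [hz, Option.elim_some, Pi.zero_apply] at this
      exact (map_eq_zero_iff _ hinj).mp this
    have hev : ∀ f : MvPolynomial (Fin (N + 1)) K,
        aeval (z ∘ some) f = algebraMap K L (eval x f) := by
      intro f
      rw [hzs]
      have h1 := aeval_algebraMap_apply L x f
      rw [aeval_self'] at h1
      exact h1
    have hzJ : OnV J z := by
      rintro f (⟨g, hg, rfl⟩ | hf)
      · rw [aeval_rename, hev]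
        have := hxP g hg
        rw [aeval_self'] at this
        rw [this, map_zero]
      · rw [Set.mem_singleton_iff] at hf
        rw [hf, hT, map_sub, aeval_rename, hev, hw a]
        simp [hz]
    obtain ⟨t, ht, hk⟩ := hest z hzne hzJ (algebraMap K L (w b)) (algebraMap K L (w c))
      (by rw [aeval_rename, hev, hw b, map_mul, map_pow])
      (by rw [aeval_rename, hev, hw c, map_mul, map_pow])
    refine ⟨tr t, Finset.mem_image_of_mem _ ht, fun k => ?_⟩
    have hsum : ∑ m, (tr t).2 k m * algebraMap K L (Sum.elim x w m) =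
        z k - t.2.1 k * z t.1 - t.2.2.1 k * algebraMap K L (w b) -
          t.2.2.2 k * algebraMap K L (w c) := by
      have h1 : ∀ (m' : YN N) (e : L), ∑ m, (e * (Pi.single m' (1 : L) : YN N → L) m) *
          algebraMap K L (Sum.elim x w m) = e * algebraMap K L (Sum.elim x w m') := by
        intro m' e
        rw [Finset.sum_eq_single m']
        · simp
        · intro m _ hm
          rw [Pi.single_eq_of_ne hm]
          simp
        · intro h; exact absurd (Finset.mem_univ _) h
      have h2 : ∀ k, algebraMap K L (Sum.elim x w (emb a k)) = z k := by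
        intro k
        rcases k with _ | k <;> rfl
      simp only [tr, Pi.sub_apply, Pi.smul_apply, smul_eq_mul, sub_mul, Finset.sum_sub_distrib]
      rw [h1, h1, h1, h2]
      have h3 := h1 (emb a k) 1
      simp only [one_mul] at h3
      rw [h3, h2]
      simp
    rw [hsum]
    refine le_trans ?_ (hk k)
    apply mul_le_mul_of_nonneg_left _ (norm_nonneg _)
    rw [pi_norm_le_iff_of_nonneg (norm_nonneg _)]
    intro j
    exact norm_le_pi_norm z (some j)

end place

end Pool.Agent.Helper10.Sub
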