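import Pool.Agent.Helper10.Sub.Main1
import Pool.Agent.Helper10.Sub.PlaceJ

/-!
# Using the Subspace theorem for large sets
-/

set_option autoImplicit false

namespace Pool.Agent.Helper10.Sub

open MvPolynomial

section big

/-- A notion of largeness for subsets of a set: the complement of an ideal containing the finite
sets. -/
structure LN (β : Type*) where
  Big : Set β → Prop
  mono : ∀ {E E' : Set β}, E ⊆ E' → Big E → Big E'
  union : ∀ {E E' : Set β}, Big (E ∪ E') → Big E ∨ Big E'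
  inf : ∀ {E : Set β}, Big E → E.Infinite

lemma LN.nonempty {β : Type*} (𝔅 : LN β) {E : Set β} (h : 𝔅.Big E) : E.Nonempty :=
  (𝔅.inf h).nonempty

lemma LN.sdiff {β : Type*} (𝔅 : LN β) {E F : Set β} (h : 𝔅.Big E) (hF : F.Finite) :
    𝔅.Big (E \ F) := by
  rcases 𝔅.union (E := E \ F) (E' := F)
    (𝔅.mono (fun x hx => by by_cases h : x ∈ F; exacts [Or.inr h, Or.inl ⟨hx, h⟩]) h) with h1 | h1
  · exact h1
  · exact absurd hF (𝔅.inf h1)

lemma LN.partition {β α : Type*} (𝔅 : LN β) (s : Finset α) {E : Set β} (h : 𝔅.Big E)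
    (R : α → β → Prop) (hR : ∀ x ∈ E, ∃ i ∈ s, R i x) :
    ∃ i ∈ s, 𝔅.Big {x | x ∈ E ∧ R i x} := by
  classical
  induction s using Finset.induction_on generalizing E with
  | empty =>
    obtain ⟨x, hx⟩ := 𝔅.nonempty h
    obtain ⟨i, hi, -⟩ := hR x hx
    exact absurd hi (Finset.notMem_empty i)
  | insert a s ha ih =>
    have h1 : E ⊆ {x | x ∈ E ∧ R a x} ∪ {x | x ∈ E ∧ ¬ R a x} := by
      intro x hx
      by_cases h : R a x
      · exact Or.inl ⟨hx, h⟩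
      · exact Or.inr ⟨hx, h⟩
    rcases 𝔅.union (𝔅.mono h1 h) with h2 | h2
    · exact ⟨a, Finset.mem_insert_self _ _, h2⟩
    · obtain ⟨i, hi, h3⟩ := ih h2 (by
        rintro x ⟨hx, hxa⟩
        obtain ⟨i, hi, hix⟩ := hR x hx
        rcases Finset.mem_insert.mp hi with rfl | hi
        · exact absurd hix hxa
        · exact ⟨i, hi, hix⟩)
      exact ⟨i, Finset.mem_insert_of_mem hi, 𝔅.mono (fun x hx => ⟨hx.1.1, hx.2⟩) h3⟩

lemma LN.partition' {β α : Type*} (𝔅 : LN β) [Finite α] {E : Set β} (h : 𝔅.Big E)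
    (R : α → β → Prop) (hR : ∀ x ∈ E, ∃ i, R i x) :
    ∃ i, 𝔅.Big {x | x ∈ E ∧ R i x} := by
  classical
  have := Fintype.ofFinite α
  obtain ⟨i, -, hi⟩ := 𝔅.partition Finset.univ h R (fun x hx => by
    obtain ⟨i, hi⟩ := hR x hx
    exact ⟨i, Finset.mem_univ _, hi⟩)
  exact ⟨i, hi⟩

variable {K : Type} [Field K]

lemma LN.exists_minimal {β Y : Type} (𝔅 : LN β) [Fintype Y] {E : Set β} (h : 𝔅.Big E)
    (y : β → Y → K) : ∃ E' ⊆ E, 𝔅.Big E' ∧ ∀ E'' ⊆ E', 𝔅.Big E'' →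
      Submodule.span K (y '' E'') = Submodule.span K (y '' E') := by
  classical
  let S : Set ℕ := {n | ∃ E' ⊆ E, 𝔅.Big E' ∧
    Module.finrank K (Submodule.span K (y '' E')) = n}
  have hS : S.Nonempty := ⟨_, E, subset_rfl, h, rfl⟩
  obtain ⟨E', hE', hD, hn⟩ := Nat.sInf_mem hS
  refine ⟨E', hE', hD, fun E'' hE'' hD'' => ?_⟩
  have h1 : Submodule.span K (y '' E'') ≤ Submodule.span K (y '' E') :=
    Submodule.span_mono (Set.image_mono hE'')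
  apply Submodule.eq_of_le_of_finrank_le h1
  rw [hn]
  exact Nat.sInf_le ⟨E'', hE''.trans hE', hD'', rfl⟩

end big

variable {K L₁ L₂ : Type} [Field K] [NontriviallyNormedField L₁] [NontriviallyNormedField L₂]
  [Algebra K L₁] [Algebra K L₂]

/-- **Application of the Subspace theorem.** A large set all of whose large subsets span
the same space `V` cannot have too small products of linear forms. -/
theorem TwoPl.applyInf (S : TwoPl K L₁ L₂) (hsub : S.SubHyp) {β : Type} (𝔅 : LN β)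
    {Y I : Type} [Fintype Y] [DecidableEq Y]
    [Fintype I] [DecidableEq I] (y : β → Y → K) (E : Set β) (hE : 𝔅.Big E)
    (V : Submodule K (Y → K)) (hV : ∀ E' ⊆ E, 𝔅.Big E' → Submodule.span K (y '' E') = V)
    (hV2 : 2 ≤ Module.finrank K V)
    (hO : ∀ x ∈ E, ∀ k, y x k ∈ S.O)
    (X : β → ℝ) (hX : ∀ B : ℝ, 𝔅.Big {x | x ∈ E ∧ B ≤ X x})
    (v₁ : I → Y → L₁) (s₁ t₁ : Finset I) (h₁ : Forms V v₁ s₁ t₁)
    (v₂ : I → Y → L₂) (s₂ t₂ : Finset I) (h₂ : Forms V v₂ s₂ t₂)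
    (β₁ β₂ : β → I → ℝ) (B : ℝ)
    (hβ₁ : ∀ x ∈ E, ∀ i, ‖lf (v₁ i) (y x)‖ ^ S.n₁ ≤ β₁ x i)
    (hβ₂ : ∀ x ∈ E, ∀ i, ‖lf (v₂ i) (y x)‖ ^ S.n₂ ≤ β₂ x i)
    (hB₁ : ∀ x ∈ E, ∀ i, X x ^ (-B) ≤ β₁ x i ∧ β₁ x i ≤ X x ^ B)
    (hB₂ : ∀ x ∈ E, ∀ i, X x ^ (-B) ≤ β₂ x i ∧ β₂ x i ≤ X x ^ B)
    (C : ℝ) (hprod : ∀ x ∈ E, ∀ r₁ r₂ : Finset I, s₁ ⊆ r₁ → r₁ ⊆ t₁ → s₂ ⊆ r₂ → r₂ ⊆ t₂ →
      r₁.card = Module.finrank K V → r₂.card = Module.finrank K V →
      (∏ i ∈ r₁, β₁ x i) * (∏ i ∈ r₂, β₂ x i) ≤ C * (X x)⁻¹) : False := by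
  set M := Module.finrank K V with hM
  obtain ⟨e₁, he₁, hs₁, ht₁, hi₁⟩ := basisSel V M rfl v₁ s₁ t₁ h₁.hst h₁.ind h₁.spn
  obtain ⟨e₂, he₂, hs₂, ht₂, hi₂⟩ := basisSel V M rfl v₂ s₂ t₂ h₂.hst h₂.ind h₂.spn
  obtain ⟨𝒲, hW, hmain⟩ := hsub Y V M rfl hV2 (fun j => v₁ (e₁ j)) (fun j => v₂ (e₂ j))
    (fun i k => h₁.alg _ _) (fun i k => h₂.alg _ _) hi₁ hi₂ (1 / 2) B (by norm_num)
  set B0 : ℝ := max 1 (C ^ 2) with hB0
  have hD := hX B0
  obtain ⟨W, hWm, hWd⟩ := 𝔅.partition 𝒲 hD (fun W x => y x ∈ W) (by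
    rintro x ⟨hx, hxB⟩
    have hX1 : 1 ≤ X x := (le_max_left _ _).trans hxB
    have hX0 : 0 < X x := by linarith
    apply hmain (X x) (fun j => β₁ x (e₁ j)) (fun j => β₂ x (e₂ j)) hX1
      (fun j => hB₁ x hx _) (fun j => hB₂ x hx _)
    · have h3 : ∏ j, β₁ x (e₁ j) = ∏ i ∈ Finset.univ.image e₁, β₁ x i := by
        rw [Finset.prod_image (fun a _ b _ hab => he₁ hab)]
      have h4 : ∏ j, β₂ x (e₂ j) = ∏ i ∈ Finset.univ.image e₂, β₂ x i := by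
        rw [Finset.prod_image (fun a _ b _ hab => he₂ hab)]
      rw [h3, h4]
      refine (hprod x hx _ _ ?_ ?_ ?_ ?_ ?_ ?_).trans ?_
      · intro i hi
        obtain ⟨j, hj⟩ := hs₁ i hi
        exact Finset.mem_image.mpr ⟨j, Finset.mem_univ _, hj⟩
      · intro i hi
        obtain ⟨j, -, hj⟩ := Finset.mem_image.mp hi
        rw [← hj]; exact ht₁ j
      · intro i hi
        obtain ⟨j, hj⟩ := hs₂ i hi
        exact Finset.mem_image.mpr ⟨j, Finset.mem_univ _, hj⟩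
      · intro i hi
        obtain ⟨j, -, hj⟩ := Finset.mem_image.mp hi
        rw [← hj]; exact ht₂ j
      · rw [Finset.card_image_of_injective _ he₁, Finset.card_univ, Fintype.card_fin]
      · rw [Finset.card_image_of_injective _ he₂, Finset.card_univ, Fintype.card_fin]
      · have h5 : C ^ 2 ≤ X x := (le_max_right _ _).trans hxB
        have h6 : C ≤ X x ^ (1 / 2 : ℝ) := by
          rw [← Real.sqrt_eq_rpow]
          exact Real.le_sqrt_of_sq_le h5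
        have h7 : X x ^ (-(1 / 2) : ℝ) = X x ^ (1 / 2 : ℝ) * (X x)⁻¹ := by
          rw [← Real.rpow_neg_one, ← Real.rpow_add hX0]
          norm_num
        rw [h7]
        exact mul_le_mul_of_nonneg_right h6 (inv_nonneg.mpr hX0.le)
    · rw [← hV E subset_rfl hE]
      exact Submodule.subset_span ⟨x, hx, rfl⟩
    · exact hO x hx
    · exact fun j => hβ₁ x hx _
    · exact fun j => hβ₂ x hx _)
  have h8 := hV _ (fun x hx => hx.1.1) hWd
  have h9 : V ≤ W := by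
    rw [← h8, Submodule.span_le]
    rintro _ ⟨x, hx, rfl⟩
    exact hx.2
  exact absurd h9 (not_le_of_gt (hW W hWm))

lemma TwoPl.largeInf {N : ℕ} (S : TwoPl K L₁ L₂) (𝔅 : LN (Fin (N + 1) → K))
    {E : Set (Fin (N + 1) → K)} (hE : 𝔅.Big E) (hO : ∀ x ∈ E, ∀ k, x k ∈ S.O) (c₀ : ℝ)
    (hn : ∀ x ∈ E, nrm L₂ x ≤ c₀) (B : ℝ) :
    𝔅.Big {x | x ∈ E ∧ B ≤ nrm L₁ x ^ S.n₁} := by
  have hfin := S.finite_pts (N := N) (max (max 1 B) c₀)
  have h1 := 𝔅.sdiff hE hfin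
  refine 𝔅.mono ?_ h1
  rintro x ⟨hx, hx'⟩
  refine ⟨hx, ?_⟩
  have h2 : max 1 B ≤ nrm L₁ x := by
    by_contra hcon
    push Not at hcon
    apply hx'
    exact ⟨hO x hx, hcon.le.trans (le_max_left _ _), (hn x hx).trans (le_max_right _ _)⟩
  have h3 : 1 ≤ nrm L₁ x := (le_max_left _ _).trans h2
  exact ((le_max_right _ _).trans h2).trans (le_self_pow₀ h3 S.hn₁)

end Pool.Agent.Helper10.Sub
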