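import Pool.Agent.Helper10.Sub.Defs

/-!
# Subspace theorem project: compound matrices, definitions
-/

set_option autoImplicit false

namespace Pool.Agent.Helper10.Sub

/-- `k`-element subsets. -/
abbrev Ik (ι : Type*) (k : ℕ) : Type _ := {s : Finset ι // s.card = k}

variable {ι : Type*} [LinearOrder ι] {R : Type*} [CommRing R]

/-- The compound matrix of `k × k` minors. -/
noncomputable def compM (k : ℕ) (A : Matrix ι ι R) : Matrix (Ik ι k) (Ik ι k) R :=
  fun s t => (A.submatrix (s.1.orderEmbOfFin s.2) (t.1.orderEmbOfFin t.2)).det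

/-- Coordinates of `x 0 ∧ ... ∧ x (k-1)`. -/
noncomputable def wedge {k : ℕ} (x : Fin k → ι → R) : Ik ι k → R :=
  fun s => (Matrix.of fun i j => x i (s.1.orderEmbOfFin s.2 j)).det

end Pool.Agent.Helper10.Sub
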