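import Mathlib

/-!
# Evaluation of homogeneous polynomials at multiples
-/

set_option autoImplicit false

/-- Homogeneity. -/
lemma MvPolynomial.IsHomogeneous.eval_smul' {κ R : Type*} [CommRing R]
    {f : MvPolynomial κ R} {n : ℕ} (hf : f.IsHomogeneous n) (c : R) (x : κ → R) :
    eval (c • x) f = c ^ n * eval x f := by
  classical
  rw [eval_eq, eval_eq, Finset.mul_sum]
  apply Finset.sum_congr rfl
  intro e he
  have h1 : ∑ i ∈ e.support, e i = n := by
    have := hf (mem_support_iff.mp he)
    rw [Finsupp.weight_apply] at this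
    simpa [Finsupp.sum] using this
  have h2 : ∏ i ∈ e.support, (c • x) i ^ e i = c ^ n * ∏ i ∈ e.support, x i ^ e i := by
    rw [← h1, ← Finset.prod_pow_eq_pow_sum, ← Finset.prod_mul_distrib]
    exact Finset.prod_congr rfl fun i _ => by rw [Pi.smul_apply, smul_eq_mul, mul_pow]
  rw [h2]
  ring
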