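import Pool.Agent.Helper10.Sub.AppDefs
import Pool.Agent.Helper81.SubLOC
import Pool.Agent.Helper89.SubTRANSFER
import Pool.Agent.Helper43.SubBASISSEL
import Pool.Agent.Helper43.SubDIM
import Pool.Agent.Helper11.SubPLANE

/-!
# The modules of the application, collected
-/

set_option autoImplicit false

namespace Pool.Agent.Helper10.Sub

alias loc0 := Pool.Agent.Helper81.Sub.loc0
alias loc := Pool.Agent.Helper81.Sub.loc
alias transfer := Pool.Agent.Helper89.Sub.transfer
alias transfer0 := Pool.Agent.Helper89.Sub.transfer0
alias basisSel := Pool.Agent.Helper43.Sub.basisSel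
alias dimPart := Pool.Agent.Helper43.Sub.dimPart
alias plane := Pool.Agent.Helper11.Sub.plane

end Pool.Agent.Helper10.Sub
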