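import Pool.Agent.Helper10.Sub.Main1
import Pool.Agent.Helper10.Sub.KEval
import Pool.Agent.Helper10.Sub.Lemmas

/-!
# Constants and exponents for several components
-/

set_option autoImplicit false

namespace Pool.Agent.Helper10.Sub

open MvPolynomial

section swap
variable {K L₁ L₂ : Type} [Field K] [NontriviallyNormedField L₁] [NontriviallyNormedField L₂]
  [Algebra K L₁] [Algebra K L₂]

lemma TwoPl.ε_ne (S : TwoPl K L₁ L₂) : S.ε ≠ 0 := by
  intro h0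
  have := S.hε
  rw [h0, map_zero, norm_zero] at this
  linarith

lemma TwoPl.norm₂_lt (S : TwoPl K L₁ L₂) : ‖algebraMap K L₂ S.ε‖ < 1 := by
  by_contra h
  push Not at h
  have h1 : 1 < ‖algebraMap K L₁ S.ε‖ ^ S.n₁ := one_lt_pow₀ S.hε S.hn₁
  have h2 : 1 ≤ ‖algebraMap K L₂ S.ε‖ ^ S.n₂ := one_le_pow₀ h
  have h3 := S.pf
  nlinarith

lemma TwoPl.norm₂_pos (S : TwoPl K L₁ L₂) : 0 < ‖algebraMap K L₂ S.ε‖ :=
  norm_pos_iff.mpr (by rw [Ne, map_eq_zero_iff _ (algebraMap K L₂).injective]; exact S.ε_ne)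

/-- The two places in the other order. -/
def TwoPl.swap (S : TwoPl K L₁ L₂) : TwoPl K L₂ L₁ where
  O := S.O
  n₁ := S.n₂
  n₂ := S.n₁
  hn₁ := S.hn₂
  hn₂ := S.hn₁
  ε := S.ε⁻¹
  εO q := by
    rw [inv_zpow, ← zpow_neg]
    exact S.εO _
  hε := by
    rw [map_inv₀, norm_inv]
    exact (one_lt_inv₀ S.norm₂_pos).mpr S.norm₂_lt
  pf := by
    rw [map_inv₀, norm_inv, map_inv₀, norm_inv, inv_pow, inv_pow, ← mul_inv, mul_comm, S.pf, inv_one]
  north B := by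
    refine (S.north B).subset ?_
    rintro z ⟨h1, h2, h3⟩
    exact ⟨h1, h3, h2⟩

lemma TwoPl.swap_zpow (S : TwoPl K L₁ L₂) (q : ℤ) : S.swap.ε ^ q = S.ε ^ (-q) := by
  change (S.ε⁻¹) ^ q = _
  rw [inv_zpow, ← zpow_neg]

lemma TwoPl.SubHyp.swap {S : TwoPl K L₁ L₂} (h : S.SubHyp) : S.swap.SubHyp := by
  intro Y _ _ V M hM hM2 l₁ l₂ ha₁ ha₂ hi₁ hi₂ δ B hδ
  obtain ⟨𝒲, hW, hmain⟩ := h Y V M hM hM2 l₂ l₁ ha₂ ha₁ hi₂ hi₁ δ B hδ
  refine ⟨𝒲, hW, fun Q a a' hQ ha ha' hprod y hy hO h1 h2 => ?_⟩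
  exact hmain Q a' a hQ ha' ha (by rw [mul_comm]; exact hprod) y hy hO h2 h1

end swap

section bounds
variable {K : Type} [Field K] {L : Type} [NontriviallyNormedField L] [Algebra K L]
  {N r : ℕ}

lemma upperJ (F : Fin r → MvPolynomial (Fin (N + 1)) K) (d : Fin r → ℕ) (hd : ∀ i, 1 ≤ d i)
    (hF : ∀ i, (F i).IsHomogeneous (d i)) (D : Fin r → K) (hD : ∀ i, D i ≠ 0) (i : Fin r) :
    ∃ C : ℝ, 1 ≤ C ∧ ∀ (x : Fin (N + 1) → K) (w : Fin r → K),
      (∀ i, eval x (F i) = D i * w i ^ d i) → ‖algebraMap K L (w i)‖ ≤ C * nrm L x := by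
  obtain ⟨C, hC, h⟩ := aeval_le (L := L) (F i) (d i) (hF i)
  have hDi : 0 < ‖algebraMap K L (D i)‖ := norm_pos_iff.mpr
    (by rw [Ne, map_eq_zero_iff _ (algebraMap K L).injective]; exact hD i)
  refine ⟨max 1 (C / ‖algebraMap K L (D i)‖), le_max_left _ _, fun x w hev => ?_⟩
  apply root_le (Nat.one_le_iff_ne_zero.mp (hd i)) (norm_nonneg _) (nrm_nonneg _)
  have h1 := h (fun k => algebraMap K L (x k))
  rw [aeval_alg, hev i, map_mul, map_pow, norm_mul, norm_pow] at h1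
  rw [div_mul_eq_mul_div, le_div_iff₀ hDi, mul_comm]
  exact h1

lemma lowerI [ProperSpace L] (J₀ : Set (MvPolynomial (Fin (N + 1)) K))
    (hJ₀ : ∀ f ∈ J₀, ∃ e, f.IsHomogeneous e)
    (F : Fin r → MvPolynomial (Fin (N + 1)) K) (d : Fin r → ℕ) (hd : ∀ i, 1 ≤ d i)
    (hF : ∀ i, (F i).IsHomogeneous (d i)) (D : Fin r → K)
    (I : Finset (Fin r))
    (hempty : ∀ A : Fin (N + 1) → L, OnV J₀ A → (∀ i ∈ I, aeval A (F i) = 0) → A = 0) :
    ∃ C : ℝ, 1 ≤ C ∧ ∀ (x : Fin (N + 1) → K) (w : Fin r → K), x ≠ 0 →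
      (∀ f ∈ J₀, eval x f = 0) → (∀ i, eval x (F i) = D i * w i ^ d i) →
      ∃ i ∈ I, nrm L x ≤ C * ‖algebraMap K L (w i)‖ := by
  classical
  obtain ⟨η, hη, h⟩ := loc0 (L := L) J₀ hJ₀ (fun i : I => F i) (fun i => d i) (fun i => hF i) (by
    intro A hA hOn
    by_contra hcon
    push Not at hcon
    exact hA (hempty A hOn fun i hi => hcon ⟨i, hi⟩))
  refine ⟨max 1 (∑ i, max 1 (‖algebraMap K L (D i)‖ / η)), le_max_left _ _, fun x w hx hxJ hev => ?_⟩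
  obtain ⟨⟨i, hi⟩, h1⟩ := h (fun k => algebraMap K L (x k)) (by
    intro h0
    apply hx
    funext k
    exact (map_eq_zero_iff _ (algebraMap K L).injective).mp (congrFun h0 k)) (by
    intro f hf
    rw [aeval_alg, hxJ f hf, map_zero])
  refine ⟨i, hi, ?_⟩
  have h2 : nrm L x ≤ max 1 (‖algebraMap K L (D i)‖ / η) * ‖algebraMap K L (w i)‖ := by
    apply root_le (Nat.one_le_iff_ne_zero.mp (hd i)) (nrm_nonneg _) (norm_nonneg _)
    rw [aeval_alg, hev i, map_mul, map_pow, norm_mul, norm_pow] at h1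
    rw [div_mul_eq_mul_div, le_div_iff₀ hη, mul_comm]
    exact h1
  refine h2.trans (mul_le_mul_of_nonneg_right ?_ (norm_nonneg _))
  refine le_trans ?_ (le_max_right _ _)
  exact Finset.single_le_sum (f := fun i => max 1 (‖algebraMap K L (D i)‖ / η))
    (fun i _ => zero_le_one.trans (le_max_left _ _)) (Finset.mem_univ i)

lemma boundsJ [ProperSpace L] (J₀ : Set (MvPolynomial (Fin (N + 1)) K))
    (hJ₀ : ∀ f ∈ J₀, ∃ e, f.IsHomogeneous e) (n : ℕ)
    (F : Fin r → MvPolynomial (Fin (N + 1)) K) (d : Fin r → ℕ) (hd : ∀ i, 1 ≤ d i)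
    (hF : ∀ i, (F i).IsHomogeneous (d i)) (D : Fin r → K) (hD : ∀ i, D i ≠ 0)
    (hempty : ∀ I : Finset (Fin r), I.card = n + 1 → ∀ A : Fin (N + 1) → L, OnV J₀ A →
      (∀ i ∈ I, aeval A (F i) = 0) → A = 0) :
    ∃ C : ℝ, 1 ≤ C ∧ ∀ (x : Fin (N + 1) → K) (w : Fin r → K), x ≠ 0 →
      (∀ f ∈ J₀, eval x f = 0) → (∀ i, eval x (F i) = D i * w i ^ d i) →
      (∀ i, ‖algebraMap K L (w i)‖ ≤ C * nrm L x) ∧
      ∀ I : Finset (Fin r), I.card = n + 1 → ∃ i ∈ I, nrm L x ≤ C * ‖algebraMap K L (w i)‖ := by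
  classical
  choose C₁ hC₁ h₁ using fun i => upperJ (L := L) F d hd hF D hD i
  have h2 : ∀ I : Finset (Fin r), ∃ C : ℝ, 1 ≤ C ∧ (I.card = n + 1 →
      ∀ (x : Fin (N + 1) → K) (w : Fin r → K), x ≠ 0 →
      (∀ f ∈ J₀, eval x f = 0) → (∀ i, eval x (F i) = D i * w i ^ d i) →
      ∃ i ∈ I, nrm L x ≤ C * ‖algebraMap K L (w i)‖) := by
    intro I
    by_cases hI : I.card = n + 1
    · obtain ⟨C, hC, h⟩ := lowerI J₀ hJ₀ F d hd hF D I (hempty I hI)
      exact ⟨C, hC, fun _ => h⟩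
    · exact ⟨1, le_rfl, fun h => absurd h hI⟩
  choose C₂ hC₂ h₂ using h2
  set C : ℝ := 1 + (∑ i, C₁ i) + ∑ I, C₂ I with hC
  have p1 : 0 ≤ ∑ i, C₁ i := Finset.sum_nonneg fun i _ => zero_le_one.trans (hC₁ i)
  have p2 : 0 ≤ ∑ I, C₂ I := Finset.sum_nonneg fun i _ => zero_le_one.trans (hC₂ i)
  refine ⟨C, by linarith, fun x w hx hxJ hev => ⟨fun i => ?_, fun I hI => ?_⟩⟩
  · refine (h₁ i x w hev).trans (mul_le_mul_of_nonneg_right ?_ (nrm_nonneg _))
    have := Finset.single_le_sum (f := C₁) (fun i _ => zero_le_one.trans (hC₁ i))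
      (Finset.mem_univ i)
    linarith
  · obtain ⟨i, hi, h⟩ := h₂ I hI x w hx hxJ hev
    refine ⟨i, hi, h.trans (mul_le_mul_of_nonneg_right ?_ (norm_nonneg _))⟩
    have := Finset.single_le_sum (f := C₂) (fun i _ => zero_le_one.trans (hC₂ i))
      (Finset.mem_univ I)
    linarith

end bounds

section comb

/-- The combinatorial argument: one of the two places is close to an intersection of `n`
components, with exponents at least half of the height. -/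
lemma comb_good {r n : ℕ} (h1 : n + 1 ≤ r) (h2 : 2 * n ≤ r + 1) (q : Fin r → ℤ) (T M m : ℤ)
    (hM : ∀ j, q j ≤ M) (hm : ∀ j, m ≤ q j) (hM' : ∃ j, q j = M) (hm' : ∃ j, q j = m)
    (hT : 2 * T < M - m)
    (hP₁ : ∀ I : Finset (Fin r), I.card = n + 1 → ∃ i ∈ I, ∀ j, q j ≤ q i + T)
    (hP₂ : ∀ I : Finset (Fin r), I.card = n + 1 → ∃ i ∈ I, ∀ j, q i ≤ q j + T) :
    (∃ (I : Finset (Fin r)) (a : Fin r), I.card = n ∧ a ∉ I ∧
      (∀ i ∈ I, M - m ≤ 2 * (M - q i)) ∧ ∀ j, q j ≤ q a + T) ∨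
    ∃ (I : Finset (Fin r)) (a : Fin r), I.card = n ∧ a ∉ I ∧
      (∀ i ∈ I, M - m ≤ 2 * (q i - m)) ∧ ∀ j, q a ≤ q j + T := by
  classical
  set A₁ : Finset (Fin r) := Finset.univ.filter fun i => M - m ≤ 2 * (M - q i) with hA₁
  set A₂ : Finset (Fin r) := Finset.univ.filter fun i => M - m ≤ 2 * (q i - m) with hA₂
  obtain ⟨jM, hjM⟩ := hM'
  obtain ⟨jm, hjm⟩ := hm'
  have key₁ : ∀ I : Finset (Fin r), I.card = n + 1 → ∃ i ∈ I, i ∉ A₁ ∧ ∀ j, q j ≤ q i + T := by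
    intro I hI
    obtain ⟨i, hi, h⟩ := hP₁ I hI
    refine ⟨i, hi, fun hiA => ?_, h⟩
    have h3 := (Finset.mem_filter.mp hiA).2
    have h4 := h jM
    omega
  have key₂ : ∀ I : Finset (Fin r), I.card = n + 1 → ∃ i ∈ I, i ∉ A₂ ∧ ∀ j, q i ≤ q j + T := by
    intro I hI
    obtain ⟨i, hi, h⟩ := hP₂ I hI
    refine ⟨i, hi, fun hiA => ?_, h⟩
    have h3 := (Finset.mem_filter.mp hiA).2
    have h4 := h jm
    omega
  have hc₁ : A₁.card ≤ n := by
    by_contra hcon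
    push Not at hcon
    obtain ⟨I, hI, hIc⟩ := Finset.exists_subset_card_eq (Nat.succ_le_of_lt hcon)
    obtain ⟨i, hi, hiA, -⟩ := key₁ I hIc
    exact hiA (hI hi)
  have hc₂ : A₂.card ≤ n := by
    by_contra hcon
    push Not at hcon
    obtain ⟨I, hI, hIc⟩ := Finset.exists_subset_card_eq (Nat.succ_le_of_lt hcon)
    obtain ⟨i, hi, hiA, -⟩ := key₂ I hIc
    exact hiA (hI hi)
  have hun : A₁ ∪ A₂ = Finset.univ := by
    rw [Finset.eq_univ_iff_forall]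
    intro i
    rw [Finset.mem_union, hA₁, hA₂, Finset.mem_filter, Finset.mem_filter]
    by_cases h : M - m ≤ 2 * (M - q i)
    · exact Or.inl ⟨Finset.mem_univ _, h⟩
    · exact Or.inr ⟨Finset.mem_univ _, by omega⟩
  have hsum : r ≤ A₁.card + A₂.card := by
    have := Finset.card_union_le A₁ A₂
    rw [hun, Finset.card_univ, Fintype.card_fin] at this
    exact this
  rcases Nat.lt_or_ge A₁.card n with h3 | h3
  · -- the second place
    right
    have hA : A₂.card = n := by omega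
    obtain ⟨a, ha⟩ : ∃ a, a ∉ A₂ := by
      by_contra hcon
      push Not at hcon
      have := Finset.card_le_card (fun i _ => hcon i : (Finset.univ : Finset (Fin r)) ⊆ A₂)
      rw [Finset.card_univ, Fintype.card_fin] at this
      omega
    refine ⟨A₂, a, hA, ha, fun i hi => (Finset.mem_filter.mp hi).2, ?_⟩
    obtain ⟨i, hi, hiA, h⟩ := key₂ (insert a A₂) (by rw [Finset.card_insert_of_notMem ha, hA])
    rcases Finset.mem_insert.mp hi with rfl | hi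
    · exact h
    · exact absurd hi hiA
  · left
    have hA : A₁.card = n := by omega
    obtain ⟨a, ha⟩ : ∃ a, a ∉ A₁ := by
      by_contra hcon
      push Not at hcon
      have := Finset.card_le_card (fun i _ => hcon i : (Finset.univ : Finset (Fin r)) ⊆ A₁)
      rw [Finset.card_univ, Fintype.card_fin] at this
      omega
    refine ⟨A₁, a, hA, ha, fun i hi => (Finset.mem_filter.mp hi).2, ?_⟩
    obtain ⟨i, hi, hiA, h⟩ := key₁ (insert a A₁) (by rw [Finset.card_insert_of_notMem ha, hA])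
    rcases Finset.mem_insert.mp hi with rfl | hi
    · exact h
    · exact absurd hi hiA

end comb

end Pool.Agent.Helper10.Sub
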