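import Pool.Agent.Helper10.Sub.TwoPlaces

/-!
# The core argument for surfaces minus three hypersurface sections
-/

set_option autoImplicit false

namespace Pool.Agent.Helper10.Sub

open MvPolynomial

section aux
variable {K L : Type} [Field K] [Field L] [Algebra K L]

lemma lf_single {Y : Type} [Fintype Y] [DecidableEq Y] (m : Y) (y : Y → K) :
    lf (Pi.single m (1 : L)) y = algebraMap K L (y m) := by
  unfold lf
  rw [Finset.sum_eq_single m]
  · simp
  · intro j _ hj
    rw [Pi.single_eq_of_ne hj]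
    simp
  · intro h; exact absurd (Finset.mem_univ _) h

lemma lf_add {Y : Type} [Fintype Y] (l l' : Y → L) (y : Y → K) :
    lf (l + l') y = lf l y + lf l' y := by
  simp [lf, add_mul, Finset.sum_add_distrib]

lemma lf_sub {Y : Type} [Fintype Y] (l l' : Y → L) (y : Y → K) :
    lf (l - l') y = lf l y - lf l' y := by
  simp [lf, sub_mul, Finset.sum_sub_distrib]

lemma lf_smul {Y : Type} [Fintype Y] (c : L) (l : Y → L) (y : Y → K) :
    lf (c • l) y = c * lf l y := by
  simp only [lf, Pi.smul_apply, smul_eq_mul, Finset.mul_sum]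
  exact Finset.sum_congr rfl fun i _ => by ring

/-- The index set of the forms. -/
abbrev IN (N : ℕ) : Type := Fin 3 ⊕ Option (Fin (N + 1))

/-- The forms at one place. -/
noncomputable def vf {N : ℕ} (a b c : Fin 3)
    (t : Option (Fin (N + 1)) × (Option (Fin (N + 1)) → YN N → L)) : IN N → YN N → L :=
  Sum.elim ![Pi.single (Sum.inr b) 1, Pi.single (Sum.inr c) 1, Pi.single (emb a t.1) 1] t.2

variable {N : ℕ} {a b c : Fin 3}
  {t : Option (Fin (N + 1)) × (Option (Fin (N + 1)) → YN N → L)}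

lemma vf_alg (ht : ∀ k m, IsAlgebraic K (t.2 k m)) (i : IN N) (m : YN N) :
    IsAlgebraic K (vf a b c t i m) := by
  have hs : ∀ m' : YN N, IsAlgebraic K ((Pi.single m' (1 : L) : YN N → L) m) := by
    intro m'
    rw [Pi.single_apply]
    split_ifs
    · exact isAlgebraic_one
    · exact isAlgebraic_zero
  rcases i with i | i
  · fin_cases i
    · exact hs _
    · exact hs _
    · exact hs _
  · exact ht i m

lemma vf_span (habc : ∀ i : Fin 3, i = a ∨ i = b ∨ i = c)
    (ht : ∀ k, ∃ c₀ c₁ c₂ : L, t.2 k = Pi.single (emb a k) 1 - c₀ • Pi.single (emb a t.1) 1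
          - c₁ • Pi.single (Sum.inr b) 1 - c₂ • Pi.single (Sum.inr c) 1) (m : YN N) :
    ∃ e : IN N → L, ∀ y : YN N → K, algebraMap K L (y m) = ∑ i, e i * lf (vf a b c t i) y := by
  classical
  have key : ∀ k, ∃ e : IN N → L, ∀ y : YN N → K, algebraMap K L (y (emb a k)) =
      ∑ i, e i * lf (vf a b c t i) y := by
    intro k
    obtain ⟨c₀, c₁, c₂, hk⟩ := ht k
    refine ⟨Sum.elim ![c₁, c₂, c₀] (Pi.single k 1), fun y => ?_⟩
    rw [Fintype.sum_sum_type, Fin.sum_univ_three]
    have h1 : ∑ i : Option (Fin (N + 1)), (Sum.elim ![c₁, c₂, c₀] (Pi.single k 1) : IN N → L)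
        (Sum.inr i) * lf (vf a b c t (Sum.inr i)) y = lf (t.2 k) y := by
      rw [Finset.sum_eq_single k]
      · simp [vf]
      · intro j _ hj
        simp only [Sum.elim_inr]
        rw [Pi.single_eq_of_ne hj, zero_mul]
      · intro h; exact absurd (Finset.mem_univ _) h
    rw [h1, hk]
    simp only [vf, Sum.elim_inl, Matrix.cons_val_zero, Matrix.cons_val_one, Matrix.cons_val,
      lf_sub, lf_smul, lf_single]
    ring
  rcases m with k | i
  · exact key (some k)
  · rcases habc i with rfl | rfl | rfl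
    · exact key none
    · refine ⟨Pi.single (Sum.inl 0) 1, fun y => ?_⟩
      rw [Finset.sum_eq_single (Sum.inl 0)]
      · simp [vf, lf_single]
      · intro j _ hj
        rw [Pi.single_eq_of_ne hj, zero_mul]
      · intro h; exact absurd (Finset.mem_univ _) h
    · refine ⟨Pi.single (Sum.inl 1) 1, fun y => ?_⟩
      rw [Finset.sum_eq_single (Sum.inl 1)]
      · simp [vf, lf_single]
      · intro j _ hj
        rw [Pi.single_eq_of_ne hj, zero_mul]
      · intro h; exact absurd (Finset.mem_univ _) h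

/-- All forms, no proportionality. -/
lemma forms_two (V : Submodule K (YN N → K)) (habc : ∀ i : Fin 3, i = a ∨ i = b ∨ i = c)
    (ha : ∀ k m, IsAlgebraic K (t.2 k m))
    (ht : ∀ k, ∃ c₀ c₁ c₂ : L, t.2 k = Pi.single (emb a k) 1 - c₀ • Pi.single (emb a t.1) 1
          - c₁ • Pi.single (Sum.inr b) 1 - c₂ • Pi.single (Sum.inr c) 1)
    (E : Set (Fin (N + 1) → K)) (y : (Fin (N + 1) → K) → YN N → K)
    (hyV : ∀ x ∈ E, y x ∈ V) (hE : E.Nonempty) (hb : ∀ x ∈ E, y x (Sum.inr b) ≠ 0)
    (hno : ¬ ∃ κ : K, ∀ x ∈ E, y x (Sum.inr c) = κ * y x (Sum.inr b)) :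
    Forms V (vf a b c t) {Sum.inl 0, Sum.inl 1} Finset.univ := by
  classical
  have hinj : Function.Injective (algebraMap K L) := (algebraMap K L).injective
  refine ⟨Finset.subset_univ _, vf_alg ha, ?_, fun m => ?_⟩
  · intro e he
    have h01 : (Sum.inl 0 : IN N) ≠ Sum.inl 1 := by simp
    have h1 : ∀ x ∈ E, e (Sum.inl 0) * algebraMap K L (y x (Sum.inr b)) +
        e (Sum.inl 1) * algebraMap K L (y x (Sum.inr c)) = 0 := by
      intro x hx
      have := he (y x) (hyV x hx)
      rw [Finset.sum_pair h01] at this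
      simpa [vf, lf_single] using this
    have h2 : e (Sum.inl 1) = 0 := by
      by_contra hne
      apply hno
      obtain ⟨x₀, hx₀⟩ := hE
      refine ⟨y x₀ (Sum.inr c) / y x₀ (Sum.inr b), fun x hx => ?_⟩
      have hr : ∀ x ∈ E, algebraMap K L (y x (Sum.inr c) / y x (Sum.inr b)) =
          - e (Sum.inl 0) / e (Sum.inl 1) := by
        intro x hx
        have hbx : algebraMap K L (y x (Sum.inr b)) ≠ 0 := by
          rw [Ne, map_eq_zero_iff _ hinj]; exact hb x hx
        rw [map_div₀, div_eq_div_iff hbx hne]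
        linear_combination h1 x hx
      have h3 := hinj ((hr x hx).trans (hr x₀ hx₀).symm)
      rw [← h3, div_mul_cancel₀ _ (hb x hx)]
    have h4 : e (Sum.inl 0) = 0 := by
      obtain ⟨x₀, hx₀⟩ := hE
      have := h1 x₀ hx₀
      rw [h2, zero_mul, add_zero, mul_eq_zero] at this
      rcases this with h | h
      · exact h
      · exact absurd ((map_eq_zero_iff _ hinj).mp h) (hb x₀ hx₀)
    intro i hi
    rw [Finset.mem_insert, Finset.mem_singleton] at hi
    rcases hi with rfl | rfl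
    · exact h4
    · exact h2
  · obtain ⟨e, he⟩ := vf_span (K := K) habc ht m
    exact ⟨e, fun y _ => he y⟩

lemma forms_one (V : Submodule K (YN N → K)) (habc : ∀ i : Fin 3, i = a ∨ i = b ∨ i = c)
    (ha : ∀ k m, IsAlgebraic K (t.2 k m))
    (ht : ∀ k, ∃ c₀ c₁ c₂ : L, t.2 k = Pi.single (emb a k) 1 - c₀ • Pi.single (emb a t.1) 1
          - c₁ • Pi.single (Sum.inr b) 1 - c₂ • Pi.single (Sum.inr c) 1)
    (y₀ : YN N → K) (hy₀ : y₀ ∈ V) (hb : y₀ (Sum.inr b) ≠ 0) :
    Forms V (vf a b c t) {Sum.inl 0} Finset.univ := by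
  classical
  have hinj : Function.Injective (algebraMap K L) := (algebraMap K L).injective
  refine ⟨Finset.subset_univ _, vf_alg ha, ?_, fun m => ?_⟩
  · intro e he i hi
    rw [Finset.mem_singleton] at hi
    subst hi
    have := he y₀ hy₀
    rw [Finset.sum_singleton] at this
    have h2 : e (Sum.inl 0) * algebraMap K L (y₀ (Sum.inr b)) = 0 := by
      simpa [vf, lf_single] using this
    rcases mul_eq_zero.mp h2 with h | h
    · exact h
    · exact absurd ((map_eq_zero_iff _ hinj).mp h) hb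
  · obtain ⟨e, he⟩ := vf_span (K := K) habc ht m
    exact ⟨e, fun y _ => he y⟩

/-- If `w_c` is proportional to `w_b` on `V`, its form can be dropped. -/
lemma forms_prop (V : Submodule K (YN N → K)) (habc : ∀ i : Fin 3, i = a ∨ i = b ∨ i = c)
    (ha : ∀ k m, IsAlgebraic K (t.2 k m))
    (ht : ∀ k, ∃ c₀ c₁ c₂ : L, t.2 k = Pi.single (emb a k) 1 - c₀ • Pi.single (emb a t.1) 1
          - c₁ • Pi.single (Sum.inr b) 1 - c₂ • Pi.single (Sum.inr c) 1)
    (y₀ : YN N → K) (hy₀ : y₀ ∈ V) (hb : y₀ (Sum.inr b) ≠ 0)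
    (κ : K) (hκ : ∀ y ∈ V, y (Sum.inr c) = κ * y (Sum.inr b)) :
    Forms V (vf a b c t) {Sum.inl 0} (Finset.univ.erase (Sum.inl 1)) := by
  classical
  obtain ⟨-, h1, h2, h3⟩ := forms_one V habc ha ht y₀ hy₀ hb
  refine ⟨by simp, h1, h2, fun m => ?_⟩
  obtain ⟨e, he⟩ := h3 m
  refine ⟨Function.update e (Sum.inl 0) (e (Sum.inl 0) + e (Sum.inl 1) * algebraMap K L κ),
    fun y hy => ?_⟩
  rw [he y hy]
  have h01 : (Sum.inl 0 : IN N) ≠ Sum.inl 1 := by simp
  have hmem : (Sum.inl 0 : IN N) ∈ Finset.univ.erase (Sum.inl 1) := by simp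
  rw [← Finset.add_sum_erase _ _ (Finset.mem_univ (Sum.inl 1 : IN N)),
    ← Finset.add_sum_erase _ _ hmem, ← Finset.add_sum_erase _ (fun i => _ * _) hmem]
  have h4 : ∑ i ∈ (Finset.univ.erase (Sum.inl 1 : IN N)).erase (Sum.inl 0),
      Function.update e (Sum.inl 0) (e (Sum.inl 0) + e (Sum.inl 1) * algebraMap K L κ) i *
        lf (vf a b c t i) y =
      ∑ i ∈ (Finset.univ.erase (Sum.inl 1 : IN N)).erase (Sum.inl 0),
        e i * lf (vf a b c t i) y := by
    apply Finset.sum_congr rfl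
    intro i hi
    rw [Function.update_of_ne (Finset.ne_of_mem_erase hi)]
  rw [h4, Function.update_self]
  have h5 : lf (vf a b c t (Sum.inl 1)) y = algebraMap K L κ * lf (vf a b c t (Sum.inl 0)) y := by
    simp only [vf, Sum.elim_inl, Matrix.cons_val_zero, Matrix.cons_val_one, lf_single]
    rw [hκ y hy, map_mul]
  rw [h5]
  ring

end aux

section poly
variable {K : Type} [Field K] {L : Type} [NontriviallyNormedField L] [Algebra K L]

/-- Upper bound for homogeneous polynomials. -/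
lemma aeval_le {κ : Type} [Fintype κ] (f : MvPolynomial κ K) (d : ℕ) (hf : f.IsHomogeneous d) :
    ∃ C : ℝ, 0 ≤ C ∧ ∀ x : κ → L, ‖aeval x f‖ ≤ C * ‖x‖ ^ d := by
  classical
  refine ⟨∑ e ∈ f.support, ‖algebraMap K L (coeff e f)‖, Finset.sum_nonneg fun _ _ =>
    norm_nonneg _, fun x => ?_⟩
  conv_lhs => rw [f.as_sum, map_sum]
  refine (norm_sum_le _ _).trans ?_
  rw [Finset.sum_mul]
  apply Finset.sum_le_sum
  intro e he
  rw [aeval_monomial, norm_mul, Finsupp.prod_fintype _ _ (by simp), norm_prod]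
  apply mul_le_mul_of_nonneg_left _ (norm_nonneg _)
  have h1 : ∑ i, e i = d := by
    have := hf (mem_support_iff.mp he)
    rw [← this, Finsupp.weight_apply, Finsupp.sum_fintype _ _ (by simp)]
    simp
  rw [← h1, ← Finset.prod_pow_eq_pow_sum]
  apply Finset.prod_le_prod (fun _ _ => norm_nonneg _)
  intro i _
  rw [norm_pow]
  exact pow_le_pow_left₀ (norm_nonneg _) (norm_le_pi_norm x i) _

lemma root_le {R W κ : ℝ} {d : ℕ} (hd : d ≠ 0) (hR : 0 ≤ R) (hW : 0 ≤ W)
    (h : R ^ d ≤ κ * W ^ d) : R ≤ max 1 κ * W := by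
  have h1 : (1 : ℝ) ≤ max 1 κ := le_max_left _ _
  apply le_of_pow_le_pow_left₀ hd (by positivity)
  rw [mul_pow]
  refine h.trans (mul_le_mul_of_nonneg_right ?_ (pow_nonneg hW _))
  exact (le_max_right 1 κ).trans (le_self_pow₀ h1 hd)

end poly

end Pool.Agent.Helper10.Sub
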