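import Pool.Agent.Helper10.Sub.Main3
import Pool.Agent.Helper10.Sub.ApplyInf

/-!
# Surfaces minus three hypersurface sections: the core argument, end
-/

set_option autoImplicit false

namespace Pool.Agent.Helper10.Sub

open MvPolynomial

/-- Independent coordinate functionals in sufficient number span the dual. -/
lemma coords_span {K Y : Type} [Field K] [Fintype Y] (V : Submodule K (Y → K)) {n : ℕ}
    (j : Fin n → Y) (hind : ∀ c : Fin n → K, (∀ z ∈ V, ∑ i, c i * z (j i) = 0) → c = 0)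
    (hn : Module.finrank K V ≤ n) (m : Y) :
    ∃ c : Fin n → K, ∀ z ∈ V, z m = ∑ i, c i * z (j i) := by
  classical
  let φ : Y → Module.Dual K V := fun m => (LinearMap.proj m).comp V.subtype
  have hφ : ∀ (m : Y) (z : V), φ m z = (z : Y → K) m := fun _ _ => rfl
  have hli : LinearIndependent K (fun i => φ (j i)) := by
    rw [Fintype.linearIndependent_iff]
    intro c hc i
    have h1 : c = 0 := by
      apply hind
      intro z hz
      have := LinearMap.congr_fun hc ⟨z, hz⟩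
      simpa [hφ] using this
    rw [h1]; rfl
  have hcard : Fintype.card (Fin n) = Module.finrank K (Module.Dual K V) := by
    have h1 := hli.fintype_card_le_finrank
    rw [Subspace.dual_finrank_eq] at h1 ⊢
    rw [Fintype.card_fin] at h1 ⊢
    omega
  rcases Nat.eq_zero_or_pos n with h0 | h0
  · subst h0
    refine ⟨0, fun z hz => ?_⟩
    have h2 : Module.finrank K V = 0 := by omega
    have h3 : V = ⊥ := Submodule.finrank_eq_zero.mp h2
    rw [h3, Submodule.mem_bot] at hz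
    rw [hz]
    simp
  · have : Nonempty (Fin n) := ⟨⟨0, h0⟩⟩
    have htop := hli.span_eq_top_of_card_eq_finrank' hcard
    have h4 : φ m ∈ Submodule.span K (Set.range fun i => φ (j i)) := by
      rw [htop]; exact Submodule.mem_top
    rw [Submodule.mem_span_range_iff_exists_fun] at h4
    obtain ⟨c, hc⟩ := h4
    refine ⟨c, fun z hz => ?_⟩
    have := LinearMap.congr_fun hc ⟨z, hz⟩
    change _ = z m at this
    rw [← this]
    simp [hφ]

variable {K L₁ L₂ : Type} [Field K] [CharZero K] [NontriviallyNormedField L₁] [ProperSpace L₁]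
  [NontriviallyNormedField L₂] [ProperSpace L₂] [Algebra K L₁] [Algebra K L₂] {N : ℕ}

theorem coreInf (S : TwoPl K L₁ L₂) (hsub : S.SubHyp) (𝔅 : LN (Fin (N + 1) → K))
    (J₀ : Set (MvPolynomial (Fin (N + 1)) K)) (hJ₀ : ∀ f ∈ J₀, ∃ e, f.IsHomogeneous e)
    (F : Fin 3 → MvPolynomial (Fin (N + 1)) K) (d : Fin 3 → ℕ) (hd : ∀ i, 1 ≤ d i)
    (hF : ∀ i, (F i).IsHomogeneous (d i)) (D : Fin 3 → K) (hD : ∀ i, D i ≠ 0)
    (a b c : Fin 3) (habc : ∀ i, i = a ∨ i = b ∨ i = c) (hab : a ≠ b) (hac : a ≠ c) (hbc : b ≠ c)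
    (hempty₁ : ∀ A : Fin (N + 1) → L₁, OnV J₀ A → (∀ i, aeval A (F i) = 0) → A = 0)
    (hempty₂ : ∀ A : Fin (N + 1) → L₂, OnV J₀ A → (∀ i, aeval A (F i) = 0) → A = 0)
    (hred₁ : ∀ A : Fin (N + 1) → L₁, A ≠ 0 → OnV (J₀ ∪ {F b, F c}) A → Jac (J₀ ∪ {F b, F c}) A)
    (hred₂ : ∀ A : Fin (N + 1) → L₂, A ≠ 0 → OnV (J₀ ∪ {F a, F c}) A → Jac (J₀ ∪ {F a, F c}) A)
    (E : Set (Fin (N + 1) → K)) (hE : 𝔅.Big E) (w : (Fin (N + 1) → K) → Fin 3 → K)
    (hw : ∀ x ∈ E, ∀ i, ∃ q : ℤ, w x i = S.ε ^ q)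
    (hev : ∀ x ∈ E, ∀ i, eval x (F i) = D i * w x i ^ d i)
    (hO : ∀ x ∈ E, ∀ k, x k ∈ S.O)
    (hX : ∀ x ∈ E, OnV J₀ x)
    (c₀ : ℝ) (hc₀ : 0 < c₀) (hn : ∀ x ∈ E, c₀ ≤ nrm L₂ x ∧ nrm L₂ x ≤ c₀⁻¹)
    (η : ℝ) (hη : 0 < η)
    (ha : ∀ x ∈ E, η * nrm L₁ x ^ d a ≤ ‖algebraMap K L₁ (eval x (F a))‖)
    (hb : ∀ x ∈ E, η * nrm L₂ x ^ d b ≤ ‖algebraMap K L₂ (eval x (F b))‖) :
    ∃ E' ⊆ E, 𝔅.Big E' ∧ ∃ l : Fin 3 → Fin (N + 1) → K, ∀ x ∈ E', ∀ k,
      x k = ∑ i, w x i * l i k := by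
  classical
  have hε0 : S.ε ≠ 0 := by
    intro h0
    have := S.hε
    rw [h0, map_zero, norm_zero] at this
    linarith
  have hw0 : ∀ x ∈ E, ∀ i, w x i ≠ 0 := by
    intro x hx i
    obtain ⟨q, hq⟩ := hw x hx i
    rw [hq]
    exact zpow_ne_zero _ hε0
  have hxne : ∀ x ∈ E, x ≠ 0 := by
    intro x hx h0
    have h1 := (hn x hx).1
    have h2 : nrm L₂ x = 0 := by
      rw [h0, nrm]
      simp only [Pi.zero_apply, map_zero]
      exact norm_zero
    linarith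
  set y : (Fin (N + 1) → K) → YN N → K := fun x => Sum.elim x (w x) with hy
  obtain ⟨C₀, hC₀, hconst⟩ := S.consts F d hd hF D hD a b c E w hw hev c₀ hc₀ hn η hη ha hb
  obtain ⟨E₁, Ty₁, hE₁, hTy₁, hpl₁⟩ := placeJ J₀ hJ₀ F d hd hF D hD a b c habc hempty₁ hred₁
  obtain ⟨E₂, Ty₂, hE₂, hTy₂, hpl₂⟩ := placeJ J₀ hJ₀ F d hd hF D hD b a c
    (fun i => by rcases habc i with h | h | h <;> tauto) hempty₂ hred₂
  obtain ⟨E', hE'E, hE'D, hmin⟩ := 𝔅.exists_minimal (K := K) hE y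
  set V := Submodule.span K (y '' E') with hVdef
  obtain ⟨t₁, ht₁, hD₁⟩ := 𝔅.partition Ty₁ hE'D (fun t x => ∀ k,
      ‖∑ m, t.2 k m * algebraMap K L₁ (Sum.elim x (w x) m)‖ *
        ‖fun j => algebraMap K L₁ (x j)‖ ≤
        E₁ * max ‖algebraMap K L₁ (w x b)‖ ‖algebraMap K L₁ (w x c)‖ ^ 2)
    (fun x hx => hpl₁ x (hxne x (hE'E hx)) (hX x (hE'E hx)) (w x) (hev x (hE'E hx)))
  obtain ⟨t₂, ht₂, hD₂⟩ := 𝔅.partition Ty₂ hD₁ (fun t x => ∀ k,
      ‖∑ m, t.2 k m * algebraMap K L₂ (Sum.elim x (w x) m)‖ *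
        ‖fun j => algebraMap K L₂ (x j)‖ ≤
        E₂ * max ‖algebraMap K L₂ (w x a)‖ ‖algebraMap K L₂ (w x c)‖ ^ 2)
    (fun x hx => hpl₂ x (hxne x (hE'E hx.1)) (hX x (hE'E hx.1)) (w x) (hev x (hE'E hx.1)))
  obtain ⟨hta₁, htf₁⟩ := hTy₁ t₁ ht₁
  obtain ⟨hta₂, htf₂⟩ := hTy₂ t₂ ht₂
  set G : Set (Fin (N + 1) → K) := _ with hG
  change 𝔅.Big G at hD₂
  have hGE' : G ⊆ E' := fun x hx => hx.1.1
  have hGE : G ⊆ E := hGE'.trans hE'E
  have hr₁ : ∀ x ∈ G, ∀ k, ‖lf (t₁.2 k) (y x)‖ * nrm L₁ x ≤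
      E₁ * max ‖algebraMap K L₁ (w x b)‖ ‖algebraMap K L₁ (w x c)‖ ^ 2 := fun x hx => hx.1.2
  have hr₂ : ∀ x ∈ G, ∀ k, ‖lf (t₂.2 k) (y x)‖ * nrm L₂ x ≤
      E₂ * max ‖algebraMap K L₂ (w x a)‖ ‖algebraMap K L₂ (w x c)‖ ^ 2 := fun x hx => hx.2
  have hVs : ∀ G' ⊆ G, 𝔅.Big G' → Submodule.span K (y '' G') = V :=
    fun G' hG' hD' => hmin G' (hG'.trans hGE') hD'
  -- the constant
  set C₁ : ℝ := C₀ + E₁ ^ S.n₁ * (C₀ ^ 2) ^ 2 + E₂ ^ S.n₂ * (C₀ ^ 2) ^ 2 * (c₀⁻¹) ^ S.n₂ +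
    (c₀⁻¹) ^ S.n₂ with hC₁def
  have q1 : 0 ≤ E₁ ^ S.n₁ * (C₀ ^ 2) ^ 2 := by positivity
  have q2 : 0 ≤ E₂ ^ S.n₂ * (C₀ ^ 2) ^ 2 * (c₀⁻¹) ^ S.n₂ := by positivity
  have q3 : 0 ≤ (c₀⁻¹) ^ S.n₂ := by positivity
  have hC₁C₀ : C₀ ≤ C₁ := by rw [hC₁def]; linarith
  have hnum : ∀ x ∈ G, ∀ C, C₁ ≤ C → C ≤ nrm L₁ x ^ S.n₁ →
      Num C (nrm L₁ x ^ S.n₁) (‖algebraMap K L₁ (w x a)‖ ^ S.n₁)
        (‖algebraMap K L₁ (w x b)‖ ^ S.n₁) (‖algebraMap K L₁ (w x c)‖ ^ S.n₁) :=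
    fun x hx C hC hCX => hconst x (hGE hx) C (hC₁C₀.trans hC) hCX
  have hun : ∀ x ∈ G, ∀ i, ‖algebraMap K L₂ (w x i)‖ ^ S.n₂ =
      (‖algebraMap K L₁ (w x i)‖ ^ S.n₁)⁻¹ := by
    intro x hx i
    obtain ⟨q, hq⟩ := hw x (hGE hx) i
    rw [hq]
    exact (S.unit q).2
  -- bounds for the forms at the first place
  have hβ₁ : ∀ x ∈ G, ∀ C, C₁ ≤ C → C ≤ nrm L₁ x ^ S.n₁ → ∀ i,
      ‖lf (vf a b c t₁ i) (y x)‖ ^ S.n₁ ≤ beta₁ N C (nrm L₁ x ^ S.n₁)
        (‖algebraMap K L₁ (w x b)‖ ^ S.n₁) (‖algebraMap K L₁ (w x c)‖ ^ S.n₁) i := by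
    intro x hx C hC hCX i
    have hN := hnum x hx C hC hCX
    have hN₀ := hconst x (hGE hx) C₀ le_rfl ((hC₁C₀.trans hC).trans hCX)
    have hX0 := hN.X0
    have hX1 := hN.X1
    have hC0 := hN.C0
    have hCle : ∀ i, ‖algebraMap K L₁ (w x i)‖ ^ S.n₁ ≤ C * nrm L₁ x ^ S.n₁ := by
      intro i
      rcases habc i with rfl | rfl | rfl
      · exact hN.a2
      · exact hN.b2.trans (le_mul_of_one_le_right hC0.le hX1)
      · exact hN.c2
    rcases i with i | k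
    · fin_cases i
      · have e : lf (vf a b c t₁ (Sum.inl 0)) (y x) = algebraMap K L₁ (w x b) := by
          simp [vf, lf_single, hy]
        change ‖lf (vf a b c t₁ (Sum.inl 0)) (y x)‖ ^ S.n₁ ≤ _
        rw [e]
        exact le_rfl
      · have e : lf (vf a b c t₁ (Sum.inl 1)) (y x) = algebraMap K L₁ (w x c) := by
          simp [vf, lf_single, hy]
        change ‖lf (vf a b c t₁ (Sum.inl 1)) (y x)‖ ^ S.n₁ ≤ _
        rw [e]
        exact le_rfl
      · have e : lf (vf a b c t₁ (Sum.inl 2)) (y x) = algebraMap K L₁ (y x (emb a t₁.1)) := by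
          simp [vf, lf_single]
        change ‖lf (vf a b c t₁ (Sum.inl 2)) (y x)‖ ^ S.n₁ ≤ C * nrm L₁ x ^ S.n₁
        rw [e]
        rcases t₁.1 with _ | k
        · exact hCle a
        · refine le_trans (pow_le_pow_left₀ (norm_nonneg _) (le_nrm x k) _) ?_
          exact le_mul_of_one_le_left hX0.le hN.hC
    · change ‖lf (t₁.2 k) (y x)‖ ^ S.n₁ ≤ C * (‖algebraMap K L₁ (w x c)‖ ^ S.n₁) ^ 2 /
        nrm L₁ x ^ S.n₁
      rw [le_div_iff₀ hX0]
      have h1 : (1 : ℝ) ≤ C₀ ^ 2 := one_le_pow₀ hC₀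
      have h2 := good_bound (n := S.n₁) (κ := C₀ ^ 2) (W := ‖algebraMap K L₁ (w x c)‖ ^ S.n₁)
        (norm_nonneg _) (nrm_nonneg (L := L₁) x) (norm_nonneg _) (norm_nonneg _) hE₁.le
        (hr₁ x hx k)
        (by
          calc ‖algebraMap K L₁ (w x b)‖ ^ S.n₁ ≤ C₀ := hN₀.b2
            _ = C₀ * 1 := (mul_one _).symm
            _ ≤ C₀ * (C₀ * ‖algebraMap K L₁ (w x c)‖ ^ S.n₁) :=
              mul_le_mul_of_nonneg_left hN₀.c1 hN₀.C0.le
            _ = _ := by ring)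
        (le_mul_of_one_le_left hN.c0.le h1)
      refine h2.trans ?_
      rw [mul_pow, ← mul_assoc]
      apply mul_le_mul_of_nonneg_right _ (by positivity)
      linarith
  have hβ₂ : ∀ x ∈ G, ∀ C, C₁ ≤ C → C ≤ nrm L₁ x ^ S.n₁ → ∀ i,
      ‖lf (vf b a c t₂ i) (y x)‖ ^ S.n₂ ≤ beta₂ N C
        (‖algebraMap K L₁ (w x a)‖ ^ S.n₁) (‖algebraMap K L₁ (w x c)‖ ^ S.n₁) i := by
    intro x hx C hC hCX i
    have hN := hnum x hx C hC hCX
    have hN₀ := hconst x (hGE hx) C₀ le_rfl ((hC₁C₀.trans hC).trans hCX)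
    have hX0 := hN.X0
    have hX1 := hN.X1
    have hC0 := hN.C0
    have hn2 : 0 < nrm L₂ x := lt_of_lt_of_le hc₀ (hn x (hGE hx)).1
    rcases i with i | k
    · fin_cases i
      · have e : lf (vf b a c t₂ (Sum.inl 0)) (y x) = algebraMap K L₂ (w x a) := by
          simp [vf, lf_single, hy]
        change ‖lf (vf b a c t₂ (Sum.inl 0)) (y x)‖ ^ S.n₂ ≤ _
        rw [e, hun x hx]
        exact le_rfl
      · have e : lf (vf b a c t₂ (Sum.inl 1)) (y x) = algebraMap K L₂ (w x c) := by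
          simp [vf, lf_single, hy]
        change ‖lf (vf b a c t₂ (Sum.inl 1)) (y x)‖ ^ S.n₂ ≤ _
        rw [e, hun x hx]
        exact le_rfl
      · have e : lf (vf b a c t₂ (Sum.inl 2)) (y x) = algebraMap K L₂ (y x (emb b t₂.1)) := by
          simp [vf, lf_single]
        change ‖lf (vf b a c t₂ (Sum.inl 2)) (y x)‖ ^ S.n₂ ≤ C
        rw [e]
        rcases t₂.1 with _ | k
        · change ‖algebraMap K L₂ (w x b)‖ ^ S.n₂ ≤ C
          rw [hun x hx, inv_le_iff_one_le_mul₀ hN.b0]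
          exact hN.b1
        · refine le_trans (pow_le_pow_left₀ (norm_nonneg _)
            ((le_nrm x k).trans (hn x (hGE hx)).2) _) ?_
          linarith
    · change ‖lf (t₂.2 k) (y x)‖ ^ S.n₂ ≤ C / (‖algebraMap K L₁ (w x c)‖ ^ S.n₁) ^ 2
      have hc0 := hN.c0
      rw [le_div_iff₀ (by positivity)]
      have h1 : (1 : ℝ) ≤ C₀ ^ 2 := one_le_pow₀ hC₀
      have h2 := good_bound (n := S.n₂) (κ := C₀ ^ 2)
        (W := (‖algebraMap K L₁ (w x c)‖ ^ S.n₁)⁻¹)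
        (norm_nonneg _) (nrm_nonneg (L := L₂) x) (norm_nonneg _) (norm_nonneg _) hE₂.le
        (hr₂ x hx k)
        (by
          rw [hun x hx]
          refine hN₀.ex.trans ?_
          rw [div_le_iff₀ hX0]
          calc C₀ = C₀ * (‖algebraMap K L₁ (w x c)‖ ^ S.n₁ *
                (‖algebraMap K L₁ (w x c)‖ ^ S.n₁)⁻¹) := by
                rw [mul_inv_cancel₀ hc0.ne', mul_one]
            _ ≤ C₀ * (C₀ * nrm L₁ x ^ S.n₁ * (‖algebraMap K L₁ (w x c)‖ ^ S.n₁)⁻¹) := by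
                apply mul_le_mul_of_nonneg_left _ hN₀.C0.le
                exact mul_le_mul_of_nonneg_right hN₀.c2 (by positivity)
            _ = _ := by ring)
        (by
          rw [hun x hx]
          exact le_mul_of_one_le_left (by positivity) h1)
      have h3 : ‖lf (t₂.2 k) (y x)‖ ^ S.n₂ * c₀ ^ S.n₂ ≤
          E₂ ^ S.n₂ * (C₀ ^ 2 * (‖algebraMap K L₁ (w x c)‖ ^ S.n₁)⁻¹) ^ 2 := by
        refine le_trans ?_ h2
        apply mul_le_mul_of_nonneg_left _ (by positivity)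
        exact pow_le_pow_left₀ hc₀.le (hn x (hGE hx)).1 _
      have h4 : c₀ ^ S.n₂ * (c₀⁻¹) ^ S.n₂ = 1 := by
        rw [← mul_pow, mul_inv_cancel₀ hc₀.ne', one_pow]
      calc ‖lf (t₂.2 k) (y x)‖ ^ S.n₂ * (‖algebraMap K L₁ (w x c)‖ ^ S.n₁) ^ 2
          = (‖lf (t₂.2 k) (y x)‖ ^ S.n₂ * c₀ ^ S.n₂) * ((c₀⁻¹) ^ S.n₂ *
              (‖algebraMap K L₁ (w x c)‖ ^ S.n₁) ^ 2) := by
            calc _ = ‖lf (t₂.2 k) (y x)‖ ^ S.n₂ * (‖algebraMap K L₁ (w x c)‖ ^ S.n₁) ^ 2 * 1 :=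
                  (mul_one _).symm
              _ = ‖lf (t₂.2 k) (y x)‖ ^ S.n₂ * (‖algebraMap K L₁ (w x c)‖ ^ S.n₁) ^ 2 *
                  (c₀ ^ S.n₂ * (c₀⁻¹) ^ S.n₂) := by rw [h4]
              _ = _ := by ring
        _ ≤ (E₂ ^ S.n₂ * (C₀ ^ 2 * (‖algebraMap K L₁ (w x c)‖ ^ S.n₁)⁻¹) ^ 2) *
            ((c₀⁻¹) ^ S.n₂ * (‖algebraMap K L₁ (w x c)‖ ^ S.n₁) ^ 2) :=
            mul_le_mul_of_nonneg_right h3 (by positivity)
        _ = E₂ ^ S.n₂ * (C₀ ^ 2) ^ 2 * (c₀⁻¹) ^ S.n₂ *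
            ((‖algebraMap K L₁ (w x c)‖ ^ S.n₁)⁻¹ * ‖algebraMap K L₁ (w x c)‖ ^ S.n₁) ^ 2 := by
            ring
        _ = E₂ ^ S.n₂ * (C₀ ^ 2) ^ 2 * (c₀⁻¹) ^ S.n₂ := by
            rw [inv_mul_cancel₀ hc0.ne', one_pow, mul_one]
        _ ≤ C := by linarith
  -- integrality and membership
  have hyO : ∀ x ∈ G, ∀ m, y x m ∈ S.O := by
    intro x hx m
    rcases m with k | i
    · exact hO x (hGE hx) k
    · obtain ⟨q, hq⟩ := hw x (hGE hx) i
      change w x i ∈ S.O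
      rw [hq]
      exact S.εO q
  have hyV : ∀ x ∈ G, y x ∈ V := fun x hx => Submodule.subset_span ⟨x, hGE' hx, rfl⟩
  have hlarge : ∀ G' ⊆ G, 𝔅.Big G' → ∀ B : ℝ, 𝔅.Big {x | x ∈ G' ∧ B ≤ nrm L₁ x ^ S.n₁} :=
    fun G' hG' hD' B => S.largeInf 𝔅 hD' (fun x hx => hO x (hGE (hG' hx))) c₀⁻¹
      (fun x hx => (hn x (hGE (hG' hx))).2) B
  have hGne : G.Nonempty := 𝔅.nonempty hD₂
  -- finishing tool
  have fin : ∀ G' ⊆ G, 𝔅.Big G' → ∀ C, C₁ ≤ C → ∀ (s₁ r₁ s₂ r₂ : Finset (IN N)),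
      2 ≤ Module.finrank K V →
      Forms V (vf a b c t₁) s₁ r₁ → Forms V (vf b a c t₂) s₂ r₂ → ∀ C' : ℝ,
      (∀ x ∈ G', C ≤ nrm L₁ x ^ S.n₁ → ∀ u₁ u₂ : Finset (IN N), s₁ ⊆ u₁ → u₁ ⊆ r₁ →
        s₂ ⊆ u₂ → u₂ ⊆ r₂ → u₁.card = Module.finrank K V → u₂.card = Module.finrank K V →
        (∏ i ∈ u₁, beta₁ N C (nrm L₁ x ^ S.n₁)
          (‖algebraMap K L₁ (w x b)‖ ^ S.n₁) (‖algebraMap K L₁ (w x c)‖ ^ S.n₁) i) *
        (∏ i ∈ u₂, beta₂ N C
          (‖algebraMap K L₁ (w x a)‖ ^ S.n₁) (‖algebraMap K L₁ (w x c)‖ ^ S.n₁) i) ≤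
          C' * (nrm L₁ x ^ S.n₁)⁻¹) → False := by
    intro G' hG' hD' C hC s₁ r₁ s₂ r₂ hV2 hf₁ hf₂ C' hprod
    have hD'' := hlarge G' hG' hD' C
    exact S.applyInf hsub 𝔅 y {x | x ∈ G' ∧ C ≤ nrm L₁ x ^ S.n₁} hD'' V
      (fun G'' hG'' hDG => hVs G'' (fun x hx => hG' (hG'' hx).1) hDG)
      hV2
      (fun x hx => hyO x (hG' hx.1)) (fun x => nrm L₁ x ^ S.n₁)
      (fun B => by
        have := hlarge _ (fun x hx => hG' hx.1) hD'' B
        exact this)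
      (vf a b c t₁) s₁ r₁ hf₁ (vf b a c t₂) s₂ r₂ hf₂
      (fun x => beta₁ N C (nrm L₁ x ^ S.n₁)
          (‖algebraMap K L₁ (w x b)‖ ^ S.n₁) (‖algebraMap K L₁ (w x c)‖ ^ S.n₁))
      (fun x => beta₂ N C
          (‖algebraMap K L₁ (w x a)‖ ^ S.n₁) (‖algebraMap K L₁ (w x c)‖ ^ S.n₁)) 4
      (fun x hx => hβ₁ x (hG' hx.1) C hC hx.2)
      (fun x hx => hβ₂ x (hG' hx.1) C hC hx.2)
      (fun x hx => beta₁_two (hnum x (hG' hx.1) C hC hx.2))
      (fun x hx => beta₂_two (hnum x (hG' hx.1) C hC hx.2))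
      C' (fun x hx => hprod x hx.1 hx.2)
  obtain ⟨x₀, hx₀⟩ := hGne
  have hb₀ : y x₀ (Sum.inr b) ≠ 0 := hw0 x₀ (hGE hx₀) b
  have ha₀ : y x₀ (Sum.inr a) ≠ 0 := hw0 x₀ (hGE hx₀) a
  have habc' : ∀ i : Fin 3, i = b ∨ i = a ∨ i = c := fun i => by
    rcases habc i with h | h | h <;> tauto
  have hinj₁ : Function.Injective (algebraMap K L₁) := (algebraMap K L₁).injective
  -- `w_a` and `w_b` are independent
  have hab_ind : ∀ α β : K, (∀ x ∈ G, α * w x a + β * w x b = 0) → α = 0 ∧ β = 0 := by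
    intro α β hrel
    have hα : α = 0 := by
      by_contra hα
      have hD' := hlarge G subset_rfl hD₂
        (C₁ + C₁ ^ 2 * ‖algebraMap K L₁ (-β / α)‖ ^ S.n₁ + 1)
      obtain ⟨x, hx, hxB⟩ := 𝔅.nonempty hD'
      have hκ0 : 0 ≤ ‖algebraMap K L₁ (-β / α)‖ ^ S.n₁ := by positivity
      have hC₁0 : 0 < C₁ := by linarith
      have hN := hnum x hx C₁ le_rfl (by
        have : 0 ≤ C₁ ^ 2 * ‖algebraMap K L₁ (-β / α)‖ ^ S.n₁ := by positivity
        linarith)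
      have h1 : w x a = (-β / α) * w x b := by
        have := hrel x hx
        field_simp
        linear_combination this
      have h2 : ‖algebraMap K L₁ (w x a)‖ ^ S.n₁ =
          ‖algebraMap K L₁ (-β / α)‖ ^ S.n₁ * ‖algebraMap K L₁ (w x b)‖ ^ S.n₁ := by
        rw [h1, map_mul, norm_mul, mul_pow]
      have h3 := hN.a1
      rw [h2] at h3
      have h4 : ‖algebraMap K L₁ (-β / α)‖ ^ S.n₁ * ‖algebraMap K L₁ (w x b)‖ ^ S.n₁ ≤
          ‖algebraMap K L₁ (-β / α)‖ ^ S.n₁ * C₁ := mul_le_mul_of_nonneg_left hN.b2 hκ0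
      have h5 := mul_le_mul_of_nonneg_left h4 hC₁0.le
      nlinarith
    refine ⟨hα, ?_⟩
    have := hrel x₀ hx₀
    rw [hα, zero_mul, zero_add, mul_eq_zero] at this
    exact this.resolve_right (hw0 x₀ (hGE hx₀) b)
  -- two-term case
  have two : Module.finrank K V ≤ 2 → ∃ E' ⊆ E, 𝔅.Big E' ∧ ∃ l : Fin 3 → Fin (N + 1) → K,
      ∀ x ∈ E', ∀ k, x k = ∑ i, w x i * l i k := by
    intro hV2
    have hsp := coords_span V (n := 2) ![Sum.inr a, Sum.inr b] (by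
      intro e he
      have := hab_ind (e 0) (e 1) (fun x hx => by
        have := he (y x) (hyV x hx)
        simpa [Fin.sum_univ_two, hy] using this)
      funext i
      fin_cases i
      · exact this.1
      · exact this.2) hV2
    choose l hl using hsp
    refine ⟨G, hGE, hD₂, fun i k => if i = a then l (Sum.inl k) 0 else
      if i = b then l (Sum.inl k) 1 else 0, fun x hx k => ?_⟩
    have h1 := hl (Sum.inl k) (y x) (hyV x hx)
    rw [Fin.sum_univ_two] at h1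
    have h2 : ∀ f : Fin 3 → K, ∑ i, f i = f a + f b + f c := by
      intro f
      have huniv : (Finset.univ : Finset (Fin 3)) = {a, b, c} := by
        ext i
        simp only [Finset.mem_univ, Finset.mem_insert, Finset.mem_singleton, true_iff]
        exact habc i
      rw [huniv, Finset.sum_insert (by simp [hab, hac]), Finset.sum_pair hbc]
      ring
    rw [h2]
    simp only [if_true, hab.symm, hac.symm, hbc.symm, if_false, mul_zero, add_zero]
    change x k = l (Sum.inl k) 0 * w x a + l (Sum.inl k) 1 * w x b at h1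
    rw [h1]
    ring
  by_cases hcb : ∃ κ : K, 𝔅.Big {x | x ∈ G ∧ w x c = κ * w x b}
  · -- case a
    obtain ⟨κ, hκ⟩ := hcb
    apply two
    by_contra hV
    obtain ⟨m, hm⟩ : ∃ m, Module.finrank K V = m + 3 := ⟨Module.finrank K V - 3, by omega⟩
    have hsubG : {x | x ∈ G ∧ w x c = κ * w x b} ⊆ G := fun x hx => hx.1
    have hrelV : ∀ z ∈ V, z (Sum.inr c) = κ * z (Sum.inr b) := by
      intro z hz
      rw [← hVs _ hsubG hκ] at hz
      have := rel_on_span y (Pi.single (Sum.inr c) 1 - κ • Pi.single (Sum.inr b) 1) (by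
        intro x hx
        rw [rel_sum b c hbc, sub_eq_zero]
        exact hx.2) z hz
      rw [rel_sum b c hbc, sub_eq_zero] at this
      exact this
    set C : ℝ := C₁ * (1 + ‖algebraMap K L₁ κ‖ ^ S.n₁) with hCdef
    have hC₁0 : 0 < C₁ := by linarith
    have hCC : C₁ ≤ C := by
      rw [hCdef]
      exact le_mul_of_one_le_right hC₁0.le (by
        have : 0 ≤ ‖algebraMap K L₁ κ‖ ^ S.n₁ := by positivity
        linarith)
    refine fin _ hsubG hκ C hCC {Sum.inl 0} (Finset.univ.erase (Sum.inl 1)) {Sum.inl 0}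
      Finset.univ (by omega) (forms_prop V habc hta₁ htf₁ (y x₀) (hyV x₀ hx₀) hb₀ κ hrelV)
      (forms_one V habc' hta₂ htf₂ (y x₀) (hyV x₀ hx₀) ha₀)
      (C ^ 8 * (C ^ 6) ^ (m + 1)) ?_
    intro x hx hCX u₁ u₂ hs₁ hu₁ hs₂ hu₂ hc₁ hc₂
    have hN := hnum x hx.1 C hCC hCX
    have hN₁ := hnum x hx.1 C₁ le_rfl (hCC.trans hCX)
    refine prods_a hN ?_ u₁ u₂ hs₁ hu₁ hs₂ m (by omega) (by omega)
    rw [hx.2, map_mul, norm_mul, mul_pow, hCdef]
    calc ‖algebraMap K L₁ κ‖ ^ S.n₁ * ‖algebraMap K L₁ (w x b)‖ ^ S.n₁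
        ≤ ‖algebraMap K L₁ κ‖ ^ S.n₁ * C₁ :=
          mul_le_mul_of_nonneg_left hN₁.b2 (by positivity)
      _ ≤ C₁ * (1 + ‖algebraMap K L₁ κ‖ ^ S.n₁) := by nlinarith
  by_cases hca : ∃ κ : K, 𝔅.Big {x | x ∈ G ∧ w x c = κ * w x a}
  · -- case b
    obtain ⟨κ, hκ⟩ := hca
    apply two
    by_contra hV
    obtain ⟨m, hm⟩ : ∃ m, Module.finrank K V = m + 3 := ⟨Module.finrank K V - 3, by omega⟩
    have hsubG : {x | x ∈ G ∧ w x c = κ * w x a} ⊆ G := fun x hx => hx.1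
    have hrelV : ∀ z ∈ V, z (Sum.inr c) = κ * z (Sum.inr a) := by
      intro z hz
      rw [← hVs _ hsubG hκ] at hz
      have := rel_on_span y (Pi.single (Sum.inr c) 1 - κ • Pi.single (Sum.inr a) 1) (by
        intro x hx
        rw [rel_sum a c hac, sub_eq_zero]
        exact hx.2) z hz
      rw [rel_sum a c hac, sub_eq_zero] at this
      exact this
    have hκ0 : κ ≠ 0 := by
      intro h0
      have h1 := hrelV (y x₀) (hyV x₀ hx₀)
      rw [h0, zero_mul] at h1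
      exact hw0 x₀ (hGE hx₀) c h1
    have hκn : 0 < ‖algebraMap K L₁ κ‖ ^ S.n₁ := by
      have : 0 < ‖algebraMap K L₁ κ‖ := norm_pos_iff.mpr
        (by rw [Ne, map_eq_zero_iff _ (algebraMap K L₁).injective]; exact hκ0)
      positivity
    set C : ℝ := C₁ * (1 + (‖algebraMap K L₁ κ‖ ^ S.n₁)⁻¹) with hCdef
    have hC₁0 : 0 < C₁ := by linarith
    have hCC : C₁ ≤ C := by
      rw [hCdef]
      exact le_mul_of_one_le_right hC₁0.le (by
        have : 0 ≤ (‖algebraMap K L₁ κ‖ ^ S.n₁)⁻¹ := by positivity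
        linarith)
    refine fin _ hsubG hκ C hCC {Sum.inl 0} Finset.univ {Sum.inl 0}
      (Finset.univ.erase (Sum.inl 1)) (by omega)
      (forms_one V habc hta₁ htf₁ (y x₀) (hyV x₀ hx₀) hb₀)
      (forms_prop V habc' hta₂ htf₂ (y x₀) (hyV x₀ hx₀) ha₀ κ hrelV)
      (C ^ 8 * (C ^ 6) ^ (m + 1)) ?_
    intro x hx hCX u₁ u₂ hs₁ hu₁ hs₂ hu₂ hc₁ hc₂
    have hN := hnum x hx.1 C hCC hCX
    have hN₁ := hnum x hx.1 C₁ le_rfl (hCC.trans hCX)
    refine prods_b hN ?_ u₁ u₂ hs₁ hs₂ hu₂ m (by omega) (by omega)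
    rw [hx.2, map_mul, norm_mul, mul_pow, hCdef]
    have hA0 := hN₁.a0
    calc nrm L₁ x ^ S.n₁ ≤ C₁ * ‖algebraMap K L₁ (w x a)‖ ^ S.n₁ := hN₁.a1
      _ = C₁ * (‖algebraMap K L₁ κ‖ ^ S.n₁)⁻¹ *
          (‖algebraMap K L₁ κ‖ ^ S.n₁ * ‖algebraMap K L₁ (w x a)‖ ^ S.n₁) := by
          field_simp
      _ ≤ C₁ * (1 + (‖algebraMap K L₁ κ‖ ^ S.n₁)⁻¹) *
          (‖algebraMap K L₁ κ‖ ^ S.n₁ * ‖algebraMap K L₁ (w x a)‖ ^ S.n₁) := by
          apply mul_le_mul_of_nonneg_right _ (by positivity)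
          apply mul_le_mul_of_nonneg_left _ hC₁0.le
          linarith
  -- case c
  have hV3 : Module.finrank K V ≤ 3 := by
    by_contra hV
    obtain ⟨m, hm⟩ : ∃ m, Module.finrank K V = m + 4 := ⟨Module.finrank K V - 4, by omega⟩
    refine fin G subset_rfl hD₂ C₁ le_rfl {Sum.inl 0, Sum.inl 1} Finset.univ
      {Sum.inl 0, Sum.inl 1} Finset.univ (by omega)
      (forms_two V habc hta₁ htf₁ G y hyV ⟨x₀, hx₀⟩ (fun x hx => hw0 x (hGE hx) b) ?_)
      (forms_two V habc' hta₂ htf₂ G y hyV ⟨x₀, hx₀⟩ (fun x hx => hw0 x (hGE hx) a) ?_)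
      (C₁ ^ 8 * (C₁ ^ 2) ^ (m + 1)) ?_
    · rintro ⟨κ, hκ⟩
      exact hcb ⟨κ, 𝔅.mono (fun x hx => ⟨hx, hκ x hx⟩) hD₂⟩
    · rintro ⟨κ, hκ⟩
      exact hca ⟨κ, 𝔅.mono (fun x hx => ⟨hx, hκ x hx⟩) hD₂⟩
    · intro x hx hCX u₁ u₂ hs₁ hu₁ hs₂ hu₂ hc₁ hc₂
      exact prods_c (hnum x hx C₁ le_rfl hCX) u₁ u₂ hs₁ hs₂ m (by omega) (by omega)
  have habc_ind : ∀ α β γ : K, (∀ x ∈ G, α * w x a + β * w x b + γ * w x c = 0) →
      α = 0 ∧ β = 0 ∧ γ = 0 := by
    intro α β γ hrel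
    have hγ : γ = 0 := by
      by_contra hγ
      by_cases hα : α = 0
      · apply hcb
        refine ⟨-β / γ, 𝔅.mono (fun x hx => ⟨hx, ?_⟩) hD₂⟩
        have := hrel x hx
        rw [hα] at this
        field_simp
        linear_combination this
      · apply hca
        -- the ratio `w_c / w_a` takes finitely many values
        have hαγ : 0 < ‖algebraMap K L₁ (α / γ)‖ := norm_pos_iff.mpr
          (by rw [Ne, map_eq_zero_iff _ hinj₁]; exact div_ne_zero hα hγ)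
        set r : ℝ := (‖algebraMap K L₁ (α / γ)‖ / 2) ^ S.n₁ with hr
        have hr0 : 0 < r := by positivity
        have hC₁0 : 0 < C₁ := by linarith
        have hD' := hlarge G subset_rfl hD₂
          (C₁ + ‖algebraMap K L₁ (β / γ)‖ ^ S.n₁ * C₁ ^ 2 / r)
        have hfinite := S.north (max (C₁ ^ 2 + 1) (r⁻¹ + 1))
        obtain ⟨κ, -, hκ⟩ := 𝔅.partition hfinite.toFinset hD' (fun κ x => w x c / w x a = κ) (by
          rintro x ⟨hx, hxB⟩
          refine ⟨w x c / w x a, ?_, rfl⟩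
          rw [Set.Finite.mem_toFinset]
          have hβ0 : 0 ≤ ‖algebraMap K L₁ (β / γ)‖ ^ S.n₁ * C₁ ^ 2 / r := by positivity
          have hN := hnum x hx C₁ le_rfl (by linarith)
          have hA0 := hN.a0
          have hX0 := hN.X0
          obtain ⟨qc, hqc⟩ := hw x (hGE hx) c
          obtain ⟨qa, hqa⟩ := hw x (hGE hx) a
          have hρ : w x c / w x a = S.ε ^ (qc - qa) := by
            rw [hqc, hqa, zpow_sub₀ hε0]
          have hwa0 : algebraMap K L₁ (w x a) ≠ 0 := by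
            rw [Ne, map_eq_zero_iff _ hinj₁]; exact hw0 x (hGE hx) a
          have hBa : ‖algebraMap K L₁ (w x b / w x a)‖ ^ S.n₁ ≤ C₁ ^ 2 / nrm L₁ x ^ S.n₁ := by
            rw [map_div₀, norm_div, div_pow, div_eq_mul_inv]
            calc ‖algebraMap K L₁ (w x b)‖ ^ S.n₁ * (‖algebraMap K L₁ (w x a)‖ ^ S.n₁)⁻¹
                ≤ C₁ * (C₁ / nrm L₁ x ^ S.n₁) :=
                  mul_le_mul hN.b2 hN.ex (by positivity) hC₁0.le
              _ = _ := by ring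
          have hup : ‖algebraMap K L₁ (w x c / w x a)‖ ^ S.n₁ ≤ C₁ ^ 2 := by
            rw [map_div₀, norm_div, div_pow, div_eq_mul_inv]
            calc ‖algebraMap K L₁ (w x c)‖ ^ S.n₁ * (‖algebraMap K L₁ (w x a)‖ ^ S.n₁)⁻¹
                ≤ (C₁ * nrm L₁ x ^ S.n₁) * (C₁ / nrm L₁ x ^ S.n₁) :=
                  mul_le_mul hN.c2 hN.ex (by positivity) (by positivity)
              _ = C₁ ^ 2 := by field_simp
          have hlow : r ≤ ‖algebraMap K L₁ (w x c / w x a)‖ ^ S.n₁ := by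
            have h1 : w x c / w x a = -(α / γ) - (β / γ) * (w x b / w x a) := by
              have h2 := hrel x hx
              have h3 := hw0 x (hGE hx) a
              field_simp
              linear_combination h2
            have h4 : ‖algebraMap K L₁ ((β / γ) * (w x b / w x a))‖ ≤
                ‖algebraMap K L₁ (α / γ)‖ / 2 := by
              apply le_of_pow_le_pow_left₀ S.hn₁ (by positivity)
              rw [map_mul, norm_mul, mul_pow]
              calc ‖algebraMap K L₁ (β / γ)‖ ^ S.n₁ * ‖algebraMap K L₁ (w x b / w x a)‖ ^ S.n₁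
                  ≤ ‖algebraMap K L₁ (β / γ)‖ ^ S.n₁ * (C₁ ^ 2 / nrm L₁ x ^ S.n₁) :=
                    mul_le_mul_of_nonneg_left hBa (by positivity)
                _ = (‖algebraMap K L₁ (β / γ)‖ ^ S.n₁ * C₁ ^ 2) / nrm L₁ x ^ S.n₁ := by ring
                _ ≤ r := by
                  rw [div_le_iff₀ hX0, mul_comm r, ← div_le_iff₀ hr0]
                  linarith
            apply pow_le_pow_left₀ (by positivity)
            rw [h1, map_sub, map_neg]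
            have h5 : ‖algebraMap K L₁ (α / γ)‖ ≤
                ‖-algebraMap K L₁ (α / γ) - algebraMap K L₁ (β / γ * (w x b / w x a))‖ +
                ‖algebraMap K L₁ (β / γ * (w x b / w x a))‖ := by
              have := norm_add_le
                (-algebraMap K L₁ (α / γ) - algebraMap K L₁ (β / γ * (w x b / w x a)))
                (algebraMap K L₁ (β / γ * (w x b / w x a)))
              rw [sub_add_cancel, norm_neg] at this
              exact this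
            linarith
          have hunit := S.unit (qc - qa)
          rw [← hρ] at hunit
          refine ⟨by rw [hρ]; exact S.εO _, ?_, ?_⟩
          · refine le_trans ?_ (le_max_left _ _)
            by_contra hcon
            push Not at hcon
            have h6 : 1 ≤ ‖algebraMap K L₁ (w x c / w x a)‖ := by
              have : (0 : ℝ) ≤ C₁ ^ 2 := by positivity
              linarith
            have h7 := le_self_pow₀ h6 S.hn₁
            linarith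
          · refine le_trans ?_ (le_max_right _ _)
            by_contra hcon
            push Not at hcon
            have hri : 0 < r⁻¹ := inv_pos.mpr hr0
            have h6 : 1 ≤ ‖algebraMap K L₂ (w x c / w x a)‖ := by linarith
            have h7 := le_self_pow₀ h6 S.hn₂
            have h8 : ‖algebraMap K L₂ (w x c / w x a)‖ ^ S.n₂ ≤ r⁻¹ := by
              rw [hunit.2]
              exact inv_anti₀ hr0 hlow
            linarith)
        refine ⟨κ, 𝔅.mono ?_ hκ⟩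
        rintro x ⟨⟨hx, -⟩, h⟩
        refine ⟨hx, ?_⟩
        rw [← h, div_mul_cancel₀ _ (hw0 x (hGE hx) a)]
    have h1 := hab_ind α β (fun x hx => by
      have := hrel x hx
      rw [hγ, zero_mul, add_zero] at this
      exact this)
    exact ⟨h1.1, h1.2, hγ⟩
  have hsp := coords_span V (n := 3) ![Sum.inr a, Sum.inr b, Sum.inr c] (by
    intro e he
    have := habc_ind (e 0) (e 1) (e 2) (fun x hx => by
      have := he (y x) (hyV x hx)
      simpa [Fin.sum_univ_three, hy] using this)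
    funext i
    fin_cases i
    · exact this.1
    · exact this.2.1
    · exact this.2.2) hV3
  choose l hl using hsp
  refine ⟨G, hGE, hD₂, fun i k => if i = a then l (Sum.inl k) 0 else
    if i = b then l (Sum.inl k) 1 else l (Sum.inl k) 2, fun x hx k => ?_⟩
  have h1 := hl (Sum.inl k) (y x) (hyV x hx)
  rw [Fin.sum_univ_three] at h1
  have h2 : ∀ f : Fin 3 → K, ∑ i, f i = f a + f b + f c := by
    intro f
    have huniv : (Finset.univ : Finset (Fin 3)) = {a, b, c} := by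
      ext i
      simp only [Finset.mem_univ, Finset.mem_insert, Finset.mem_singleton, true_iff]
      exact habc i
    rw [huniv, Finset.sum_insert (by simp [hab, hac]), Finset.sum_pair hbc]
    ring
  rw [h2]
  simp only [if_true, hab.symm, hac.symm, hbc.symm, if_false]
  change x k = l (Sum.inl k) 0 * w x a + l (Sum.inl k) 1 * w x b + l (Sum.inl k) 2 * w x c at h1
  rw [h1]
  ring

end Pool.Agent.Helper10.Sub
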