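import Pool.Agent.Helper10.Sub.Lemmas

/-!
# Zariski dense sets of rational points on a projective variety
-/

set_option autoImplicit false

namespace Pool.Agent.Helper10.Sub

open MvPolynomial

section dense
variable {K : Type} [Field K] {κ : Type} {P : Ideal (MvPolynomial κ K)}

/-- `E` is Zariski dense in the projective variety with homogeneous prime ideal `P`. -/
def Dn (P : Ideal (MvPolynomial κ K)) (E : Set (κ → K)) : Prop :=
  ∀ (G : MvPolynomial κ K) (e : ℕ), G.IsHomogeneous e → G ∉ P → ∃ x ∈ E, eval x G ≠ 0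

lemma Dn.mono {E E' : Set (κ → K)} (h : Dn P E) (hs : E ⊆ E') : Dn P E' := by
  intro G e hG hGP
  obtain ⟨x, hx, hne⟩ := h G e hG hGP
  exact ⟨x, hs hx, hne⟩

lemma Dn.union (hP : P.IsPrime) {E₁ E₂ : Set (κ → K)} (h : Dn P (E₁ ∪ E₂)) :
    Dn P E₁ ∨ Dn P E₂ := by
  by_contra hcon
  rw [not_or] at hcon
  obtain ⟨h1, h2⟩ := hcon
  unfold Dn at h1 h2
  push Not at h1 h2
  obtain ⟨G₁, e₁, hG₁, hn₁, h1⟩ := h1
  obtain ⟨G₂, e₂, hG₂, hn₂, h2⟩ := h2
  obtain ⟨x, hx, hne⟩ := h (G₁ * G₂) (e₁ + e₂) (hG₁.mul hG₂)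
    (fun hmem => (hP.mem_or_mem hmem).elim hn₁ hn₂)
  rw [map_mul] at hne
  rcases hx with hx | hx
  · exact left_ne_zero_of_mul hne (h1 x hx)
  · exact right_ne_zero_of_mul hne (h2 x hx)

lemma not_dn_empty (hP : P.IsPrime) : ¬ Dn P (∅ : Set (κ → K)) := by
  intro h
  obtain ⟨x, hx, -⟩ := h 1 0 (isHomogeneous_one _ _) (fun h1 => hP.ne_top
    ((Ideal.eq_top_iff_one P).mpr h1))
  exact hx

lemma Dn.partition (hP : P.IsPrime) {α : Type*} (s : Finset α) {E : Set (κ → K)} (h : Dn P E)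
    (R : α → (κ → K) → Prop) (hR : ∀ x ∈ E, ∃ i ∈ s, R i x) :
    ∃ i ∈ s, Dn P {x | x ∈ E ∧ R i x} := by
  classical
  induction s using Finset.induction_on generalizing E with
  | empty =>
    exfalso
    apply not_dn_empty hP
    refine h.mono ?_
    intro x hx
    obtain ⟨i, hi, -⟩ := hR x hx
    exact absurd hi (Finset.notMem_empty i)
  | insert a s ha ih =>
    have h1 : E ⊆ {x | x ∈ E ∧ R a x} ∪ {x | x ∈ E ∧ ∃ i ∈ s, R i x} := by
      intro x hx
      obtain ⟨i, hi, hRi⟩ := hR x hx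
      rw [Finset.mem_insert] at hi
      rcases hi with rfl | hi
      · exact Or.inl ⟨hx, hRi⟩
      · exact Or.inr ⟨hx, i, hi, hRi⟩
    rcases (h.mono h1).union hP with h2 | h2
    · exact ⟨a, Finset.mem_insert_self _ _, h2⟩
    · obtain ⟨i, hi, h3⟩ := ih h2 (fun x hx => hx.2)
      exact ⟨i, Finset.mem_insert_of_mem hi, h3.mono (fun x hx => ⟨hx.1.1, hx.2⟩)⟩

lemma Dn.partition' (hP : P.IsPrime) {α : Type*} [Finite α] {E : Set (κ → K)} (h : Dn P E)
    (R : α → (κ → K) → Prop) (hR : ∀ x ∈ E, ∃ i, R i x) :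
    ∃ i, Dn P {x | x ∈ E ∧ R i x} := by
  classical
  haveI := Fintype.ofFinite α
  obtain ⟨i, -, hi⟩ := h.partition hP Finset.univ R (fun x hx => by
    obtain ⟨i, hi⟩ := hR x hx
    exact ⟨i, Finset.mem_univ _, hi⟩)
  exact ⟨i, hi⟩

/-- Removing a finite set does not destroy density, provided that every point lies on a
hypersurface not containing the variety. -/
lemma Dn.diff_finite (hP : P.IsPrime) (hpt : ∀ x : κ → K, ∃ (G : MvPolynomial κ K) (e : ℕ),
    G.IsHomogeneous e ∧ G ∉ P ∧ eval x G = 0) {E E' : Set (κ → K)} (h : Dn P E)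
    (hE' : E'.Finite) : Dn P (E \ E') := by
  classical
  have h1 : E ⊆ (E \ E') ∪ E' := by
    intro x hx
    by_cases hx' : x ∈ E'
    · exact Or.inr hx'
    · exact Or.inl ⟨hx, hx'⟩
  rcases (h.mono h1).union hP with h2 | h2
  · exact h2
  · exfalso
    obtain ⟨z, hz, h3⟩ := h2.partition hP hE'.toFinset (fun z x => x = z)
      (fun x hx => ⟨x, hE'.mem_toFinset.mpr hx, rfl⟩)
    obtain ⟨G, e, hG, hGP, h0⟩ := hpt z
    obtain ⟨x, ⟨-, rfl⟩, hne⟩ := h3 G e hG hGP
    exact hne h0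

/-- A linear form vanishing on a dense set lies in `P`. -/
lemma Dn.mem_of_forall {E : Set (κ → K)} (h : Dn P E) {G : MvPolynomial κ K} {e : ℕ}
    (hG : G.IsHomogeneous e) (h0 : ∀ x ∈ E, eval x G = 0) : G ∈ P := by
  by_contra hn
  obtain ⟨x, hx, hne⟩ := h G e hG hn
  exact hne (h0 x hx)

/-- A dense subset whose image under `y` spans a space of minimal dimension. -/
lemma Dn.exists_minimal {Y : Type} [Fintype Y] {E : Set (κ → K)} (h : Dn P E)
    (y : (κ → K) → Y → K) : ∃ E' ⊆ E, Dn P E' ∧ ∀ E'' ⊆ E', Dn P E'' →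
      Submodule.span K (y '' E'') = Submodule.span K (y '' E') := by
  classical
  let S : Set ℕ := {n | ∃ E' ⊆ E, Dn P E' ∧ Module.finrank K (Submodule.span K (y '' E')) = n}
  have hS : S.Nonempty := ⟨_, E, subset_rfl, h, rfl⟩
  obtain ⟨E', hE', hD, hn⟩ := Nat.sInf_mem hS
  refine ⟨E', hE', hD, fun E'' hE'' hD'' => ?_⟩
  have h1 : Submodule.span K (y '' E'') ≤ Submodule.span K (y '' E') :=
    Submodule.span_mono (Set.image_mono hE'')
  apply Submodule.eq_of_le_of_finrank_le h1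
  rw [hn]
  exact Nat.sInf_le ⟨E'', hE''.trans hE', hD'', rfl⟩

end dense

end Pool.Agent.Helper10.Sub
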