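import Pool.Agent.Helper10.Sub.Defs

/-!
# Multivariate Hasse derivatives
-/

set_option autoImplicit false
set_option linter.unusedSimpArgs false

namespace Pool.Agent.Helper10.Sub

open MvPolynomial Finset

section general
variable {σ : Type*} {R S : Type*} [CommRing R] [CommRing S]

lemma taylor_X (i : σ) : taylor (X i : MvPolynomial σ R) = X i + C (X i) := by
  simp [taylor]

lemma taylor_C (a : R) : taylor (C a : MvPolynomial σ R) = C (C a) := by
  rw [taylor, aeval_C]
  rfl

lemma hd_add (k : σ →₀ ℕ) (P Q : MvPolynomial σ R) : hd k (P + Q) = hd k P + hd k Q := by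
  simp [hd]

lemma hd_sub (k : σ →₀ ℕ) (P Q : MvPolynomial σ R) : hd k (P - Q) = hd k P - hd k Q := by
  simp [hd]

lemma hd_zero (k : σ →₀ ℕ) : hd k (0 : MvPolynomial σ R) = 0 := by simp [hd]

lemma hd_sum {α : Type*} (k : σ →₀ ℕ) (s : Finset α) (P : α → MvPolynomial σ R) :
    hd k (∑ a ∈ s, P a) = ∑ a ∈ s, hd k (P a) := by
  classical
  induction s using Finset.induction_on with
  | empty => simp [hd_zero]
  | insert a s ha ih => rw [Finset.sum_insert ha, Finset.sum_insert ha, hd_add, ih]

lemma hd_C_mul (k : σ →₀ ℕ) (a : R) (P : MvPolynomial σ R) : hd k (C a * P) = C a * hd k P := by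
  simp only [hd, map_mul, taylor_C, coeff_C_mul]

lemma hd_smul (k : σ →₀ ℕ) (a : R) (P : MvPolynomial σ R) : hd k (a • P) = a • hd k P := by
  rw [smul_eq_C_mul, smul_eq_C_mul, hd_C_mul]

/-- Leibniz rule. -/
lemma hd_mul [DecidableEq σ] (k : σ →₀ ℕ) (P Q : MvPolynomial σ R) :
    hd k (P * Q) = ∑ x ∈ Finset.HasAntidiagonal.antidiagonal k, hd x.1 P * hd x.2 Q := by
  simp only [hd, map_mul, coeff_mul]

lemma map_taylor (f : R →+* S) (P : MvPolynomial σ R) :
    MvPolynomial.map (MvPolynomial.map f) (taylor P) = taylor (MvPolynomial.map f P) := by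
  induction P using MvPolynomial.induction_on with
  | C a => simp [taylor_C]
  | add p q hp hq => simp only [map_add, hp, hq]
  | mul_X p i hp => simp only [map_mul, hp, taylor_X, map_add, map_X, map_C]

lemma map_hd (f : R →+* S) (k : σ →₀ ℕ) (P : MvPolynomial σ R) :
    MvPolynomial.map f (hd k P) = hd k (MvPolynomial.map f P) := by
  simp only [hd, ← map_taylor, coeff_map]

lemma map_eval_taylor (ξ : σ → R) (P : MvPolynomial σ R) :
    MvPolynomial.map (eval ξ) (taylor P) = shift ξ P := by
  induction P using MvPolynomial.induction_on with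
  | C a => simp [taylor_C, shift]
  | add p q hp hq => simp only [map_add, hp, hq]
  | mul_X p i hp =>
    simp only [map_mul, hp, taylor_X, map_add, map_X, map_C]
    simp [shift]

/-- Taylor coefficients at `ξ` are the values of the Hasse derivatives. -/
theorem coeff_shift (ξ : σ → R) (k : σ →₀ ℕ) (P : MvPolynomial σ R) :
    coeff k (shift ξ P) = eval ξ (hd k P) := by
  rw [← map_eval_taylor, coeff_map, hd]

lemma hd_zero_index (P : MvPolynomial σ R) : hd 0 P = P := by
  have h : ∀ P : MvPolynomial σ R, (coeff 0 (taylor P)) = P := by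
    intro P
    have : ((constantCoeff : MvPolynomial σ (MvPolynomial σ R) →+* MvPolynomial σ R).comp
        (taylor : MvPolynomial σ R →ₐ[R] MvPolynomial σ (MvPolynomial σ R)).toRingHom) =
        RingHom.id _ := by
      apply MvPolynomial.ringHom_ext
      · intro a
        simp [taylor_C]
      · intro i
        simp [taylor_X]
    have h2 := congrArg (fun f => f P) this
    simpa [constantCoeff_eq] using h2
  exact h P

lemma shift_X (ξ : σ → R) (i : σ) : shift ξ (X i) = X i + C (ξ i) := by simp [shift]

lemma shift_C (ξ : σ → R) (a : R) : shift ξ (C a) = C a := by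
  simp [shift]

lemma shift_shift (ξ η : σ → R) (P : MvPolynomial σ R) :
    shift ξ (shift η P) = shift (ξ + η) P := by
  induction P using MvPolynomial.induction_on with
  | C a => simp [shift_C]
  | add p q hp hq => simp only [map_add, hp, hq]
  | mul_X p i hp =>
    simp only [map_mul, hp, shift_X, map_add, shift_C, Pi.add_apply]
    ring

lemma shift_zero (P : MvPolynomial σ R) : shift (0 : σ → R) P = P := by
  induction P using MvPolynomial.induction_on with
  | C a => simp [shift_C]
  | add p q hp hq => simp only [map_add, hp, hq]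
  | mul_X p i hp => simp [map_mul, hp, shift_X]

lemma shift_injective (ξ : σ → R) : Function.Injective (shift ξ : MvPolynomial σ R → _) := by
  intro P Q h
  have h2 := congrArg (shift (-ξ)) h
  rw [shift_shift, shift_shift, neg_add_cancel, shift_zero, shift_zero] at h2
  exact h2

lemma eval_shift (ξ x : σ → R) (P : MvPolynomial σ R) :
    eval x (shift ξ P) = eval (x + ξ) P := by
  induction P using MvPolynomial.induction_on with
  | C a => simp [shift_C]
  | add p q hp hq => simp only [map_add, hp, hq]
  | mul_X p i hp => simp only [map_mul, hp, shift_X, map_add, eval_X, eval_C, Pi.add_apply]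

lemma map_shift (f : R →+* S) (ξ : σ → R) (P : MvPolynomial σ R) :
    MvPolynomial.map f (shift ξ P) = shift (fun i => f (ξ i)) (MvPolynomial.map f P) := by
  induction P using MvPolynomial.induction_on with
  | C a => simp [shift_C]
  | add p q hp hq => simp only [map_add, hp, hq]
  | mul_X p i hp => simp only [map_mul, hp, shift_X, map_add, map_X, map_C]

end general

section fin
variable {σ : Type*} [Fintype σ] {R : Type*} [CommRing R]

/-- Hasse derivatives of monomials. -/
theorem hd_monomial (k e : σ →₀ ℕ) (a : R) :
    hd k (monomial e a) = monomial (e - k) (a * ((∏ i, (e i).choose (k i) : ℕ) : R)) := by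
  classical
  have h1 : taylor (monomial e a : MvPolynomial σ R) =
      C (C a) * ∏ i : σ, (X i + C (X i)) ^ (e i) := by
    rw [monomial_eq, map_mul, taylor_C, Finsupp.prod_fintype _ _ (by simp), map_prod]
    congr 1
    apply Finset.prod_congr rfl
    intro i _
    rw [map_pow, taylor_X]
  have h2 : ∀ i : σ, (X i + C (X i) : MvPolynomial σ (MvPolynomial σ R)) ^ (e i) =
      ∑ j ∈ range (e i + 1), monomial (Finsupp.single i j)
        (X i ^ (e i - j) * (((e i).choose j : ℕ) : MvPolynomial σ R)) := by
    intro i
    rw [add_pow]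
    apply Finset.sum_congr rfl
    intro j _
    rw [monomial_eq, Finsupp.prod_single_index (by simp)]
    simp only [map_mul, map_pow, map_natCast]
    ring
  have h3 : ∏ i : σ, (X i + C (X i) : MvPolynomial σ (MvPolynomial σ R)) ^ (e i) =
      ∑ f ∈ Fintype.piFinset (fun i => range (e i + 1)),
        monomial (Finsupp.equivFunOnFinite.symm f)
          (∏ i, (X i ^ (e i - f i) * (((e i).choose (f i) : ℕ) : MvPolynomial σ R))) := by
    rw [Finset.prod_congr rfl (fun i _ => h2 i), Finset.prod_univ_sum]
    apply Finset.sum_congr rfl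
    intro f _
    have : ∀ s : Finset σ, ∏ i ∈ s, (monomial (Finsupp.single i (f i))
        (X i ^ (e i - f i) * (((e i).choose (f i) : ℕ) : MvPolynomial σ R)) :
          MvPolynomial σ (MvPolynomial σ R)) =
        monomial (∑ i ∈ s, Finsupp.single i (f i))
          (∏ i ∈ s, (X i ^ (e i - f i) * (((e i).choose (f i) : ℕ) : MvPolynomial σ R))) := by
      intro s
      induction s using Finset.induction_on with
      | empty => simp
      | insert a s ha ih =>
        rw [Finset.prod_insert ha, ih, monomial_mul, Finset.sum_insert ha, Finset.prod_insert ha]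
    rw [this]
    congr 2
    ext i
    simp [Finsupp.finsetSum_apply, Finsupp.single_apply]
  rw [hd, h1, coeff_C_mul, h3, coeff_sum]
  simp only [coeff_monomial]
  by_cases hk : k ≤ e
  · rw [Finset.sum_eq_single (fun i => k i)]
    · have : Finsupp.equivFunOnFinite.symm (fun i => k i) = k := by
        ext i; simp
      rw [if_pos this, Finset.prod_mul_distrib, monomial_eq, Finsupp.prod_fintype _ _ (by simp)]
      simp only [Finsupp.coe_tsub, Pi.sub_apply, map_mul, map_natCast, Nat.cast_prod, map_prod]
      ring
    · intro f _ hf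
      rw [if_neg]
      intro h
      apply hf
      ext i
      rw [← h]; simp
    · intro h
      exfalso
      apply h
      rw [Fintype.mem_piFinset]
      intro i
      rw [Finset.mem_range]
      exact Nat.lt_succ_of_le (hk i)
  · have hz : ∏ i, (e i).choose (k i) = 0 := by
      rw [Finsupp.le_def] at hk
      push Not at hk
      obtain ⟨i, hi⟩ := hk
      exact Finset.prod_eq_zero (Finset.mem_univ i) (Nat.choose_eq_zero_of_lt hi)
    rw [hz]
    simp only [Nat.cast_zero, mul_zero, map_zero]
    rw [Finset.sum_eq_zero, mul_zero]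
    intro f hf
    rw [if_neg]
    intro h
    apply hk
    intro i
    rw [← h]
    rw [Fintype.mem_piFinset] at hf
    have := hf i
    rw [Finset.mem_range] at this
    simpa using Nat.le_of_lt_succ this

lemma hd_eq_sum (k : σ →₀ ℕ) (P : MvPolynomial σ R) :
    hd k P = ∑ e ∈ P.support, monomial (e - k)
      (coeff e P * ((∏ i, (e i).choose (k i) : ℕ) : R)) := by
  conv_lhs => rw [P.as_sum, hd_sum]
  exact Finset.sum_congr rfl fun e _ => hd_monomial k e _

/-- Coefficients of Hasse derivatives. -/
theorem coeff_hd (k e : σ →₀ ℕ) (P : MvPolynomial σ R) :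
    coeff e (hd k P) = coeff (e + k) P * ((∏ i, ((e + k) i).choose (k i) : ℕ) : R) := by
  classical
  rw [hd_eq_sum, coeff_sum]
  simp only [coeff_monomial]
  by_cases h : e + k ∈ P.support
  · rw [Finset.sum_eq_single (e + k)]
    · rw [if_pos (by simp)]
    · intro e' _ hne
      by_cases h2 : e' - k = e
      · rw [if_pos h2]
        have h3 : ¬ k ≤ e' := by
          intro h4
          apply hne
          rw [← h2, tsub_add_cancel_of_le h4]
        rw [Finsupp.le_def] at h3
        push Not at h3
        obtain ⟨i, hi⟩ := h3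
        rw [Finset.prod_eq_zero (Finset.mem_univ i) (Nat.choose_eq_zero_of_lt hi)]
        simp
      · rw [if_neg h2]
    · intro h5; exact absurd h h5
  · rw [notMem_support_iff.mp h, zero_mul]
    apply Finset.sum_eq_zero
    intro e' he'
    by_cases h2 : e' - k = e
    · rw [if_pos h2]
      have h3 : ¬ k ≤ e' := by
        intro h4
        apply h
        rw [← h2, tsub_add_cancel_of_le h4]
        exact he'
      rw [Finsupp.le_def] at h3
      push Not at h3
      obtain ⟨i, hi⟩ := h3
      rw [Finset.prod_eq_zero (Finset.mem_univ i) (Nat.choose_eq_zero_of_lt hi)]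
      simp
    · rw [if_neg h2]

/-- Composition of Hasse derivatives. -/
theorem hd_hd (j k : σ →₀ ℕ) (P : MvPolynomial σ R) :
    hd j (hd k P) = ((∏ i, ((j + k) i).choose (k i) : ℕ) : MvPolynomial σ R) * hd (j + k) P := by
  ext e
  rw [← map_natCast (C : R →+* MvPolynomial σ R), coeff_C_mul, coeff_hd, coeff_hd, coeff_hd]
  have h1 : ∀ i, ((e + j + k) i).choose (k i) * ((e + j) i).choose (j i) =
      ((j + k) i).choose (k i) * ((e + (j + k)) i).choose ((j + k) i) := by
    intro i
    simp only [Finsupp.coe_add, Pi.add_apply]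
    have h2 := Nat.choose_mul (n := e i + j i + k i) (k := j i + k i) (s := k i) (by omega)
    have e1 : e i + j i + k i - k i = e i + j i := by omega
    have e2 : j i + k i - k i = j i := by omega
    rw [e1, e2] at h2
    rw [show e i + (j i + k i) = e i + j i + k i by ring, ← h2, mul_comm]
  have h3 : ((∏ i, ((e + j + k) i).choose (k i) : ℕ) : R) * ((∏ i, ((e + j) i).choose (j i) : ℕ) : R)
      = ((∏ i, ((j + k) i).choose (k i) : ℕ) : R) *
        ((∏ i, ((e + (j + k)) i).choose ((j + k) i) : ℕ) : R) := by
    rw [← Nat.cast_mul, ← Nat.cast_mul, ← Finset.prod_mul_distrib, ← Finset.prod_mul_distrib]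
    congr 1
    exact Finset.prod_congr rfl fun i _ => h1 i
  rw [mul_assoc, h3, add_assoc]
  ring

lemma support_hd (k : σ →₀ ℕ) (P : MvPolynomial σ R) {e : σ →₀ ℕ} (he : e ∈ (hd k P).support) :
    e + k ∈ P.support := by
  rw [mem_support_iff, coeff_hd] at he
  rw [mem_support_iff]
  intro h
  apply he
  rw [h, zero_mul]

/-- Hasse derivatives commute with translation. -/
theorem shift_hd (ξ : σ → R) (k : σ →₀ ℕ) (P : MvPolynomial σ R) :
    shift ξ (hd k P) = hd k (shift ξ P) := by
  ext e
  rw [coeff_shift, coeff_hd, coeff_shift, hd_hd, map_mul, map_natCast]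
  ring

lemma prod_choose_le (e k : σ →₀ ℕ) : ∏ i, (e i).choose (k i) ≤ 2 ^ (∑ i, e i) := by
  rw [← Finset.prod_pow_eq_pow_sum]
  exact Finset.prod_le_prod' fun i _ => Nat.choose_le_two_pow _ _

end fin

end Pool.Agent.Helper10.Sub
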