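import Pool.Agent.Helper10.Sub.TwoPlaces

/-!
# Number fields with two places in `S`: definitions
-/

set_option autoImplicit false

namespace Pool.Agent.Helper10.Sub

open MvPolynomial NumberField

/-- The field `ℂ`, as a `K`-algebra through the embedding `σ`. -/
def Emb {K : Type} [Field K] (_ : K →+* ℂ) : Type := ℂ

section emb
variable {K : Type} [Field K] (σ : K →+* ℂ)

noncomputable instance : NontriviallyNormedField (Emb σ) :=
  inferInstanceAs (NontriviallyNormedField ℂ)

instance : ProperSpace (Emb σ) := inferInstanceAs (ProperSpace ℂ)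

noncomputable instance : Algebra K (Emb σ) := σ.toAlgebra

lemma emb_norm (x : K) : ‖algebraMap K (Emb σ) x‖ = ‖σ x‖ := rfl

end emb

/-- The ring of `S`-integers. -/
def OS {K : Type} [Field K] [NumberField K] (S : Finset (FinitePlace K)) : Subring K where
  carrier := {x | ∀ v : FinitePlace K, v ∉ S → v x ≤ 1}
  mul_mem' := by
    intro x y hx hy v hv
    rw [map_mul]
    exact mul_le_one₀ (hx v hv) (apply_nonneg v y) (hy v hv)
  one_mem' := by
    intro v _
    rw [map_one]
  add_mem' := by
    intro x y hx hy v hv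
    exact (FinitePlace.add_le v x y).trans (max_le (hx v hv) (hy v hv))
  zero_mem' := by
    intro v _
    rw [map_zero]
    exact zero_le_one
  neg_mem' := by
    intro x hx v hv
    have h1 : v (-x) = v x := map_neg_eq_map v x
    rw [h1]
    exact hx v hv

lemma mem_OS {K : Type} [Field K] [NumberField K] {S : Finset (FinitePlace K)} {x : K} :
    x ∈ OS S ↔ ∀ v : FinitePlace K, v ∉ S → v x ≤ 1 := Iff.rfl

/-- A model of the local field at a finite place `v`: a finite extension `F` of `ℚ_p` such that
all embeddings of `K` over `p` have values in `F`; the embeddings in `G` are those over `v`, and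
they are conjugate to `σ₂`. -/
structure LocModel (K : Type) [Field K] [NumberField K] (v : FinitePlace K) where
  p : ℕ
  hp : Fact p.Prime
  F : Type
  nnf : NontriviallyNormedField F
  na : NormedAlgebra ℚ_[p] F
  fd : FiniteDimensional ℚ_[p] F
  cz : CharZero F
  ft : Fintype (K →+* F)
  span : Submodule.span ℚ_[p] {x : F | IsAlgebraic ℚ x} = ⊤
  card : Fintype.card (K →+* F) = Module.finrank ℚ K
  σ : K →+* F
  n : ℕ
  hn : n ≠ 0
  G : Finset (K →+* F)
  cardG : G.card = n
  hv : ∀ x : K, v x = ‖σ x‖ ^ n
  hG : ∀ σ' ∈ G, ∃ τ : F ≃+* F, (∀ z, ‖τ z‖ = ‖z‖) ∧ σ' = (τ : F →+* F).comp σ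
  hG' : ∀ σ', σ' ∉ G → ∃ (v' : FinitePlace K) (n' : ℕ), v' ≠ v ∧ n' ≠ 0 ∧
    ∀ x : K, v' x = ‖σ' x‖ ^ n'

section inst
variable {K : Type} [Field K] [NumberField K] {v : FinitePlace K} (M : LocModel K v)

instance : Fact M.p.Prime := M.hp
noncomputable instance : NontriviallyNormedField M.F := M.nnf
noncomputable instance : NormedAlgebra ℚ_[M.p] M.F := M.na
instance : FiniteDimensional ℚ_[M.p] M.F := M.fd
instance : CharZero M.F := M.cz
noncomputable instance : Fintype (K →+* M.F) := M.ft
instance : ProperSpace M.F := FiniteDimensional.proper ℚ_[M.p] M.F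
noncomputable instance : Algebra K M.F := M.σ.toAlgebra

lemma LocModel.algebraMap_apply (x : K) : algebraMap K M.F x = M.σ x := rfl

lemma LocModel.norm_alg (x : K) : ‖algebraMap K M.F x‖ ^ M.n = v x := (M.hv x).symm

end inst

end Pool.Agent.Helper10.Sub
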