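import Pool.Agent.Helper10.Sub.NonInf
import Pool.Agent.Helper10.Sub.KDefs
import Pool.Agent.Helper10.LV.Defs
import Pool.Agent.Helper94.SubSUBA
import Pool.Agent.Helper5.SubUNITS
import Pool.Agent.Helper65.Sub.SubREP
import Pool.Agent.Helper85.SubLOCM

/-!
# Number fields with at most two places: final assembly
-/

set_option autoImplicit false

namespace Pool.Agent.Helper10.Sub

open MvPolynomial NumberField
open scoped LinearAlgebra.Projectivization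

variable {K : Type} [Field K] [NumberField K] {N : ℕ}

/-- Upper bound for the value of a homogeneous polynomial at a finite place. -/
lemma finite_upper (f : MvPolynomial (Fin (N + 1)) K) :
    ∃ C : FinitePlace K → ℝ, (∀ v, 0 < C v) ∧ {v | C v ≠ 1}.Finite ∧
      ∀ x : Fin (N + 1) → K, ∀ v : FinitePlace K, (∀ j, v (x j) ≤ 1) → v (eval x f) ≤ C v := by
  classical
  refine ⟨fun v => ∏ e ∈ f.support, max 1 (v (coeff e f)), fun v => Finset.prod_pos fun e _ =>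
    lt_of_lt_of_le one_pos (le_max_left _ _), ?_, ?_⟩
  · have hfin : (⋃ e ∈ (f.support : Set (Fin (N + 1) →₀ ℕ)),
        {v : FinitePlace K | v (coeff e f) ≠ 1}).Finite := by
      apply Set.Finite.biUnion f.support.finite_toSet
      intro e he
      have := FinitePlace.hasFiniteMulSupport (K := K) (x := coeff e f)
        (mem_support_iff.mp (Finset.mem_coe.mp he))
      exact this
    apply hfin.subset
    intro v hv
    by_contra hcon
    apply hv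
    apply Finset.prod_eq_one
    intro e he
    simp only [Set.mem_iUnion, not_exists] at hcon
    have h1 : v (coeff e f) = 1 := by
      by_contra h
      exact hcon e (Finset.mem_coe.mpr he) h
    rw [h1, max_self]
  · intro x v hx
    have hsum : ∀ (s : Finset (Fin (N + 1) →₀ ℕ)) (g : (Fin (N + 1) →₀ ℕ) → K) (B : ℝ), 0 ≤ B →
        (∀ e ∈ s, v (g e) ≤ B) → v (∑ e ∈ s, g e) ≤ B := by
      intro s g B hB
      induction s using Finset.induction_on with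
      | empty => intro _; rw [Finset.sum_empty, map_zero]; exact hB
      | insert a s ha ih =>
        intro h
        rw [Finset.sum_insert ha]
        refine (FinitePlace.add_le v _ _).trans (max_le (h a (Finset.mem_insert_self _ _)) ?_)
        exact ih fun e he => h e (Finset.mem_insert_of_mem he)
    rw [eval_eq']
    apply hsum
    · exact Finset.prod_nonneg fun e _ => zero_le_one.trans (le_max_left _ _)
    · intro e he
      rw [map_mul, map_prod]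
      have h1 : ∏ i, v (x i ^ e i) ≤ 1 := by
        apply Finset.prod_le_one (fun i _ => apply_nonneg v _)
        intro i _
        rw [map_pow]
        exact pow_le_one₀ (apply_nonneg v _) (hx i)
      have h2 : max 1 (v (coeff e f)) ≤ ∏ e ∈ f.support, max 1 (v (coeff e f)) := by
        rw [← Finset.mul_prod_erase _ _ he]
        apply le_mul_of_one_le_right (zero_le_one.trans (le_max_left _ _))
        calc (1 : ℝ) = ∏ e ∈ f.support.erase e, (1 : ℝ) := by rw [Finset.prod_const_one]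
          _ ≤ _ := Finset.prod_le_prod (fun _ _ => zero_le_one) (fun i _ => le_max_left _ _)
      calc v (coeff e f) * ∏ i, v (x i ^ e i) ≤ v (coeff e f) * 1 :=
            mul_le_mul_of_nonneg_left h1 (apply_nonneg v _)
        _ = v (coeff e f) := mul_one _
        _ ≤ max 1 (v (coeff e f)) := le_max_right _ _
        _ ≤ _ := h2

/-- A set of points covered by finitely many points, images of the multiplicative group, and
planes. -/
def SmallP {K : Type} [Field K] {N : ℕ} (J₀ : Set (MvPolynomial (Fin (N + 1)) K))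
    (F : Fin 3 → MvPolynomial (Fin (N + 1)) K) (d : Fin 3 → ℕ)
    (T : Set (ℙ K (Fin (N + 1) → K))) : Prop :=
  ∃ (A : Set (ℙ K (Fin (N + 1) → K))) (𝒯 : Set ((Fin 3 → Fin (N + 1) → K) × (Fin 3 → ℤ)))
    (𝒬 : Set (Fin 3 → Fin (N + 1) → K)), A.Finite ∧ 𝒯.Finite ∧ 𝒬.Finite ∧
    (∀ t ∈ 𝒯, IsGm J₀ F d t.1 t.2) ∧ (∀ l ∈ 𝒬, IsPlane J₀ F d l) ∧
    ∀ Q ∈ T, Q ∈ A ∨
      (∃ t ∈ 𝒯, ∃ μ z : K, μ ≠ 0 ∧ z ≠ 0 ∧ Q.rep = μ • ∑ i, z ^ (t.2 i) • t.1 i) ∨
      ∃ l ∈ 𝒬, ∃ u : Fin 3 → K, (∀ i, u i ≠ 0) ∧ Q.rep = ∑ i, u i • l i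

omit [NumberField K] in
lemma smallP_of_small {J₀ : Set (MvPolynomial (Fin (N + 1)) K)}
    {F : Fin 3 → MvPolynomial (Fin (N + 1)) K} {d : Fin 3 → ℕ}
    {T : Set (ℙ K (Fin (N + 1) → K))} (c : ℙ K (Fin (N + 1) → K) → K) (hc : ∀ Q, c Q ≠ 0)
    (h : Small J₀ F d ((fun Q => c Q • Q.rep) '' T)) : SmallP J₀ F d T := by
  classical
  obtain ⟨A, 𝒯, 𝒬, hA, h𝒯, h𝒬, hT, hQ, h⟩ := h
  refine ⟨{Q | ∃ v ∈ A, ∃ μ : K, μ ≠ 0 ∧ Q.rep = μ • v}, 𝒯, 𝒬, ?_, h𝒯, h𝒬, hT, hQ, ?_⟩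
  · have h1 : {Q : ℙ K (Fin (N + 1) → K) | ∃ v ∈ A, ∃ μ : K, μ ≠ 0 ∧ Q.rep = μ • v} =
        ⋃ v ∈ A, {Q | ∃ μ : K, μ ≠ 0 ∧ Q.rep = μ • v} := by
      ext Q
      simp only [Set.mem_ofPred_eq, Set.mem_iUnion, exists_prop]
    rw [h1]
    apply hA.biUnion
    intro v _
    apply Set.Subsingleton.finite
    rintro Q ⟨μ, hμ, hQ⟩ Q' ⟨μ', hμ', hQ'⟩
    rw [← Projectivization.mk_rep Q, ← Projectivization.mk_rep Q',
      Projectivization.mk_eq_mk_iff']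
    refine ⟨μ * μ'⁻¹, ?_⟩
    rw [hQ, hQ', smul_smul, mul_assoc, inv_mul_cancel₀ hμ', mul_one]
  · intro Q hQT
    have hrep : Q.rep = (c Q)⁻¹ • (c Q • Q.rep) := by
      rw [smul_smul, inv_mul_cancel₀ (hc Q), one_smul]
    have hci : (c Q)⁻¹ ≠ 0 := inv_ne_zero (hc Q)
    rcases h _ ⟨Q, hQT, rfl⟩ with ⟨v, hv, μ, hμ, h⟩ | ⟨t, ht, μ, z, hμ, hz, h⟩ | ⟨l, hl, u, hu, h⟩
    · refine Or.inl ⟨v, hv, (c Q)⁻¹ * μ, mul_ne_zero hci hμ, ?_⟩
      rw [mul_smul, ← h]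
      exact hrep
    · refine Or.inr (Or.inl ⟨t, ht, (c Q)⁻¹ * μ, z, mul_ne_zero hci hμ, hz, ?_⟩)
      rw [mul_smul, ← h]
      exact hrep
    · refine Or.inr (Or.inr ⟨l, hl, fun i => (c Q)⁻¹ * u i, fun i => mul_ne_zero hci (hu i), ?_⟩)
      have h2 : ∑ i, ((c Q)⁻¹ * u i) • l i = (c Q)⁻¹ • ∑ i, u i • l i := by
        rw [Finset.smul_sum]
        exact Finset.sum_congr rfl fun i _ => by rw [mul_smul]
      rw [h2, ← h]
      exact hrep

/-- The set of representatives. -/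
theorem kmain {L₁ L₂ : Type} [NontriviallyNormedField L₁] [ProperSpace L₁]
    [NontriviallyNormedField L₂] [ProperSpace L₂] [Algebra K L₁] [Algebra K L₂]
    (Z : TwoPl K L₁ L₂) (hsub : Z.SubHyp) (S : Finset (FinitePlace K)) (hZO : Z.O = OS S)
    (hε0 : Z.ε ≠ 0)
    (hεu : ∀ v : FinitePlace K, v ∉ S → v Z.ε = 1)
    (hrep : ∀ c C : FinitePlace K → ℝ, (∀ v, 0 < c v) → {v | c v ≠ 1}.Finite →
      {v | C v ≠ 1}.Finite → ∃ 𝒞 : Finset K, (∀ x ∈ 𝒞, x ≠ 0) ∧ ∀ y : K, y ≠ 0 →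
        (∀ v : FinitePlace K, v ∉ S → c v ≤ v y ∧ v y ≤ C v) → ∃ x ∈ 𝒞, ∃ q : ℤ, y = x * Z.ε ^ q)
    (J₀ : Set (MvPolynomial (Fin (N + 1)) K)) (hJ₀ : ∀ f ∈ J₀, ∃ e, f.IsHomogeneous e)
    (F : Fin 3 → MvPolynomial (Fin (N + 1)) K) (d : Fin 3 → ℕ) (hd : ∀ i, 1 ≤ d i)
    (hF : ∀ i, (F i).IsHomogeneous (d i))
    {Ω : Type} [Field Ω] [IsAlgClosed Ω] [Algebra K Ω]
    (hempty : ∀ A : Fin (N + 1) → Ω, OnV J₀ A → (∀ i, aeval A (F i) = 0) → A = 0)
    (hred : ∀ i j, i ≠ j → ∀ A : Fin (N + 1) → Ω, A ≠ 0 → OnV (J₀ ∪ {F i, F j}) A →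
      Jac (J₀ ∪ {F i, F j}) A)
    (T : Set (ℙ K (Fin (N + 1) → K)))
    (hTX : ∀ Q ∈ T, ∀ f ∈ J₀, eval Q.rep f = 0)
    (hT : LV.IntegralSet S F d T) : SmallP J₀ F d T := by
  classical
  obtain ⟨c₁, hc₁, hc₁f, hT⟩ := hT
  obtain ⟨c₂, hc₂, hc₂f, hμ⟩ := Pool.Agent.Helper65.Sub.repK K (Fin (N + 1))
  have hμ' : ∀ Q : ℙ K (Fin (N + 1) → K), ∃ μ : K, μ ≠ 0 ∧ ∀ v : FinitePlace K,
      c₂ v ≤ (⨆ j, v (μ * Q.rep j)) ∧ (⨆ j, v (μ * Q.rep j)) ≤ 1 :=
    fun Q => hμ Q.rep Q.rep_nonzero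
  choose μ hμ0 hμ1 using hμ'
  choose C₁ hC₁ hC₁f hC₁' using fun i => finite_upper (F i)
  -- the finite sets of constants
  have hfr : ∀ i, ∃ 𝒞 : Finset K, (∀ x ∈ 𝒞, x ≠ 0) ∧ ∀ y : K, y ≠ 0 →
      (∀ v : FinitePlace K, v ∉ S → c₁ v * c₂ v ^ d i ≤ v y ∧ v y ≤ C₁ i v) →
      ∃ x ∈ 𝒞, ∃ q : ℤ, y = x * Z.ε ^ q := by
    intro i
    apply hrep
    · intro v
      have := hc₁ v
      have := hc₂ v
      positivity
    · apply (hc₁f.union hc₂f).subset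
      intro v hv
      by_contra h
      simp only [Set.mem_union, Set.mem_ofPred_eq, not_or, not_not] at h
      apply hv
      rw [h.1, h.2, one_pow, one_mul]
    · exact hC₁f i
  choose 𝒞 h𝒞 h𝒞' using hfr
  set 𝒟 : Finset K := Finset.univ.biUnion fun i : Fin 3 =>
    ((𝒞 i) ×ˢ (Finset.range (d i))).image fun p => p.1 * Z.ε ^ (p.2 : ℤ) with h𝒟
  -- scaling
  set b : ℝ := ‖algebraMap K L₂ Z.ε‖⁻¹ with hb
  have hεL₂ : 0 < ‖algebraMap K L₂ Z.ε‖ := norm_pos_iff.mpr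
    (by rw [Ne, map_eq_zero_iff _ (algebraMap K L₂).injective]; exact hε0)
  have hεlt : ‖algebraMap K L₂ Z.ε‖ < 1 := by
    by_contra h
    push Not at h
    have h1 : 1 < ‖algebraMap K L₁ Z.ε‖ ^ Z.n₁ := one_lt_pow₀ Z.hε Z.hn₁
    have h2 : 1 ≤ ‖algebraMap K L₂ Z.ε‖ ^ Z.n₂ := one_le_pow₀ h
    have h3 := Z.pf
    nlinarith
  have hb1 : 1 < b := (one_lt_inv₀ hεL₂).mpr hεlt
  have hk' : ∀ Q : ℙ K (Fin (N + 1) → K), ∃ k : ℤ,
      b ^ k ≤ nrm L₂ (μ Q • Q.rep) ∧ nrm L₂ (μ Q • Q.rep) < b ^ (k + 1) := by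
    intro Q
    have h1 : 0 < nrm L₂ (μ Q • Q.rep) := nrm_pos (smul_ne_zero (hμ0 Q) Q.rep_nonzero)
    obtain ⟨k, hk⟩ := exists_mem_Ico_zpow h1 hb1
    exact ⟨k, hk.1, hk.2⟩
  choose k hk₁ hk₂ using hk'
  set X : ℙ K (Fin (N + 1) → K) → Fin (N + 1) → K := fun Q => (Z.ε ^ (k Q) * μ Q) • Q.rep with hX
  have hXne : ∀ Q, Z.ε ^ (k Q) * μ Q ≠ 0 := fun Q => mul_ne_zero (zpow_ne_zero _ hε0) (hμ0 Q)
  have hevX : ∀ (Q : ℙ K (Fin (N + 1) → K)) (G : MvPolynomial (Fin (N + 1)) K) (e : ℕ),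
      G.IsHomogeneous e → eval (X Q) G = (Z.ε ^ (k Q) * μ Q) ^ e * eval Q.rep G := by
    intro Q G e hG
    exact hG.eval_smul' _ _
  have hvX : ∀ Q, ∀ v : FinitePlace K, v ∉ S → ∀ j, v (X Q j) ≤ 1 := by
    intro Q v hv j
    have h1 : v (X Q j) = v (μ Q * Q.rep j) := by
      simp only [hX, Pi.smul_apply, smul_eq_mul, map_mul, map_zpow₀, hεu v hv, one_zpow, one_mul]
    rw [h1]
    exact (le_ciSup (f := fun j => v (μ Q * Q.rep j)) (Set.finite_range _).bddAbove j).trans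
      (hμ1 Q v).2
  apply smallP_of_small (fun Q => Z.ε ^ (k Q) * μ Q) hXne
  change Small J₀ F d (X '' T)
  refine nonInf Z hsub J₀ hJ₀ F d hd hF hempty hred (X '' T) ?_ ?_ 𝒟 ?_ ?_ b⁻¹
    (inv_pos.mpr (by linarith)) ?_
  · rintro _ ⟨Q, hQ, rfl⟩ j
    rw [hZO, mem_OS]
    exact fun v hv => hvX Q v hv j
  · rintro _ ⟨Q, hQ, rfl⟩ f hf
    obtain ⟨e, he⟩ := hJ₀ f hf
    rw [hevX Q f e he, hTX Q hQ f hf, mul_zero]
  · intro x hx
    rw [h𝒟, Finset.mem_biUnion] at hx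
    obtain ⟨i, -, hx⟩ := hx
    rw [Finset.mem_image] at hx
    obtain ⟨p, hp, rfl⟩ := hx
    exact mul_ne_zero (h𝒞 i _ (Finset.mem_product.mp hp).1) (zpow_ne_zero _ hε0)
  · rintro _ ⟨Q, hQ, rfl⟩ i
    obtain ⟨hne, hlow⟩ := hT Q hQ i
    have h1 : eval (μ Q • Q.rep) (F i) = μ Q ^ d i * eval Q.rep (F i) := (hF i).eval_smul' _ _
    obtain ⟨x, hx, q, hq⟩ := h𝒞' i (eval (μ Q • Q.rep) (F i))
      (by rw [h1]; exact mul_ne_zero (pow_ne_zero _ (hμ0 Q)) hne) (by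
      intro v hv
      constructor
      · rw [h1, map_mul, map_pow]
        have h2 := hlow v hv
        have h3 : (⨆ j, v (μ Q * Q.rep j)) = v (μ Q) * ⨆ j, v (Q.rep j) := by
          simp only [map_mul]
          rw [Real.mul_iSup_of_nonneg (apply_nonneg v _)]
        calc c₁ v * c₂ v ^ d i ≤ c₁ v * (⨆ j, v (μ Q * Q.rep j)) ^ d i := by
              apply mul_le_mul_of_nonneg_left _ (hc₁ v).le
              exact pow_le_pow_left₀ (hc₂ v).le (hμ1 Q v).1 _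
          _ = v (μ Q) ^ d i * (c₁ v * (⨆ j, v (Q.rep j)) ^ d i) := by
              rw [h3, mul_pow]; ring
          _ ≤ v (μ Q) ^ d i * v (eval Q.rep (F i)) :=
              mul_le_mul_of_nonneg_left h2 (pow_nonneg (apply_nonneg v _) _)
      · apply hC₁' i _ v
        intro j
        exact (le_ciSup (f := fun j => v (μ Q * Q.rep j)) (Set.finite_range _).bddAbove j).trans
          (hμ1 Q v).2)
    have hdi : 0 < (d i : ℤ) := by have := hd i; omega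
    refine ⟨x * Z.ε ^ (q % (d i : ℤ)), ?_, k Q + q / (d i : ℤ), ?_⟩
    · rw [h𝒟, Finset.mem_biUnion]
      refine ⟨i, Finset.mem_univ _, ?_⟩
      rw [Finset.mem_image]
      refine ⟨(x, (q % (d i : ℤ)).toNat), Finset.mem_product.mpr ⟨hx, ?_⟩, ?_⟩
      · rw [Finset.mem_range]
        have h4 := Int.emod_lt_of_pos q hdi
        have h5 := Int.emod_nonneg q hdi.ne'
        omega
      · have h5 := Int.emod_nonneg q hdi.ne'
        rw [Int.toNat_of_nonneg h5]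
    · have h6 : eval (X Q) (F i) = (Z.ε ^ (k Q)) ^ d i * eval (μ Q • Q.rep) (F i) := by
        rw [hevX Q (F i) (d i) (hF i), h1, mul_pow, mul_assoc]
      rw [h6, hq]
      have h7 : Z.ε ^ q = Z.ε ^ (q % (d i : ℤ)) * (Z.ε ^ (q / (d i : ℤ))) ^ d i := by
        rw [← zpow_natCast, ← zpow_mul, ← zpow_add₀ hε0]
        congr 1
        have := Int.emod_add_mul_ediv q (d i)
        rw [mul_comm] at this
        exact this.symm
      rw [h7, zpow_add₀ hε0, mul_pow]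
      ring
  · rintro _ ⟨Q, hQ, rfl⟩
    have h1 : nrm L₂ (X Q) = ‖algebraMap K L₂ Z.ε‖ ^ (k Q) * nrm L₂ (μ Q • Q.rep) := by
      have h2 : (fun j => algebraMap K L₂ (X Q j)) =
          (algebraMap K L₂ (Z.ε ^ (k Q))) • fun j => algebraMap K L₂ ((μ Q • Q.rep) j) := by
        funext j
        simp only [hX, Pi.smul_apply, smul_eq_mul, map_mul, mul_assoc]
      rw [nrm, h2, norm_smul, map_zpow₀, norm_zpow]
      rfl
    have h3 : ‖algebraMap K L₂ Z.ε‖ ^ (k Q) = (b ^ (k Q))⁻¹ := by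
      rw [hb, inv_zpow, inv_inv]
    have hb0 : 0 < b := by linarith
    have hbk : 0 < b ^ (k Q) := zpow_pos hb0 _
    rw [h1, h3, inv_inv b]
    constructor
    · calc b⁻¹ ≤ 1 := inv_le_one_of_one_le₀ hb1.le
        _ = (b ^ (k Q))⁻¹ * b ^ (k Q) := (inv_mul_cancel₀ hbk.ne').symm
        _ ≤ _ := mul_le_mul_of_nonneg_left (hk₁ Q) (inv_nonneg.mpr hbk.le)
    · calc (b ^ (k Q))⁻¹ * nrm L₂ (μ Q • Q.rep) ≤ (b ^ (k Q))⁻¹ * b ^ (k Q + 1) :=
            mul_le_mul_of_nonneg_left (hk₂ Q).le (inv_nonneg.mpr hbk.le)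
        _ = b := by
            rw [zpow_add₀ hb0.ne', zpow_one, ← mul_assoc, inv_mul_cancel₀ hbk.ne', one_mul]

/-- Exactly two places. -/
theorem kmain2 (S : Finset (FinitePlace K)) (hS : Fintype.card (InfinitePlace K) + S.card = 2)
    (J₀ : Set (MvPolynomial (Fin (N + 1)) K)) (hJ₀ : ∀ f ∈ J₀, ∃ e, f.IsHomogeneous e)
    (F : Fin 3 → MvPolynomial (Fin (N + 1)) K) (d : Fin 3 → ℕ) (hd : ∀ i, 1 ≤ d i)
    (hF : ∀ i, (F i).IsHomogeneous (d i))
    {Ω : Type} [Field Ω] [IsAlgClosed Ω] [Algebra K Ω]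
    (hempty : ∀ A : Fin (N + 1) → Ω, OnV J₀ A → (∀ i, aeval A (F i) = 0) → A = 0)
    (hred : ∀ i j, i ≠ j → ∀ A : Fin (N + 1) → Ω, A ≠ 0 → OnV (J₀ ∪ {F i, F j}) A →
      Jac (J₀ ∪ {F i, F j}) A)
    (T : Set (ℙ K (Fin (N + 1) → K)))
    (hTX : ∀ Q ∈ T, ∀ f ∈ J₀, eval Q.rep f = 0)
    (hT : LV.IntegralSet S F d T) : SmallP J₀ F d T := by
  classical
  have hpos : 0 < Fintype.card (InfinitePlace K) := Fintype.card_pos
  obtain ⟨w₁⟩ : Nonempty (InfinitePlace K) := inferInstance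
  obtain ⟨ε, hε0, hεu, hε1, hrep⟩ := Pool.Agent.Helper5.Sub.unitsK K S hS w₁
  rcases Nat.lt_or_ge 1 (Fintype.card (InfinitePlace K)) with h1 | h1
  · -- two infinite places
    have hcard : Fintype.card (InfinitePlace K) = 2 := by omega
    have hS0 : S = ∅ := by rw [← Finset.card_eq_zero]; omega
    subst hS0
    obtain ⟨w₂, hne, hw⟩ : ∃ w₂ : InfinitePlace K, w₁ ≠ w₂ ∧ ∀ w, w = w₁ ∨ w = w₂ := by
      have h2 : (Finset.univ : Finset (InfinitePlace K)).card = 2 := by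
        rw [Finset.card_univ]; exact hcard
      obtain ⟨a, b, hab, hu⟩ := Finset.card_eq_two.mp h2
      have hmem : ∀ w : InfinitePlace K, w = a ∨ w = b := by
        intro w
        have : w ∈ (Finset.univ : Finset (InfinitePlace K)) := Finset.mem_univ _
        rw [hu] at this
        simpa using this
      rcases hmem w₁ with rfl | rfl
      · exact ⟨b, hab, hmem⟩
      · exact ⟨a, hab.symm, fun w => (hmem w).symm⟩
    obtain ⟨Z, hZO, -, -, hZε, hsub⟩ := Pool.Agent.Helper94.Sub.exists_twoA K w₁ w₂ hw hne ε hε0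
      (fun v => hεu v (Finset.notMem_empty v)) hε1
    subst hZε
    exact kmain Z hsub ∅ hZO hε0 hεu hrep J₀ hJ₀ F d hd hF hempty hred T hTX hT
  · -- one infinite place
    have hcard : Fintype.card (InfinitePlace K) = 1 := by omega
    have hSc : S.card = 1 := by omega
    obtain ⟨v, rfl⟩ := Finset.card_eq_one.mp hSc
    have hw : ∀ w, w = w₁ := by
      obtain ⟨a, ha⟩ := Fintype.card_eq_one_iff.mp hcard
      intro w
      rw [ha w, ha w₁]
    obtain ⟨M⟩ := Pool.Agent.Helper85.Sub.locModel K v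
    obtain ⟨Z, hZO, -, -, hZε, hsub⟩ := Pool.Agent.Helper94.Sub.exists_twoB K v M w₁ hw ε hε0
      (fun v' hv' => hεu v' (by simpa using hv')) hε1
    subst hZε
    exact kmain Z hsub {v} hZO hε0 hεu hrep J₀ hJ₀ F d hd hF hempty hred T hTX hT

lemma exists_finitePlace (K : Type) [Field K] [NumberField K] : Nonempty (FinitePlace K) := by
  obtain ⟨M, hM⟩ := Ideal.exists_maximal (𝓞 K)
  have hne : M ≠ ⊥ := Ring.ne_bot_of_isMaximal_of_not_isField hM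
    (RingOfIntegers.not_isField K)
  exact ⟨FinitePlace.mk ⟨M, hM.isPrime, hne⟩⟩

/-- At most two places. -/
theorem kmain3 (S : Finset (FinitePlace K)) (hS : Fintype.card (InfinitePlace K) + S.card ≤ 2)
    (J₀ : Set (MvPolynomial (Fin (N + 1)) K)) (hJ₀ : ∀ f ∈ J₀, ∃ e, f.IsHomogeneous e)
    (F : Fin 3 → MvPolynomial (Fin (N + 1)) K) (d : Fin 3 → ℕ) (hd : ∀ i, 1 ≤ d i)
    (hF : ∀ i, (F i).IsHomogeneous (d i))
    {Ω : Type} [Field Ω] [IsAlgClosed Ω] [Algebra K Ω]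
    (hempty : ∀ A : Fin (N + 1) → Ω, OnV J₀ A → (∀ i, aeval A (F i) = 0) → A = 0)
    (hred : ∀ i j, i ≠ j → ∀ A : Fin (N + 1) → Ω, A ≠ 0 → OnV (J₀ ∪ {F i, F j}) A →
      Jac (J₀ ∪ {F i, F j}) A)
    (T : Set (ℙ K (Fin (N + 1) → K)))
    (hTX : ∀ Q ∈ T, ∀ f ∈ J₀, eval Q.rep f = 0)
    (hT : LV.IntegralSet S F d T) : SmallP J₀ F d T := by
  classical
  have hpos : 0 < Fintype.card (InfinitePlace K) := Fintype.card_pos
  rcases Nat.lt_or_ge (Fintype.card (InfinitePlace K) + S.card) 2 with h | h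
  · obtain ⟨v⟩ := exists_finitePlace K
    have hS0 : S = ∅ := by rw [← Finset.card_eq_zero]; omega
    subst hS0
    refine kmain2 {v} (by rw [Finset.card_singleton]; simp only [Finset.card_empty] at h; omega)
      J₀ hJ₀ F d hd hF hempty hred T hTX ?_
    obtain ⟨c, hc, hcf, hT⟩ := hT
    exact ⟨c, hc, hcf, fun Q hQ i => ⟨(hT Q hQ i).1, fun v' _ =>
      (hT Q hQ i).2 v' (Finset.notMem_empty v')⟩⟩
  · exact kmain2 S (by omega) J₀ hJ₀ F d hd hF hempty hred T hTX hT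

end Pool.Agent.Helper10.Sub
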