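import Mathlib

/-!
# Numerical estimates for the products of linear forms
-/

set_option autoImplicit false

namespace Pool.Agent.Helper10.Sub

/-- The numerical constraints at a point. -/
structure Num (C X Ba Bb Bc : ℝ) : Prop where
  hC : 1 ≤ C
  hCX : C ≤ X
  a0 : 0 < Ba
  b0 : 0 < Bb
  c0 : 0 < Bc
  a1 : X ≤ C * Ba
  a2 : Ba ≤ C * X
  b1 : 1 ≤ C * Bb
  b2 : Bb ≤ C
  c1 : 1 ≤ C * Bc
  c2 : Bc ≤ C * X

namespace Num
variable {C X Ba Bb Bc : ℝ} (h : Num C X Ba Bb Bc)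
include h

lemma X1 : 1 ≤ X := h.hC.trans h.hCX
lemma X0 : 0 < X := lt_of_lt_of_le one_pos h.X1
lemma C0 : 0 < C := lt_of_lt_of_le one_pos h.hC

lemma powC (n : ℕ) : 1 ≤ C ^ n := one_le_pow₀ h.hC
lemma powX (n : ℕ) : 1 ≤ X ^ n := one_le_pow₀ h.X1

lemma two {z : ℝ} (h1 : 1 ≤ z * X ^ 4) (h2 : z ≤ X ^ 4) :
    X ^ (-(4 : ℝ)) ≤ z ∧ z ≤ X ^ (4 : ℝ) := by
  have hX := h.X0
  have e1 : X ^ (4 : ℝ) = X ^ 4 := by
    rw [← Real.rpow_natCast]; norm_num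
  have e2 : X ^ (-(4 : ℝ)) = (X ^ 4)⁻¹ := by
    rw [Real.rpow_neg hX.le, e1]
  rw [e1, e2]
  refine ⟨?_, h2⟩
  rw [inv_le_iff_one_le_mul₀ (by positivity)]
  exact h1

/-- products of nonnegative numbers are compared with powers of `X` -/
lemma ex : Ba⁻¹ ≤ C / X := by
  rw [inv_le_comm₀ h.a0 (div_pos h.C0 h.X0), inv_div, div_le_iff₀ h.C0]
  linarith [h.a1, mul_comm C Ba]

lemma two_Bb : X ^ (-(4 : ℝ)) ≤ Bb ∧ Bb ≤ X ^ (4 : ℝ) := by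
  have hX := h.X0
  have hX1 := h.X1
  have hb := h.b0
  have h3 : X ≤ X ^ 4 := le_self_pow₀ hX1 (by norm_num)
  apply h.two
  · calc 1 ≤ C * Bb := h.b1
      _ ≤ X * Bb := mul_le_mul_of_nonneg_right h.hCX hb.le
      _ ≤ X ^ 4 * Bb := mul_le_mul_of_nonneg_right h3 hb.le
      _ = Bb * X ^ 4 := mul_comm _ _
  · exact (h.b2.trans h.hCX).trans h3

lemma two_Bc : X ^ (-(4 : ℝ)) ≤ Bc ∧ Bc ≤ X ^ (4 : ℝ) := by
  have hX := h.X0
  have hX1 := h.X1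
  have hc := h.c0
  have h3 : X ≤ X ^ 4 := le_self_pow₀ hX1 (by norm_num)
  have h4 : X ^ 2 ≤ X ^ 4 := pow_le_pow_right₀ hX1 (by norm_num)
  apply h.two
  · calc 1 ≤ C * Bc := h.c1
      _ ≤ X * Bc := mul_le_mul_of_nonneg_right h.hCX hc.le
      _ ≤ X ^ 4 * Bc := mul_le_mul_of_nonneg_right h3 hc.le
      _ = Bc * X ^ 4 := mul_comm _ _
  · calc Bc ≤ C * X := h.c2
      _ ≤ X * X := mul_le_mul_of_nonneg_right h.hCX hX.le
      _ = X ^ 2 := (sq X).symm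
      _ ≤ X ^ 4 := h4

lemma two_CX : X ^ (-(4 : ℝ)) ≤ C * X ∧ C * X ≤ X ^ (4 : ℝ) := by
  have hX := h.X0
  have hX1 := h.X1
  have hC := h.C0
  have h4 : X ^ 2 ≤ X ^ 4 := pow_le_pow_right₀ hX1 (by norm_num)
  apply h.two
  · calc (1 : ℝ) = 1 * 1 * 1 := by norm_num
      _ ≤ C * X * X ^ 4 := by
        apply mul_le_mul (mul_le_mul h.hC hX1 zero_le_one hC.le) (h.powX 4) zero_le_one
          (by positivity)
  · calc C * X ≤ X * X := mul_le_mul_of_nonneg_right h.hCX hX.le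
      _ = X ^ 2 := (sq X).symm
      _ ≤ X ^ 4 := h4

lemma g1_le : C * Bc ^ 2 / X ≤ C ^ 3 * X := by
  have hX := h.X0
  have hC := h.C0
  have hc := h.c0
  rw [div_le_iff₀ hX]
  calc C * Bc ^ 2 ≤ C * (C * X) ^ 2 := by
        apply mul_le_mul_of_nonneg_left _ hC.le
        exact pow_le_pow_left₀ hc.le h.c2 2
    _ = C ^ 3 * X * X := by ring

lemma two_g1 : X ^ (-(4 : ℝ)) ≤ C * Bc ^ 2 / X ∧ C * Bc ^ 2 / X ≤ X ^ (4 : ℝ) := by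
  have hX := h.X0
  have hX1 := h.X1
  have hC := h.C0
  have hc := h.c0
  apply h.two
  · have h5 : C * Bc ^ 2 / X * X ^ 4 = (C * Bc) ^ 2 * (X ^ 3 / C) := by
      field_simp
    rw [h5]
    have h6 : 1 ≤ (C * Bc) ^ 2 := one_le_pow₀ h.c1
    have h7 : 1 ≤ X ^ 3 / C := by
      rw [one_le_div hC]
      exact h.hCX.trans (le_self_pow₀ hX1 (by norm_num))
    nlinarith
  · refine h.g1_le.trans ?_
    calc C ^ 3 * X ≤ X ^ 3 * X := by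
          apply mul_le_mul_of_nonneg_right _ hX.le
          exact pow_le_pow_left₀ hC.le h.hCX 3
      _ = X ^ 4 := by ring

lemma two_Bai : X ^ (-(4 : ℝ)) ≤ Ba⁻¹ ∧ Ba⁻¹ ≤ X ^ (4 : ℝ) := by
  have hX := h.X0
  have hX1 := h.X1
  have hC := h.C0
  have ha := h.a0
  apply h.two
  · rw [inv_mul_eq_div, one_le_div ha]
    calc Ba ≤ C * X := h.a2
      _ ≤ X * X := mul_le_mul_of_nonneg_right h.hCX hX.le
      _ = X ^ 2 := (sq X).symm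
      _ ≤ X ^ 4 := pow_le_pow_right₀ hX1 (by norm_num)
  · refine h.ex.trans ?_
    refine ((div_le_one hX).mpr h.hCX).trans (h.powX 4)

lemma Bci_le : Bc⁻¹ ≤ C := by
  rw [inv_le_iff_one_le_mul₀ h.c0]
  exact h.c1

lemma two_Bci : X ^ (-(4 : ℝ)) ≤ Bc⁻¹ ∧ Bc⁻¹ ≤ X ^ (4 : ℝ) := by
  have hX := h.X0
  have hX1 := h.X1
  have hC := h.C0
  have hc := h.c0
  apply h.two
  · rw [inv_mul_eq_div, one_le_div hc]
    calc Bc ≤ C * X := h.c2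
      _ ≤ X * X := mul_le_mul_of_nonneg_right h.hCX hX.le
      _ = X ^ 2 := (sq X).symm
      _ ≤ X ^ 4 := pow_le_pow_right₀ hX1 (by norm_num)
  · exact (h.Bci_le.trans h.hCX).trans (le_self_pow₀ hX1 (by norm_num))

lemma two_C : X ^ (-(4 : ℝ)) ≤ C ∧ C ≤ X ^ (4 : ℝ) := by
  have hX := h.X0
  have hX1 := h.X1
  have hC := h.C0
  apply h.two
  · calc (1 : ℝ) = 1 * 1 := by norm_num
      _ ≤ C * X ^ 4 := mul_le_mul h.hC (h.powX 4) zero_le_one hC.le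
  · exact h.hCX.trans (le_self_pow₀ hX1 (by norm_num))

lemma g2_le : C / Bc ^ 2 ≤ C ^ 3 := by
  have hC := h.C0
  have hc := h.c0
  rw [div_le_iff₀ (by positivity)]
  have h6 : 1 ≤ (C * Bc) ^ 2 := one_le_pow₀ h.c1
  nlinarith

lemma two_g2 : X ^ (-(4 : ℝ)) ≤ C / Bc ^ 2 ∧ C / Bc ^ 2 ≤ X ^ (4 : ℝ) := by
  have hX := h.X0
  have hX1 := h.X1
  have hC := h.C0
  have hc := h.c0
  apply h.two
  · rw [div_mul_eq_mul_div, one_le_div (by positivity)]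
    calc Bc ^ 2 ≤ (C * X) ^ 2 := pow_le_pow_left₀ hc.le h.c2 2
      _ = C * (C * X ^ 2) := by ring
      _ ≤ C * (X * X ^ 2) := by
        apply mul_le_mul_of_nonneg_left _ hC.le
        exact mul_le_mul_of_nonneg_right h.hCX (by positivity)
      _ = C * X ^ 3 := by ring
      _ ≤ C * X ^ 4 := by
        apply mul_le_mul_of_nonneg_left _ hC.le
        exact pow_le_pow_right₀ hX1 (by norm_num)
  · refine h.g2_le.trans ?_
    exact (pow_le_pow_left₀ hC.le h.hCX 3).trans (pow_le_pow_right₀ hX1 (by norm_num))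

lemma Xpow_le (m : ℕ) : (X⁻¹) ^ (m + 1) ≤ X⁻¹ := by
  have hX := h.X0
  have h1 : X⁻¹ ≤ 1 := inv_le_one_of_one_le₀ h.X1
  exact pow_le_of_le_one (by positivity) h1 (by omega)

/-- No proportionality. -/
lemma prod_c (m : ℕ) :
    (Bb * Bc) * ((C ^ 3 * X) * (C * Bc ^ 2 / X) ^ (m + 1)) *
      ((Ba⁻¹ * Bc⁻¹) * (C ^ 3 * (C / Bc ^ 2) ^ (m + 1))) ≤
    C ^ 8 * (C ^ 2) ^ (m + 1) * X⁻¹ := by
  have hX := h.X0
  have hC := h.C0
  have ha := h.a0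
  have hb := h.b0
  have hc := h.c0
  have e : (Bb * Bc) * ((C ^ 3 * X) * (C * Bc ^ 2 / X) ^ (m + 1)) *
      ((Ba⁻¹ * Bc⁻¹) * (C ^ 3 * (C / Bc ^ 2) ^ (m + 1))) =
      Bb * Ba⁻¹ * X * C ^ 6 * (C ^ 2) ^ (m + 1) * (X⁻¹) ^ (m + 1) := by
    have e1 : (C * Bc ^ 2 / X) ^ (m + 1) * (C / Bc ^ 2) ^ (m + 1) =
        (C ^ 2) ^ (m + 1) * (X⁻¹) ^ (m + 1) := by
      rw [← mul_pow, ← mul_pow]
      congr 1
      field_simp
    have e2 : Bc * Bc⁻¹ = 1 := mul_inv_cancel₀ hc.ne'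
    calc (Bb * Bc) * ((C ^ 3 * X) * (C * Bc ^ 2 / X) ^ (m + 1)) *
      ((Ba⁻¹ * Bc⁻¹) * (C ^ 3 * (C / Bc ^ 2) ^ (m + 1))) =
        Bb * Ba⁻¹ * X * C ^ 6 * (Bc * Bc⁻¹) *
        ((C * Bc ^ 2 / X) ^ (m + 1) * (C / Bc ^ 2) ^ (m + 1)) := by ring
      _ = _ := by rw [e1, e2]; ring
  rw [e]
  have h1 : Bb * Ba⁻¹ * X ≤ C ^ 2 := by
    calc Bb * Ba⁻¹ * X ≤ C * (C / X) * X := by
          apply mul_le_mul_of_nonneg_right _ hX.le
          exact mul_le_mul h.b2 h.ex (by positivity) hC.le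
      _ = C ^ 2 := by field_simp
  calc Bb * Ba⁻¹ * X * C ^ 6 * (C ^ 2) ^ (m + 1) * (X⁻¹) ^ (m + 1)
      ≤ C ^ 2 * C ^ 6 * (C ^ 2) ^ (m + 1) * X⁻¹ := by
        apply mul_le_mul _ (h.Xpow_le m) (by positivity) (by positivity)
        apply mul_le_mul_of_nonneg_right _ (by positivity)
        exact mul_le_mul_of_nonneg_right h1 (by positivity)
    _ = _ := by ring

/-- `w_c` proportional to `w_b`. -/
lemma prod_a (hBc : Bc ≤ C) (m : ℕ) :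
    Bb * ((C ^ 3 * X) * (C * Bc ^ 2 / X) ^ (m + 1)) * (Ba⁻¹ * (C ^ 3 * (C ^ 3) ^ (m + 1))) ≤
    C ^ 8 * (C ^ 6) ^ (m + 1) * X⁻¹ := by
  have hX := h.X0
  have hC := h.C0
  have ha := h.a0
  have hb := h.b0
  have hc := h.c0
  have h2 : C * Bc ^ 2 / X ≤ C ^ 3 * X⁻¹ := by
    rw [div_eq_mul_inv]
    apply mul_le_mul_of_nonneg_right _ (by positivity)
    calc C * Bc ^ 2 ≤ C * C ^ 2 :=
          mul_le_mul_of_nonneg_left (pow_le_pow_left₀ hc.le hBc 2) hC.le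
      _ = C ^ 3 := by ring
  have h3 : (C * Bc ^ 2 / X) ^ (m + 1) ≤ (C ^ 3) ^ (m + 1) * X⁻¹ := by
    calc (C * Bc ^ 2 / X) ^ (m + 1) ≤ (C ^ 3 * X⁻¹) ^ (m + 1) :=
          pow_le_pow_left₀ (by positivity) h2 _
      _ = (C ^ 3) ^ (m + 1) * (X⁻¹) ^ (m + 1) := mul_pow _ _ _
      _ ≤ _ := mul_le_mul_of_nonneg_left (h.Xpow_le m) (by positivity)
  have h1 : Bb * Ba⁻¹ * X ≤ C ^ 2 := by
    calc Bb * Ba⁻¹ * X ≤ C * (C / X) * X := by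
          apply mul_le_mul_of_nonneg_right _ hX.le
          exact mul_le_mul h.b2 h.ex (by positivity) hC.le
      _ = C ^ 2 := by field_simp
  calc Bb * ((C ^ 3 * X) * (C * Bc ^ 2 / X) ^ (m + 1)) * (Ba⁻¹ * (C ^ 3 * (C ^ 3) ^ (m + 1)))
      = (Bb * Ba⁻¹ * X) * (C * Bc ^ 2 / X) ^ (m + 1) * (C ^ 6 * (C ^ 3) ^ (m + 1)) := by ring
    _ ≤ C ^ 2 * ((C ^ 3) ^ (m + 1) * X⁻¹) * (C ^ 6 * (C ^ 3) ^ (m + 1)) := by
        apply mul_le_mul_of_nonneg_right _ (by positivity)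
        exact mul_le_mul h1 h3 (by positivity) (by positivity)
    _ = C ^ 8 * ((C ^ 3) ^ (m + 1) * (C ^ 3) ^ (m + 1)) * X⁻¹ := by ring
    _ = _ := by rw [← mul_pow]; ring

/-- `w_c` proportional to `w_a`. -/
lemma prod_b (hBc : X ≤ C * Bc) (m : ℕ) :
    Bb * ((C ^ 3 * X) * (C ^ 3 * X) ^ (m + 1)) * (Ba⁻¹ * (C ^ 3 * (C / Bc ^ 2) ^ (m + 1))) ≤
    C ^ 8 * (C ^ 6) ^ (m + 1) * X⁻¹ := by
  have hX := h.X0
  have hC := h.C0
  have ha := h.a0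
  have hb := h.b0
  have hc := h.c0
  have h2 : C / Bc ^ 2 ≤ C ^ 3 * (X⁻¹ * X⁻¹) := by
    rw [div_le_iff₀ (by positivity)]
    have h5 : X ^ 2 ≤ (C * Bc) ^ 2 := pow_le_pow_left₀ hX.le hBc 2
    calc C = C * X ^ 2 * (X⁻¹ * X⁻¹) := by field_simp
      _ ≤ C * (C * Bc) ^ 2 * (X⁻¹ * X⁻¹) := by
        apply mul_le_mul_of_nonneg_right _ (by positivity)
        exact mul_le_mul_of_nonneg_left h5 hC.le
      _ = _ := by ring
  have h4 : (C ^ 3 * X) ^ (m + 1) * (C / Bc ^ 2) ^ (m + 1) ≤ (C ^ 6) ^ (m + 1) * X⁻¹ := by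
    rw [← mul_pow]
    calc (C ^ 3 * X * (C / Bc ^ 2)) ^ (m + 1) ≤ (C ^ 6 * X⁻¹) ^ (m + 1) := by
          apply pow_le_pow_left₀ (by positivity)
          calc C ^ 3 * X * (C / Bc ^ 2) ≤ C ^ 3 * X * (C ^ 3 * (X⁻¹ * X⁻¹)) :=
                mul_le_mul_of_nonneg_left h2 (by positivity)
            _ = C ^ 6 * X⁻¹ := by field_simp
      _ = (C ^ 6) ^ (m + 1) * (X⁻¹) ^ (m + 1) := mul_pow _ _ _
      _ ≤ _ := mul_le_mul_of_nonneg_left (h.Xpow_le m) (by positivity)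
  have h1 : Bb * Ba⁻¹ * X ≤ C ^ 2 := by
    calc Bb * Ba⁻¹ * X ≤ C * (C / X) * X := by
          apply mul_le_mul_of_nonneg_right _ hX.le
          exact mul_le_mul h.b2 h.ex (by positivity) hC.le
      _ = C ^ 2 := by field_simp
  calc Bb * ((C ^ 3 * X) * (C ^ 3 * X) ^ (m + 1)) * (Ba⁻¹ * (C ^ 3 * (C / Bc ^ 2) ^ (m + 1)))
      = (Bb * Ba⁻¹ * X) * ((C ^ 3 * X) ^ (m + 1) * (C / Bc ^ 2) ^ (m + 1)) * C ^ 6 := by ring
    _ ≤ C ^ 2 * ((C ^ 6) ^ (m + 1) * X⁻¹) * C ^ 6 := by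
        apply mul_le_mul_of_nonneg_right _ (by positivity)
        exact mul_le_mul h1 h4 (by positivity) (by positivity)
    _ = _ := by ring

end Num

end Pool.Agent.Helper10.Sub
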