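import Pool.Agent.Helper10.Sub.Core
import Pool.Agent.Helper10.Sub.Numeric

/-!
# Surfaces minus three hypersurface sections: constants
-/

set_option autoImplicit false

namespace Pool.Agent.Helper10.Sub

open MvPolynomial

section nrm
variable {K : Type} [Field K] {N : ℕ}

/-- The sup norm of a rational vector in a local field. -/
noncomputable def nrm (L : Type) [NontriviallyNormedField L] [Algebra K L]
    (x : Fin (N + 1) → K) : ℝ := ‖fun k => algebraMap K L (x k)‖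

variable {L : Type} [NontriviallyNormedField L] [Algebra K L]

lemma nrm_nonneg (x : Fin (N + 1) → K) : 0 ≤ nrm L x := norm_nonneg _

lemma le_nrm (x : Fin (N + 1) → K) (k : Fin (N + 1)) : ‖algebraMap K L (x k)‖ ≤ nrm L x :=
  norm_le_pi_norm (fun k => algebraMap K L (x k)) k

lemma aeval_alg (x : Fin (N + 1) → K) (f : MvPolynomial (Fin (N + 1)) K) :
    aeval (fun k => algebraMap K L (x k)) f = algebraMap K L (eval x f) := by
  have h1 := aeval_algebraMap_apply L x f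
  rw [aeval_self'] at h1
  exact h1

lemma nrm_pos {x : Fin (N + 1) → K} (hx : x ≠ 0) : 0 < nrm L x := by
  apply norm_pos_iff.mpr
  intro h0
  apply hx
  funext k
  exact (map_eq_zero_iff _ (algebraMap K L).injective).mp (congrFun h0 k)

/-- Every point lies on a hyperplane not containing the variety. -/
lemma exists_hyperplane {P : Ideal (MvPolynomial (Fin (N + 1)) K)}
    (Λ : Submodule K (Fin (N + 1) → K))
    (hΛ : ∀ c, c ∈ Λ ↔ (∑ i, C (c i) * X i : MvPolynomial (Fin (N + 1)) K) ∈ P)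
    (hΛ3 : Module.finrank K Λ + 3 ≤ N + 1) (x : Fin (N + 1) → K) :
    ∃ (G : MvPolynomial (Fin (N + 1)) K) (e : ℕ), G.IsHomogeneous e ∧ G ∉ P ∧ eval x G = 0 := by
  classical
  let φ : (Fin (N + 1) → K) →ₗ[K] K := ∑ i, (x i) • LinearMap.proj i
  have hφ : ∀ c, φ c = ∑ i, c i * x i := by
    intro c
    simp [φ, mul_comm]
  have h1 : Module.finrank K (LinearMap.range φ) + Module.finrank K (LinearMap.ker φ) = N + 1 := by
    rw [LinearMap.finrank_range_add_finrank_ker]; simp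
  have h2 : Module.finrank K (LinearMap.range φ) ≤ 1 := by
    have := Submodule.finrank_le (LinearMap.range φ)
    simpa using this
  have h3 : ¬ (LinearMap.ker φ ≤ Λ) := by
    intro hle
    have := Submodule.finrank_mono hle
    omega
  obtain ⟨c, hc, hcΛ⟩ := SetLike.not_le_iff_exists.mp h3
  refine ⟨∑ i, C (c i) * X i, 1, ?_, fun h => hcΛ ((hΛ c).mpr h), ?_⟩
  · apply IsHomogeneous.sum
    intro i _
    have := (isHomogeneous_C (Fin (N + 1)) (c i)).mul (isHomogeneous_X K i)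
    simpa using this
  · rw [map_sum]
    rw [LinearMap.mem_ker, hφ] at hc
    simpa using hc

end nrm

section const
variable {K L₁ L₂ : Type} [Field K] [NontriviallyNormedField L₁]
  [NontriviallyNormedField L₂] [Algebra K L₁] [Algebra K L₂] {N : ℕ}

lemma TwoPl.unit (S : TwoPl K L₁ L₂) (q : ℤ) :
    0 < ‖algebraMap K L₁ (S.ε ^ q)‖ ^ S.n₁ ∧ ‖algebraMap K L₂ (S.ε ^ q)‖ ^ S.n₂ =
      (‖algebraMap K L₁ (S.ε ^ q)‖ ^ S.n₁)⁻¹ := by
  have h1 : ‖algebraMap K L₁ S.ε‖ ≠ 0 := by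
    have := S.hε
    positivity
  have h0 : 0 < ‖algebraMap K L₁ (S.ε ^ q)‖ := by
    rw [map_zpow₀, norm_zpow]
    positivity
  refine ⟨by positivity, ?_⟩
  apply eq_inv_of_mul_eq_one_right
  rw [map_zpow₀, norm_zpow, map_zpow₀, norm_zpow, ← zpow_natCast, ← zpow_natCast, ← zpow_mul,
    ← zpow_mul, mul_comm q, mul_comm q, zpow_mul, zpow_mul, ← mul_zpow, zpow_natCast, zpow_natCast,
    S.pf, one_zpow]

/-- Points of bounded size at both places are finite in number. -/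
lemma TwoPl.finite_pts (S : TwoPl K L₁ L₂) (B : ℝ) :
    {x : Fin (N + 1) → K | (∀ k, x k ∈ S.O) ∧ nrm L₁ x ≤ B ∧ nrm L₂ x ≤ B}.Finite := by
  apply (Set.Finite.pi' (fun _ : Fin (N + 1) => S.north B)).subset
  rintro x ⟨h1, h2, h3⟩ k
  exact ⟨h1 k, (le_nrm x k).trans h2, (le_nrm x k).trans h3⟩

lemma TwoPl.large (S : TwoPl K L₁ L₂) {P : Ideal (MvPolynomial (Fin (N + 1)) K)} (hP : P.IsPrime)
    (hpt : ∀ x : Fin (N + 1) → K, ∃ (G : MvPolynomial (Fin (N + 1)) K) (e : ℕ),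
      G.IsHomogeneous e ∧ G ∉ P ∧ eval x G = 0)
    {E : Set (Fin (N + 1) → K)} (hE : Dn P E) (hO : ∀ x ∈ E, ∀ k, x k ∈ S.O) (c₀ : ℝ)
    (hn : ∀ x ∈ E, nrm L₂ x ≤ c₀) (B : ℝ) :
    Dn P {x | x ∈ E ∧ B ≤ nrm L₁ x ^ S.n₁} := by
  have hfin := S.finite_pts (N := N) (max (max 1 B) c₀)
  have h1 := hE.diff_finite hP hpt hfin
  refine h1.mono ?_
  rintro x ⟨hx, hx'⟩
  refine ⟨hx, ?_⟩
  have h2 : max 1 B ≤ nrm L₁ x := by
    by_contra hcon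
    push Not at hcon
    apply hx'
    exact ⟨hO x hx, hcon.le.trans (le_max_left _ _), (hn x hx).trans (le_max_right _ _)⟩
  have h3 : 1 ≤ nrm L₁ x := (le_max_left _ _).trans h2
  exact ((le_max_right _ _).trans h2).trans (le_self_pow₀ h3 S.hn₁)

/-- The constants. -/
lemma TwoPl.consts (S : TwoPl K L₁ L₂)
    (F : Fin 3 → MvPolynomial (Fin (N + 1)) K) (d : Fin 3 → ℕ) (hd : ∀ i, 1 ≤ d i)
    (hF : ∀ i, (F i).IsHomogeneous (d i)) (D : Fin 3 → K) (hD : ∀ i, D i ≠ 0)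
    (a b c : Fin 3) (E : Set (Fin (N + 1) → K)) (w : (Fin (N + 1) → K) → Fin 3 → K)
    (hw : ∀ x ∈ E, ∀ i, ∃ q : ℤ, w x i = S.ε ^ q)
    (hev : ∀ x ∈ E, ∀ i, eval x (F i) = D i * w x i ^ d i)
    (c₀ : ℝ) (hc₀ : 0 < c₀) (hn : ∀ x ∈ E, c₀ ≤ nrm L₂ x ∧ nrm L₂ x ≤ c₀⁻¹)
    (η : ℝ) (hη : 0 < η)
    (ha : ∀ x ∈ E, η * nrm L₁ x ^ d a ≤ ‖algebraMap K L₁ (eval x (F a))‖)
    (hb : ∀ x ∈ E, η * nrm L₂ x ^ d b ≤ ‖algebraMap K L₂ (eval x (F b))‖) :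
    ∃ C₀ : ℝ, 1 ≤ C₀ ∧ ∀ x ∈ E, ∀ C : ℝ, C₀ ≤ C → C ≤ nrm L₁ x ^ S.n₁ →
      Num C (nrm L₁ x ^ S.n₁) (‖algebraMap K L₁ (w x a)‖ ^ S.n₁)
        (‖algebraMap K L₁ (w x b)‖ ^ S.n₁) (‖algebraMap K L₁ (w x c)‖ ^ S.n₁) := by
  classical
  -- upper bounds at both places
  have hup₁ : ∀ i, ∃ C : ℝ, 0 ≤ C ∧ ∀ x ∈ E, ‖algebraMap K L₁ (w x i)‖ ≤ C * nrm L₁ x := by
    intro i
    obtain ⟨C, hC, h⟩ := aeval_le (L := L₁) (F i) (d i) (hF i)
    have hDi : 0 < ‖algebraMap K L₁ (D i)‖ := norm_pos_iff.mpr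
      (by rw [Ne, map_eq_zero_iff _ (algebraMap K L₁).injective]; exact hD i)
    refine ⟨max 1 (C / ‖algebraMap K L₁ (D i)‖), by positivity, fun x hx => ?_⟩
    apply root_le (Nat.one_le_iff_ne_zero.mp (hd i)) (norm_nonneg _) (nrm_nonneg _)
    have h1 := h (fun k => algebraMap K L₁ (x k))
    rw [aeval_alg, hev x hx i, map_mul, map_pow, norm_mul, norm_pow] at h1
    rw [div_mul_eq_mul_div, le_div_iff₀ hDi, mul_comm]
    exact h1
  have hup₂ : ∀ i, ∃ C : ℝ, 0 ≤ C ∧ ∀ x ∈ E, ‖algebraMap K L₂ (w x i)‖ ≤ C * nrm L₂ x := by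
    intro i
    obtain ⟨C, hC, h⟩ := aeval_le (L := L₂) (F i) (d i) (hF i)
    have hDi : 0 < ‖algebraMap K L₂ (D i)‖ := norm_pos_iff.mpr
      (by rw [Ne, map_eq_zero_iff _ (algebraMap K L₂).injective]; exact hD i)
    refine ⟨max 1 (C / ‖algebraMap K L₂ (D i)‖), by positivity, fun x hx => ?_⟩
    apply root_le (Nat.one_le_iff_ne_zero.mp (hd i)) (norm_nonneg _) (nrm_nonneg _)
    have h1 := h (fun k => algebraMap K L₂ (x k))
    rw [aeval_alg, hev x hx i, map_mul, map_pow, norm_mul, norm_pow] at h1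
    rw [div_mul_eq_mul_div, le_div_iff₀ hDi, mul_comm]
    exact h1
  choose C₁ hC₁ h₁ using hup₁
  choose C₂ hC₂ h₂ using hup₂
  -- lower bound at the first place
  obtain ⟨C₃, hC₃, h₃⟩ : ∃ C : ℝ, 0 ≤ C ∧ ∀ x ∈ E, nrm L₁ x ≤ C * ‖algebraMap K L₁ (w x a)‖ := by
    refine ⟨max 1 (‖algebraMap K L₁ (D a)‖ / η), by positivity, fun x hx => ?_⟩
    apply root_le (Nat.one_le_iff_ne_zero.mp (hd a)) (nrm_nonneg _) (norm_nonneg _)
    have h1 := ha x hx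
    rw [hev x hx a, map_mul, map_pow, norm_mul, norm_pow] at h1
    rw [div_mul_eq_mul_div, le_div_iff₀ hη, mul_comm]
    exact h1
  obtain ⟨C₄, hC₄, h₄⟩ : ∃ C : ℝ, 0 ≤ C ∧ ∀ x ∈ E, nrm L₂ x ≤ C * ‖algebraMap K L₂ (w x b)‖ := by
    refine ⟨max 1 (‖algebraMap K L₂ (D b)‖ / η), by positivity, fun x hx => ?_⟩
    apply root_le (Nat.one_le_iff_ne_zero.mp (hd b)) (nrm_nonneg _) (norm_nonneg _)
    have h1 := hb x hx
    rw [hev x hx b, map_mul, map_pow, norm_mul, norm_pow] at h1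
    rw [div_mul_eq_mul_div, le_div_iff₀ hη, mul_comm]
    exact h1
  set C₀ : ℝ := 1 + (∑ i, C₁ i ^ S.n₁) + (∑ i, (C₂ i * c₀⁻¹) ^ S.n₂) + C₃ ^ S.n₁ +
    (C₄ * c₀⁻¹) ^ S.n₂ with hC₀def
  have p1 : 0 ≤ ∑ i, C₁ i ^ S.n₁ := Finset.sum_nonneg fun i _ => pow_nonneg (hC₁ i) _
  have p2 : 0 ≤ ∑ i, (C₂ i * c₀⁻¹) ^ S.n₂ := Finset.sum_nonneg fun i _ => by
    have := hC₂ i
    positivity
  have p3 : 0 ≤ C₃ ^ S.n₁ := pow_nonneg hC₃ _
  have p4 : 0 ≤ (C₄ * c₀⁻¹) ^ S.n₂ := by positivity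
  refine ⟨C₀, by rw [hC₀def]; linarith, fun x hx C hC hCX => ?_⟩
  have hpos : ∀ i, 0 < ‖algebraMap K L₁ (w x i)‖ ^ S.n₁ ∧ ‖algebraMap K L₂ (w x i)‖ ^ S.n₂ =
      (‖algebraMap K L₁ (w x i)‖ ^ S.n₁)⁻¹ := by
    intro i
    obtain ⟨q, hq⟩ := hw x hx i
    rw [hq]
    exact S.unit q
  have hX0 : 0 ≤ nrm L₁ x ^ S.n₁ := pow_nonneg (nrm_nonneg _) _
  -- general upper bound
  have hA : ∀ i, ‖algebraMap K L₁ (w x i)‖ ^ S.n₁ ≤ C * nrm L₁ x ^ S.n₁ := by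
    intro i
    calc ‖algebraMap K L₁ (w x i)‖ ^ S.n₁ ≤ (C₁ i * nrm L₁ x) ^ S.n₁ :=
          pow_le_pow_left₀ (norm_nonneg _) (h₁ i x hx) _
      _ = C₁ i ^ S.n₁ * nrm L₁ x ^ S.n₁ := mul_pow _ _ _
      _ ≤ C * nrm L₁ x ^ S.n₁ := by
        apply mul_le_mul_of_nonneg_right _ hX0
        have : C₁ i ^ S.n₁ ≤ ∑ i, C₁ i ^ S.n₁ :=
          Finset.single_le_sum (f := fun i => C₁ i ^ S.n₁) (fun i _ => pow_nonneg (hC₁ i) _)
            (Finset.mem_univ i)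
        linarith
  have hBl : ∀ i, 1 ≤ C * ‖algebraMap K L₁ (w x i)‖ ^ S.n₁ := by
    intro i
    obtain ⟨hp, he⟩ := hpos i
    have h5 : ‖algebraMap K L₂ (w x i)‖ ^ S.n₂ ≤ C := by
      calc ‖algebraMap K L₂ (w x i)‖ ^ S.n₂ ≤ (C₂ i * c₀⁻¹) ^ S.n₂ := by
            apply pow_le_pow_left₀ (norm_nonneg _)
            exact (h₂ i x hx).trans (mul_le_mul_of_nonneg_left (hn x hx).2 (hC₂ i))
        _ ≤ C := by
            have : (C₂ i * c₀⁻¹) ^ S.n₂ ≤ ∑ i, (C₂ i * c₀⁻¹) ^ S.n₂ :=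
              Finset.single_le_sum (f := fun i => (C₂ i * c₀⁻¹) ^ S.n₂) (fun i _ => by
                have := hC₂ i
                positivity) (Finset.mem_univ i)
            linarith
    rw [he, inv_le_iff_one_le_mul₀ hp] at h5
    exact h5
  refine ⟨by linarith, hCX, (hpos a).1, (hpos b).1, (hpos c).1, ?_, hA a, hBl b, ?_, hBl c, hA c⟩
  · calc nrm L₁ x ^ S.n₁ ≤ (C₃ * ‖algebraMap K L₁ (w x a)‖) ^ S.n₁ :=
          pow_le_pow_left₀ (nrm_nonneg _) (h₃ x hx) _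
      _ = C₃ ^ S.n₁ * ‖algebraMap K L₁ (w x a)‖ ^ S.n₁ := mul_pow _ _ _
      _ ≤ C * ‖algebraMap K L₁ (w x a)‖ ^ S.n₁ := by
        apply mul_le_mul_of_nonneg_right _ (hpos a).1.le
        linarith
  · obtain ⟨hp, he⟩ := hpos b
    have h6 : c₀ ≤ C₄ * ‖algebraMap K L₂ (w x b)‖ := (hn x hx).1.trans (h₄ x hx)
    have h7 : 1 ≤ (C₄ * c₀⁻¹) * ‖algebraMap K L₂ (w x b)‖ := by
      have := mul_le_mul_of_nonneg_left h6 (inv_nonneg.mpr hc₀.le)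
      rw [inv_mul_cancel₀ hc₀.ne'] at this
      calc (1 : ℝ) ≤ c₀⁻¹ * (C₄ * ‖algebraMap K L₂ (w x b)‖) := this
        _ = _ := by ring
    have h8 : 1 ≤ (C₄ * c₀⁻¹) ^ S.n₂ * (‖algebraMap K L₁ (w x b)‖ ^ S.n₁)⁻¹ := by
      rw [← he, ← mul_pow]
      exact one_le_pow₀ h7
    have h9 : ‖algebraMap K L₁ (w x b)‖ ^ S.n₁ ≤ (C₄ * c₀⁻¹) ^ S.n₂ := by
      rw [← div_eq_mul_inv, one_le_div hp] at h8
      exact h8
    linarith

end const

end Pool.Agent.Helper10.Sub
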