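import Pool.Agent.Helper10.Sub.Main1

/-!
# Surfaces minus three hypersurface sections: the core argument
-/

set_option autoImplicit false

namespace Pool.Agent.Helper10.Sub

open MvPolynomial

/-- Numerical consequence of the local estimate. -/
lemma good_bound {z R E u v κ W : ℝ} {n : ℕ} (hz : 0 ≤ z) (hR : 0 ≤ R) (hu : 0 ≤ u) (hv : 0 ≤ v)
    (hE : 0 ≤ E) (h : z * R ≤ E * max u v ^ 2) (hu' : u ^ n ≤ κ * W) (hv' : v ^ n ≤ κ * W) :
    z ^ n * R ^ n ≤ E ^ n * (κ * W) ^ 2 := by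
  have h1 : (z * R) ^ n ≤ (E * max u v ^ 2) ^ n := pow_le_pow_left₀ (by positivity) h n
  rw [mul_pow] at h1
  refine h1.trans ?_
  rw [mul_pow, ← pow_mul, mul_comm 2 n, pow_mul]
  apply mul_le_mul_of_nonneg_left _ (pow_nonneg hE n)
  apply pow_le_pow_left₀ (by positivity)
  rcases max_cases u v with ⟨h2, -⟩ | ⟨h2, -⟩ <;> rw [h2]
  · exact hu'
  · exact hv'

/-- Bounds for the forms at the first place. -/
noncomputable def beta₁ (N : ℕ) (C X Bb Bc : ℝ) : IN N → ℝ :=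
  Sum.elim ![Bb, Bc, C * X] (fun _ => C * Bc ^ 2 / X)

/-- Bounds for the forms at the second place. -/
noncomputable def beta₂ (N : ℕ) (C Ba Bc : ℝ) : IN N → ℝ :=
  Sum.elim ![Ba⁻¹, Bc⁻¹, C] (fun _ => C / Bc ^ 2)

section betas
variable {N : ℕ} {C X Ba Bb Bc : ℝ} (h : Num C X Ba Bb Bc)
include h

lemma beta₁_two (i : IN N) :
    X ^ (-(4 : ℝ)) ≤ beta₁ N C X Bb Bc i ∧ beta₁ N C X Bb Bc i ≤ X ^ (4 : ℝ) := by
  rcases i with i | i
  · fin_cases i
    · exact h.two_Bb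
    · exact h.two_Bc
    · exact h.two_CX
  · exact h.two_g1

lemma beta₂_two (i : IN N) :
    X ^ (-(4 : ℝ)) ≤ beta₂ N C Ba Bc i ∧ beta₂ N C Ba Bc i ≤ X ^ (4 : ℝ) := by
  rcases i with i | i
  · fin_cases i
    · exact h.two_Bai
    · exact h.two_Bci
    · exact h.two_C
  · exact h.two_g2

lemma beta₁_pos (i : IN N) : 0 ≤ beta₁ N C X Bb Bc i :=
  (Real.rpow_pos_of_pos h.X0 _).le.trans (beta₁_two h i).1

lemma beta₂_pos (i : IN N) : 0 ≤ beta₂ N C Ba Bc i :=
  (Real.rpow_pos_of_pos h.X0 _).le.trans (beta₂_two h i).1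

lemma C_le_C3 : C ≤ C ^ 3 := le_self_pow₀ h.hC (by norm_num)

/-- Case of no proportionality. -/
lemma prods_c (r₁ r₂ : Finset (IN N)) (h₁ : {Sum.inl 0, Sum.inl 1} ⊆ r₁)
    (h₂ : {Sum.inl 0, Sum.inl 1} ⊆ r₂) (m : ℕ) (c₁ : r₁.card = m + 4) (c₂ : r₂.card = m + 4) :
    (∏ i ∈ r₁, beta₁ N C X Bb Bc i) * (∏ i ∈ r₂, beta₂ N C Ba Bc i) ≤
      C ^ 8 * (C ^ 2) ^ (m + 1) * X⁻¹ := by
  classical
  have hX := h.X0
  have hC := h.C0
  have h01 : (Sum.inl 0 : IN N) ≠ Sum.inl 1 := by simp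
  have hs : ({Sum.inl 0, Sum.inl 1} : Finset (IN N)).card = 2 := Finset.card_pair h01
  have e₁ : (r₁ \ {Sum.inl 0, Sum.inl 1}).card = (m + 1) + 1 := by
    rw [Finset.card_sdiff_of_subset h₁, hs, c₁]; omega
  have e₂ : (r₂ \ {Sum.inl 0, Sum.inl 1}).card = (m + 1) + 1 := by
    rw [Finset.card_sdiff_of_subset h₂, hs, c₂]; omega
  have hg1 : (0 : ℝ) ≤ C * Bc ^ 2 / X := by have := h.c0; positivity
  have hg2 : (0 : ℝ) ≤ C / Bc ^ 2 := by have := h.c0; positivity
  have hne : ∀ r : Finset (IN N), ∀ i ∈ r \ {Sum.inl 0, Sum.inl 1}, i ≠ Sum.inl 2 →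
      ∃ k, i = Sum.inr k := by
    intro r i hi hi2
    rw [Finset.mem_sdiff, Finset.mem_insert, Finset.mem_singleton, not_or] at hi
    rcases i with i | k
    · exfalso
      fin_cases i
      · exact hi.2.1 rfl
      · exact hi.2.2 rfl
      · exact hi2 rfl
    · exact ⟨k, rfl⟩
  have P₁ := prod_bound {Sum.inl 0, Sum.inl 1} r₁ h₁ (beta₁ N C X Bb Bc) (C ^ 3 * X)
    (C * Bc ^ 2 / X) hg1 h.g1_le (Sum.inl 2) (m + 1) e₁ (fun i _ => beta₁_pos h i)
    (by
      intro i hi hi2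
      obtain ⟨k, rfl⟩ := hne r₁ i hi hi2
      exact le_refl _)
    (mul_le_mul_of_nonneg_right (C_le_C3 h) hX.le)
  have P₂ := prod_bound {Sum.inl 0, Sum.inl 1} r₂ h₂ (beta₂ N C Ba Bc) (C ^ 3)
    (C / Bc ^ 2) hg2 h.g2_le (Sum.inl 2) (m + 1) e₂ (fun i _ => beta₂_pos h i)
    (by
      intro i hi hi2
      obtain ⟨k, rfl⟩ := hne r₂ i hi hi2
      exact le_refl _)
    (C_le_C3 h)
  rw [Finset.prod_pair h01] at P₁ P₂
  refine (mul_le_mul P₁ P₂ (Finset.prod_nonneg fun i _ => beta₂_pos h i) ?_).trans ?_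
  · have := beta₁_pos h (Sum.inl 0 : IN N)
    have := beta₁_pos h (Sum.inl 1 : IN N)
    positivity
  · exact h.prod_c m

lemma prods_a (hBc : Bc ≤ C) (r₁ r₂ : Finset (IN N)) (h₁ : {Sum.inl 0} ⊆ r₁)
    (h₁' : r₁ ⊆ Finset.univ.erase (Sum.inl 1))
    (h₂ : {Sum.inl 0} ⊆ r₂) (m : ℕ) (c₁ : r₁.card = m + 3) (c₂ : r₂.card = m + 3) :
    (∏ i ∈ r₁, beta₁ N C X Bb Bc i) * (∏ i ∈ r₂, beta₂ N C Ba Bc i) ≤
      C ^ 8 * (C ^ 6) ^ (m + 1) * X⁻¹ := by
  classical
  have hX := h.X0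
  have hC := h.C0
  have hs : ({Sum.inl 0} : Finset (IN N)).card = 1 := Finset.card_singleton _
  have e₁ : (r₁ \ {Sum.inl 0}).card = (m + 1) + 1 := by
    rw [Finset.card_sdiff_of_subset h₁, hs, c₁]; omega
  have e₂ : (r₂ \ {Sum.inl 0}).card = (m + 1) + 1 := by
    rw [Finset.card_sdiff_of_subset h₂, hs, c₂]; omega
  have hg1 : (0 : ℝ) ≤ C * Bc ^ 2 / X := by have := h.c0; positivity
  have P₁ := prod_bound {Sum.inl 0} r₁ h₁ (beta₁ N C X Bb Bc) (C ^ 3 * X)
    (C * Bc ^ 2 / X) hg1 h.g1_le (Sum.inl 2) (m + 1) e₁ (fun i _ => beta₁_pos h i)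
    (by
      intro i hi hi2
      rw [Finset.mem_sdiff, Finset.mem_singleton] at hi
      have hi3 := Finset.ne_of_mem_erase (h₁' hi.1)
      rcases i with i | k
      · exfalso
        fin_cases i
        · exact hi.2 rfl
        · exact hi3 rfl
        · exact hi2 rfl
      · exact le_refl _)
    (mul_le_mul_of_nonneg_right (C_le_C3 h) hX.le)
  have P₂ := prod_bound {Sum.inl 0} r₂ h₂ (beta₂ N C Ba Bc) (C ^ 3)
    (C ^ 3) (by positivity) le_rfl (Sum.inl 2) (m + 1) e₂ (fun i _ => beta₂_pos h i)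
    (by
      intro i hi hi2
      rw [Finset.mem_sdiff, Finset.mem_singleton] at hi
      rcases i with i | k
      · fin_cases i
        · exact absurd rfl hi.2
        · exact h.Bci_le.trans (C_le_C3 h)
        · exact C_le_C3 h
      · exact h.g2_le)
    (C_le_C3 h)
  rw [Finset.prod_singleton] at P₁ P₂
  refine (mul_le_mul P₁ P₂ (Finset.prod_nonneg fun i _ => beta₂_pos h i) ?_).trans ?_
  · have := beta₁_pos h (Sum.inl 0 : IN N)
    positivity
  · exact h.prod_a hBc m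

lemma prods_b (hBc : X ≤ C * Bc) (r₁ r₂ : Finset (IN N)) (h₁ : {Sum.inl 0} ⊆ r₁)
    (h₂ : {Sum.inl 0} ⊆ r₂) (h₂' : r₂ ⊆ Finset.univ.erase (Sum.inl 1))
    (m : ℕ) (c₁ : r₁.card = m + 3) (c₂ : r₂.card = m + 3) :
    (∏ i ∈ r₁, beta₁ N C X Bb Bc i) * (∏ i ∈ r₂, beta₂ N C Ba Bc i) ≤
      C ^ 8 * (C ^ 6) ^ (m + 1) * X⁻¹ := by
  classical
  have hX := h.X0
  have hC := h.C0
  have hs : ({Sum.inl 0} : Finset (IN N)).card = 1 := Finset.card_singleton _
  have e₁ : (r₁ \ {Sum.inl 0}).card = (m + 1) + 1 := by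
    rw [Finset.card_sdiff_of_subset h₁, hs, c₁]; omega
  have e₂ : (r₂ \ {Sum.inl 0}).card = (m + 1) + 1 := by
    rw [Finset.card_sdiff_of_subset h₂, hs, c₂]; omega
  have hg2 : (0 : ℝ) ≤ C / Bc ^ 2 := by have := h.c0; positivity
  have P₁ := prod_bound {Sum.inl 0} r₁ h₁ (beta₁ N C X Bb Bc) (C ^ 3 * X)
    (C ^ 3 * X) (by positivity) le_rfl (Sum.inl 2) (m + 1) e₁ (fun i _ => beta₁_pos h i)
    (by
      intro i hi hi2
      rw [Finset.mem_sdiff, Finset.mem_singleton] at hi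
      rcases i with i | k
      · fin_cases i
        · exact absurd rfl hi.2
        · exact h.c2.trans (mul_le_mul_of_nonneg_right (C_le_C3 h) hX.le)
        · exact mul_le_mul_of_nonneg_right (C_le_C3 h) hX.le
      · exact h.g1_le)
    (mul_le_mul_of_nonneg_right (C_le_C3 h) hX.le)
  have P₂ := prod_bound {Sum.inl 0} r₂ h₂ (beta₂ N C Ba Bc) (C ^ 3)
    (C / Bc ^ 2) hg2 h.g2_le (Sum.inl 2) (m + 1) e₂ (fun i _ => beta₂_pos h i)
    (by
      intro i hi hi2
      rw [Finset.mem_sdiff, Finset.mem_singleton] at hi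
      have hi3 := Finset.ne_of_mem_erase (h₂' hi.1)
      rcases i with i | k
      · exfalso
        fin_cases i
        · exact hi.2 rfl
        · exact hi3 rfl
        · exact hi2 rfl
      · exact le_refl _)
    (C_le_C3 h)
  rw [Finset.prod_singleton] at P₁ P₂
  refine (mul_le_mul P₁ P₂ (Finset.prod_nonneg fun i _ => beta₂_pos h i) ?_).trans ?_
  · have := beta₁_pos h (Sum.inl 0 : IN N)
    positivity
  · exact h.prod_b hBc m

end betas

section rank
variable {K : Type} [Field K] {N : ℕ}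

lemma rank_part (V : Submodule K (YN N → K)) (Λ : Submodule K (Fin (N + 1) → K))
    (hker : ∀ c : Fin (N + 1) → K, (∀ y ∈ V, ∑ k, c k * y (Sum.inl k) = 0) → c ∈ Λ)
    (hΛ3 : Module.finrank K Λ + 3 ≤ N + 1) :
    3 ≤ Module.finrank K V ∧ (Module.finrank K V = 3 → Module.finrank K Λ + 3 = N + 1 ∧
      ∀ i : Fin 3, ∃ l : Fin (N + 1) → K, ∀ y ∈ V, y (Sum.inr i) = ∑ k, l k * y (Sum.inl k)) := by
  classical
  let Φ : (Fin (N + 1) → K) →ₗ[K] Module.Dual K V :=
    { toFun := fun c =>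
        { toFun := fun y => ∑ k, c k * (y : YN N → K) (Sum.inl k)
          map_add' := fun y y' => by simp [mul_add, Finset.sum_add_distrib]
          map_smul' := fun r y => by
            simp only [Submodule.coe_smul, Pi.smul_apply, smul_eq_mul, RingHom.id_apply,
              Finset.mul_sum]
            exact Finset.sum_congr rfl fun k _ => by ring }
      map_add' := fun c c' => by
        ext y; simp [add_mul, Finset.sum_add_distrib]
      map_smul' := fun r c => by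
        ext y; simp [Finset.mul_sum, mul_assoc] }
  have hΦ : ∀ c (y : V), Φ c y = ∑ k, c k * (y : YN N → K) (Sum.inl k) := fun _ _ => rfl
  have hk : LinearMap.ker Φ ≤ Λ := by
    intro c hc
    apply hker
    intro y hy
    rw [LinearMap.mem_ker] at hc
    have := LinearMap.congr_fun hc ⟨y, hy⟩
    simpa [hΦ] using this
  have h1 : Module.finrank K (LinearMap.range Φ) + Module.finrank K (LinearMap.ker Φ) = N + 1 := by
    rw [LinearMap.finrank_range_add_finrank_ker]; simp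
  have h2 := Submodule.finrank_mono hk
  have h3 : Module.finrank K (LinearMap.range Φ) ≤ Module.finrank K V := by
    have := Submodule.finrank_le (LinearMap.range Φ)
    rwa [Subspace.dual_finrank_eq] at this
  refine ⟨by omega, fun hV => ⟨by omega, fun i => ?_⟩⟩
  have h4 : LinearMap.range Φ = ⊤ := by
    apply Submodule.eq_top_of_finrank_eq
    rw [Subspace.dual_finrank_eq]
    omega
  let ψ : Module.Dual K V :=
    { toFun := fun y => (y : YN N → K) (Sum.inr i)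
      map_add' := fun _ _ => rfl
      map_smul' := fun _ _ => rfl }
  have h5 : ψ ∈ LinearMap.range Φ := by rw [h4]; exact Submodule.mem_top
  obtain ⟨l, hl⟩ := h5
  refine ⟨l, fun y hy => ?_⟩
  have := LinearMap.congr_fun hl ⟨y, hy⟩
  rw [hΦ] at this
  exact this.symm

/-- A linear relation on a spanning set. -/
lemma rel_on_span {E : Set (Fin (N + 1) → K)} (y : (Fin (N + 1) → K) → YN N → K)
    (c : YN N → K) (h : ∀ x ∈ E, ∑ m, c m * y x m = 0) :
    ∀ z ∈ Submodule.span K (y '' E), ∑ m, c m * z m = 0 := by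
  intro z hz
  induction hz using Submodule.span_induction with
  | mem z hz =>
    obtain ⟨x, hx, rfl⟩ := hz
    exact h x hx
  | zero => simp
  | add z z' _ _ h1 h2 =>
    simp only [Pi.add_apply, mul_add, Finset.sum_add_distrib, h1, h2, add_zero]
  | smul r z _ h1 =>
    have : ∑ m, c m * (r • z) m = r * ∑ m, c m * z m := by
      simp only [Pi.smul_apply, smul_eq_mul, Finset.mul_sum]
      exact Finset.sum_congr rfl fun m _ => by ring
    rw [this, h1, mul_zero]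

end rank

end Pool.Agent.Helper10.Sub
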