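import Pool.Agent.Helper10.Sub.Main2

/-!
# Surfaces minus three hypersurface sections: the core argument, end
-/

set_option autoImplicit false

namespace Pool.Agent.Helper10.Sub

open MvPolynomial

variable {K L₁ L₂ : Type} [Field K] [CharZero K] [NontriviallyNormedField L₁] [ProperSpace L₁]
  [NontriviallyNormedField L₂] [ProperSpace L₂] [Algebra K L₁] [Algebra K L₂] {N : ℕ}

/-- The linear relation `y_c = κ y_b` as a sum. -/
lemma rel_sum (b c : Fin 3) (hbc : b ≠ c) (κ : K) (z : YN N → K) :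
    ∑ m, (Pi.single (Sum.inr c) 1 - κ • Pi.single (Sum.inr b) 1 : YN N → K) m * z m =
      z (Sum.inr c) - κ * z (Sum.inr b) := by
  classical
  have h1 : ∀ m' : YN N, ∑ m, (Pi.single m' 1 : YN N → K) m * z m = z m' := by
    intro m'
    rw [Finset.sum_eq_single m']
    · simp
    · intro j _ hj
      rw [Pi.single_eq_of_ne hj, zero_mul]
    · intro h; exact absurd (Finset.mem_univ _) h
  simp only [Pi.sub_apply, Pi.smul_apply, smul_eq_mul, sub_mul, Finset.sum_sub_distrib, mul_assoc,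
    ← Finset.mul_sum, h1]

theorem core (S : TwoPl K L₁ L₂) (hsub : S.SubHyp)
    (P : Ideal (MvPolynomial (Fin (N + 1)) K)) (hP : P.IsPrime)
    (hPh : ∀ f ∈ P, ∀ n, homogeneousComponent n f ∈ P)
    (F : Fin 3 → MvPolynomial (Fin (N + 1)) K) (d : Fin 3 → ℕ) (hd : ∀ i, 1 ≤ d i)
    (hF : ∀ i, (F i).IsHomogeneous (d i)) (D : Fin 3 → K) (hD : ∀ i, D i ≠ 0)
    (Λ : Submodule K (Fin (N + 1) → K))
    (hΛ : ∀ c, c ∈ Λ ↔ (∑ i, C (c i) * X i : MvPolynomial (Fin (N + 1)) K) ∈ P)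
    (hΛ3 : Module.finrank K Λ + 3 ≤ N + 1)
    (a b c : Fin 3) (habc : ∀ i, i = a ∨ i = b ∨ i = c) (hac : a ≠ c) (hbc : b ≠ c)
    (hempty₁ : ∀ A : Fin (N + 1) → L₁, OnV (P : Set (MvPolynomial (Fin (N + 1)) K)) A →
      (∀ i, aeval A (F i) = 0) → A = 0)
    (hempty₂ : ∀ A : Fin (N + 1) → L₂, OnV (P : Set (MvPolynomial (Fin (N + 1)) K)) A →
      (∀ i, aeval A (F i) = 0) → A = 0)
    (hred₁ : ∀ A : Fin (N + 1) → L₁, A ≠ 0 →
      OnV ((P : Set (MvPolynomial (Fin (N + 1)) K)) ∪ {F b, F c}) A →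
      Jac ((P : Set (MvPolynomial (Fin (N + 1)) K)) ∪ {F b, F c}) A)
    (hred₂ : ∀ A : Fin (N + 1) → L₂, A ≠ 0 →
      OnV ((P : Set (MvPolynomial (Fin (N + 1)) K)) ∪ {F a, F c}) A →
      Jac ((P : Set (MvPolynomial (Fin (N + 1)) K)) ∪ {F a, F c}) A)
    (E : Set (Fin (N + 1) → K)) (hE : Dn P E) (w : (Fin (N + 1) → K) → Fin 3 → K)
    (hw : ∀ x ∈ E, ∀ i, ∃ q : ℤ, w x i = S.ε ^ q)
    (hev : ∀ x ∈ E, ∀ i, eval x (F i) = D i * w x i ^ d i)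
    (hO : ∀ x ∈ E, ∀ k, x k ∈ S.O)
    (hX : ∀ x ∈ E, OnV (P : Set (MvPolynomial (Fin (N + 1)) K)) x)
    (c₀ : ℝ) (hc₀ : 0 < c₀) (hn : ∀ x ∈ E, c₀ ≤ nrm L₂ x ∧ nrm L₂ x ≤ c₀⁻¹)
    (η : ℝ) (hη : 0 < η)
    (ha : ∀ x ∈ E, η * nrm L₁ x ^ d a ≤ ‖algebraMap K L₁ (eval x (F a))‖)
    (hb : ∀ x ∈ E, η * nrm L₂ x ^ d b ≤ ‖algebraMap K L₂ (eval x (F b))‖) :
    Module.finrank K Λ + 3 = N + 1 ∧ ∃ l : Fin 3 → Fin (N + 1) → K, ∀ i,
      F i - C (D i) * (∑ k, C (l i k) * X k) ^ d i ∈ P := by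
  classical
  have hε0 : S.ε ≠ 0 := by
    intro h0
    have := S.hε
    rw [h0, map_zero, norm_zero] at this
    linarith
  have hw0 : ∀ x ∈ E, ∀ i, w x i ≠ 0 := by
    intro x hx i
    obtain ⟨q, hq⟩ := hw x hx i
    rw [hq]
    exact zpow_ne_zero _ hε0
  have hxne : ∀ x ∈ E, x ≠ 0 := by
    intro x hx h0
    have h1 := (hn x hx).1
    have h2 : nrm L₂ x = 0 := by
      rw [h0, nrm]
      simp only [Pi.zero_apply, map_zero]
      exact norm_zero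
    linarith
  set y : (Fin (N + 1) → K) → YN N → K := fun x => Sum.elim x (w x) with hy
  have hpt := exists_hyperplane Λ hΛ hΛ3
  obtain ⟨C₀, hC₀, hconst⟩ := S.consts F d hd hF D hD a b c E w hw hev c₀ hc₀ hn η hη ha hb
  obtain ⟨E₁, Ty₁, hE₁, hTy₁, hpl₁⟩ := place P hPh F d hd hF D hD a b c habc hempty₁ hred₁
  obtain ⟨E₂, Ty₂, hE₂, hTy₂, hpl₂⟩ := place P hPh F d hd hF D hD b a c
    (fun i => by rcases habc i with h | h | h <;> tauto) hempty₂ hred₂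
  obtain ⟨E', hE'E, hE'D, hmin⟩ := hE.exists_minimal y
  set V := Submodule.span K (y '' E') with hVdef
  obtain ⟨t₁, ht₁, hD₁⟩ := hE'D.partition hP Ty₁ (fun t x => ∀ k,
      ‖∑ m, t.2 k m * algebraMap K L₁ (Sum.elim x (w x) m)‖ *
        ‖fun j => algebraMap K L₁ (x j)‖ ≤
        E₁ * max ‖algebraMap K L₁ (w x b)‖ ‖algebraMap K L₁ (w x c)‖ ^ 2)
    (fun x hx => hpl₁ x (hxne x (hE'E hx)) (hX x (hE'E hx)) (w x) (hev x (hE'E hx)))
  obtain ⟨t₂, ht₂, hD₂⟩ := hD₁.partition hP Ty₂ (fun t x => ∀ k,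
      ‖∑ m, t.2 k m * algebraMap K L₂ (Sum.elim x (w x) m)‖ *
        ‖fun j => algebraMap K L₂ (x j)‖ ≤
        E₂ * max ‖algebraMap K L₂ (w x a)‖ ‖algebraMap K L₂ (w x c)‖ ^ 2)
    (fun x hx => hpl₂ x (hxne x (hE'E hx.1)) (hX x (hE'E hx.1)) (w x) (hev x (hE'E hx.1)))
  obtain ⟨hta₁, htf₁⟩ := hTy₁ t₁ ht₁
  obtain ⟨hta₂, htf₂⟩ := hTy₂ t₂ ht₂
  set G : Set (Fin (N + 1) → K) := _ with hG
  change Dn P G at hD₂
  have hGE' : G ⊆ E' := fun x hx => hx.1.1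
  have hGE : G ⊆ E := hGE'.trans hE'E
  have hr₁ : ∀ x ∈ G, ∀ k, ‖lf (t₁.2 k) (y x)‖ * nrm L₁ x ≤
      E₁ * max ‖algebraMap K L₁ (w x b)‖ ‖algebraMap K L₁ (w x c)‖ ^ 2 := fun x hx => hx.1.2
  have hr₂ : ∀ x ∈ G, ∀ k, ‖lf (t₂.2 k) (y x)‖ * nrm L₂ x ≤
      E₂ * max ‖algebraMap K L₂ (w x a)‖ ‖algebraMap K L₂ (w x c)‖ ^ 2 := fun x hx => hx.2
  have hVs : ∀ G' ⊆ G, Dn P G' → Submodule.span K (y '' G') = V :=
    fun G' hG' hD' => hmin G' (hG'.trans hGE') hD'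
  -- the constant
  set C₁ : ℝ := C₀ + E₁ ^ S.n₁ * (C₀ ^ 2) ^ 2 + E₂ ^ S.n₂ * (C₀ ^ 2) ^ 2 * (c₀⁻¹) ^ S.n₂ +
    (c₀⁻¹) ^ S.n₂ with hC₁def
  have q1 : 0 ≤ E₁ ^ S.n₁ * (C₀ ^ 2) ^ 2 := by positivity
  have q2 : 0 ≤ E₂ ^ S.n₂ * (C₀ ^ 2) ^ 2 * (c₀⁻¹) ^ S.n₂ := by positivity
  have q3 : 0 ≤ (c₀⁻¹) ^ S.n₂ := by positivity
  have hC₁C₀ : C₀ ≤ C₁ := by rw [hC₁def]; linarith
  have hnum : ∀ x ∈ G, ∀ C, C₁ ≤ C → C ≤ nrm L₁ x ^ S.n₁ →
      Num C (nrm L₁ x ^ S.n₁) (‖algebraMap K L₁ (w x a)‖ ^ S.n₁)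
        (‖algebraMap K L₁ (w x b)‖ ^ S.n₁) (‖algebraMap K L₁ (w x c)‖ ^ S.n₁) :=
    fun x hx C hC hCX => hconst x (hGE hx) C (hC₁C₀.trans hC) hCX
  have hun : ∀ x ∈ G, ∀ i, ‖algebraMap K L₂ (w x i)‖ ^ S.n₂ =
      (‖algebraMap K L₁ (w x i)‖ ^ S.n₁)⁻¹ := by
    intro x hx i
    obtain ⟨q, hq⟩ := hw x (hGE hx) i
    rw [hq]
    exact (S.unit q).2
  -- bounds for the forms at the first place
  have hβ₁ : ∀ x ∈ G, ∀ C, C₁ ≤ C → C ≤ nrm L₁ x ^ S.n₁ → ∀ i,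
      ‖lf (vf a b c t₁ i) (y x)‖ ^ S.n₁ ≤ beta₁ N C (nrm L₁ x ^ S.n₁)
        (‖algebraMap K L₁ (w x b)‖ ^ S.n₁) (‖algebraMap K L₁ (w x c)‖ ^ S.n₁) i := by
    intro x hx C hC hCX i
    have hN := hnum x hx C hC hCX
    have hN₀ := hconst x (hGE hx) C₀ le_rfl ((hC₁C₀.trans hC).trans hCX)
    have hX0 := hN.X0
    have hX1 := hN.X1
    have hC0 := hN.C0
    have hCle : ∀ i, ‖algebraMap K L₁ (w x i)‖ ^ S.n₁ ≤ C * nrm L₁ x ^ S.n₁ := by
      intro i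
      rcases habc i with rfl | rfl | rfl
      · exact hN.a2
      · exact hN.b2.trans (le_mul_of_one_le_right hC0.le hX1)
      · exact hN.c2
    rcases i with i | k
    · fin_cases i
      · have e : lf (vf a b c t₁ (Sum.inl 0)) (y x) = algebraMap K L₁ (w x b) := by
          simp [vf, lf_single, hy]
        change ‖lf (vf a b c t₁ (Sum.inl 0)) (y x)‖ ^ S.n₁ ≤ _
        rw [e]
        exact le_rfl
      · have e : lf (vf a b c t₁ (Sum.inl 1)) (y x) = algebraMap K L₁ (w x c) := by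
          simp [vf, lf_single, hy]
        change ‖lf (vf a b c t₁ (Sum.inl 1)) (y x)‖ ^ S.n₁ ≤ _
        rw [e]
        exact le_rfl
      · have e : lf (vf a b c t₁ (Sum.inl 2)) (y x) = algebraMap K L₁ (y x (emb a t₁.1)) := by
          simp [vf, lf_single]
        change ‖lf (vf a b c t₁ (Sum.inl 2)) (y x)‖ ^ S.n₁ ≤ C * nrm L₁ x ^ S.n₁
        rw [e]
        rcases t₁.1 with _ | k
        · exact hCle a
        · refine le_trans (pow_le_pow_left₀ (norm_nonneg _) (le_nrm x k) _) ?_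
          exact le_mul_of_one_le_left hX0.le hN.hC
    · change ‖lf (t₁.2 k) (y x)‖ ^ S.n₁ ≤ C * (‖algebraMap K L₁ (w x c)‖ ^ S.n₁) ^ 2 /
        nrm L₁ x ^ S.n₁
      rw [le_div_iff₀ hX0]
      have h1 : (1 : ℝ) ≤ C₀ ^ 2 := one_le_pow₀ hC₀
      have h2 := good_bound (n := S.n₁) (κ := C₀ ^ 2) (W := ‖algebraMap K L₁ (w x c)‖ ^ S.n₁)
        (norm_nonneg _) (nrm_nonneg (L := L₁) x) (norm_nonneg _) (norm_nonneg _) hE₁.le
        (hr₁ x hx k)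
        (by
          calc ‖algebraMap K L₁ (w x b)‖ ^ S.n₁ ≤ C₀ := hN₀.b2
            _ = C₀ * 1 := (mul_one _).symm
            _ ≤ C₀ * (C₀ * ‖algebraMap K L₁ (w x c)‖ ^ S.n₁) :=
              mul_le_mul_of_nonneg_left hN₀.c1 hN₀.C0.le
            _ = _ := by ring)
        (le_mul_of_one_le_left hN.c0.le h1)
      refine h2.trans ?_
      rw [mul_pow, ← mul_assoc]
      apply mul_le_mul_of_nonneg_right _ (by positivity)
      linarith
  have hβ₂ : ∀ x ∈ G, ∀ C, C₁ ≤ C → C ≤ nrm L₁ x ^ S.n₁ → ∀ i,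
      ‖lf (vf b a c t₂ i) (y x)‖ ^ S.n₂ ≤ beta₂ N C
        (‖algebraMap K L₁ (w x a)‖ ^ S.n₁) (‖algebraMap K L₁ (w x c)‖ ^ S.n₁) i := by
    intro x hx C hC hCX i
    have hN := hnum x hx C hC hCX
    have hN₀ := hconst x (hGE hx) C₀ le_rfl ((hC₁C₀.trans hC).trans hCX)
    have hX0 := hN.X0
    have hX1 := hN.X1
    have hC0 := hN.C0
    have hn2 : 0 < nrm L₂ x := lt_of_lt_of_le hc₀ (hn x (hGE hx)).1
    rcases i with i | k
    · fin_cases i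
      · have e : lf (vf b a c t₂ (Sum.inl 0)) (y x) = algebraMap K L₂ (w x a) := by
          simp [vf, lf_single, hy]
        change ‖lf (vf b a c t₂ (Sum.inl 0)) (y x)‖ ^ S.n₂ ≤ _
        rw [e, hun x hx]
        exact le_rfl
      · have e : lf (vf b a c t₂ (Sum.inl 1)) (y x) = algebraMap K L₂ (w x c) := by
          simp [vf, lf_single, hy]
        change ‖lf (vf b a c t₂ (Sum.inl 1)) (y x)‖ ^ S.n₂ ≤ _
        rw [e, hun x hx]
        exact le_rfl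
      · have e : lf (vf b a c t₂ (Sum.inl 2)) (y x) = algebraMap K L₂ (y x (emb b t₂.1)) := by
          simp [vf, lf_single]
        change ‖lf (vf b a c t₂ (Sum.inl 2)) (y x)‖ ^ S.n₂ ≤ C
        rw [e]
        rcases t₂.1 with _ | k
        · change ‖algebraMap K L₂ (w x b)‖ ^ S.n₂ ≤ C
          rw [hun x hx, inv_le_iff_one_le_mul₀ hN.b0]
          exact hN.b1
        · refine le_trans (pow_le_pow_left₀ (norm_nonneg _)
            ((le_nrm x k).trans (hn x (hGE hx)).2) _) ?_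
          linarith
    · change ‖lf (t₂.2 k) (y x)‖ ^ S.n₂ ≤ C / (‖algebraMap K L₁ (w x c)‖ ^ S.n₁) ^ 2
      have hc0 := hN.c0
      rw [le_div_iff₀ (by positivity)]
      have h1 : (1 : ℝ) ≤ C₀ ^ 2 := one_le_pow₀ hC₀
      have h2 := good_bound (n := S.n₂) (κ := C₀ ^ 2)
        (W := (‖algebraMap K L₁ (w x c)‖ ^ S.n₁)⁻¹)
        (norm_nonneg _) (nrm_nonneg (L := L₂) x) (norm_nonneg _) (norm_nonneg _) hE₂.le
        (hr₂ x hx k)
        (by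
          rw [hun x hx]
          refine hN₀.ex.trans ?_
          rw [div_le_iff₀ hX0]
          calc C₀ = C₀ * (‖algebraMap K L₁ (w x c)‖ ^ S.n₁ *
                (‖algebraMap K L₁ (w x c)‖ ^ S.n₁)⁻¹) := by
                rw [mul_inv_cancel₀ hc0.ne', mul_one]
            _ ≤ C₀ * (C₀ * nrm L₁ x ^ S.n₁ * (‖algebraMap K L₁ (w x c)‖ ^ S.n₁)⁻¹) := by
                apply mul_le_mul_of_nonneg_left _ hN₀.C0.le
                exact mul_le_mul_of_nonneg_right hN₀.c2 (by positivity)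
            _ = _ := by ring)
        (by
          rw [hun x hx]
          exact le_mul_of_one_le_left (by positivity) h1)
      have h3 : ‖lf (t₂.2 k) (y x)‖ ^ S.n₂ * c₀ ^ S.n₂ ≤
          E₂ ^ S.n₂ * (C₀ ^ 2 * (‖algebraMap K L₁ (w x c)‖ ^ S.n₁)⁻¹) ^ 2 := by
        refine le_trans ?_ h2
        apply mul_le_mul_of_nonneg_left _ (by positivity)
        exact pow_le_pow_left₀ hc₀.le (hn x (hGE hx)).1 _
      have h4 : c₀ ^ S.n₂ * (c₀⁻¹) ^ S.n₂ = 1 := by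
        rw [← mul_pow, mul_inv_cancel₀ hc₀.ne', one_pow]
      calc ‖lf (t₂.2 k) (y x)‖ ^ S.n₂ * (‖algebraMap K L₁ (w x c)‖ ^ S.n₁) ^ 2
          = (‖lf (t₂.2 k) (y x)‖ ^ S.n₂ * c₀ ^ S.n₂) * ((c₀⁻¹) ^ S.n₂ *
              (‖algebraMap K L₁ (w x c)‖ ^ S.n₁) ^ 2) := by
            calc _ = ‖lf (t₂.2 k) (y x)‖ ^ S.n₂ * (‖algebraMap K L₁ (w x c)‖ ^ S.n₁) ^ 2 * 1 :=
                  (mul_one _).symm
              _ = ‖lf (t₂.2 k) (y x)‖ ^ S.n₂ * (‖algebraMap K L₁ (w x c)‖ ^ S.n₁) ^ 2 *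
                  (c₀ ^ S.n₂ * (c₀⁻¹) ^ S.n₂) := by rw [h4]
              _ = _ := by ring
        _ ≤ (E₂ ^ S.n₂ * (C₀ ^ 2 * (‖algebraMap K L₁ (w x c)‖ ^ S.n₁)⁻¹) ^ 2) *
            ((c₀⁻¹) ^ S.n₂ * (‖algebraMap K L₁ (w x c)‖ ^ S.n₁) ^ 2) :=
            mul_le_mul_of_nonneg_right h3 (by positivity)
        _ = E₂ ^ S.n₂ * (C₀ ^ 2) ^ 2 * (c₀⁻¹) ^ S.n₂ *
            ((‖algebraMap K L₁ (w x c)‖ ^ S.n₁)⁻¹ * ‖algebraMap K L₁ (w x c)‖ ^ S.n₁) ^ 2 := by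
            ring
        _ = E₂ ^ S.n₂ * (C₀ ^ 2) ^ 2 * (c₀⁻¹) ^ S.n₂ := by
            rw [inv_mul_cancel₀ hc0.ne', one_pow, mul_one]
        _ ≤ C := by linarith
  -- integrality and membership
  have hyO : ∀ x ∈ G, ∀ m, y x m ∈ S.O := by
    intro x hx m
    rcases m with k | i
    · exact hO x (hGE hx) k
    · obtain ⟨q, hq⟩ := hw x (hGE hx) i
      change w x i ∈ S.O
      rw [hq]
      exact S.εO q
  have hyV : ∀ x ∈ G, y x ∈ V := fun x hx => Submodule.subset_span ⟨x, hGE' hx, rfl⟩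
  have hlarge : ∀ G' ⊆ G, Dn P G' → ∀ B : ℝ, Dn P {x | x ∈ G' ∧ B ≤ nrm L₁ x ^ S.n₁} :=
    fun G' hG' hD' B => S.large hP hpt hD' (fun x hx => hO x (hGE (hG' hx))) c₀⁻¹
      (fun x hx => (hn x (hGE (hG' hx))).2) B
  have hGne : G.Nonempty := by
    by_contra h
    rw [Set.not_nonempty_iff_eq_empty] at h
    rw [h] at hD₂
    exact not_dn_empty hP hD₂
  -- the rank
  obtain ⟨hV3, hV3'⟩ := rank_part V Λ (by
    intro e he
    rw [hΛ]
    apply hD₂.mem_of_forall (e := 1)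
    · apply IsHomogeneous.sum
      intro i _
      have := (isHomogeneous_C (Fin (N + 1)) (e i)).mul (isHomogeneous_X K i)
      simpa using this
    · intro x hx
      rw [map_sum]
      have := he (y x) (hyV x hx)
      simpa [hy] using this) hΛ3
  by_cases hV : Module.finrank K V = 3
  · obtain ⟨h1, h2⟩ := hV3' hV
    refine ⟨h1, ?_⟩
    choose l hl using h2
    refine ⟨l, fun i => ?_⟩
    apply hD₂.mem_of_forall (e := d i)
    · apply (hF i).sub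
      have h3 : (∑ k, C (l i k) * X k : MvPolynomial (Fin (N + 1)) K).IsHomogeneous 1 := by
        apply IsHomogeneous.sum
        intro k _
        have := (isHomogeneous_C (Fin (N + 1)) (l i k)).mul (isHomogeneous_X K k)
        simpa using this
      have := (isHomogeneous_C (Fin (N + 1)) (D i)).mul (h3.pow (d i))
      simpa using this
    · intro x hx
      rw [map_sub, hev x (hGE hx) i, map_mul, map_pow, map_sum, eval_C]
      have := hl i (y x) (hyV x hx)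
      simp only [map_mul, eval_C, eval_X]
      change w x i = ∑ k, l i k * x k at this
      rw [this, sub_self]
  · exfalso
    have hVs' : ∀ G' ⊆ G, ∀ G'' ⊆ G', Dn P G'' → Submodule.span K (y '' G'') = V :=
      fun G' hG' G'' hG'' hD'' => hVs G'' (hG''.trans hG') hD''
    -- finishing tool
    have fin : ∀ G' ⊆ G, Dn P G' → ∀ C, C₁ ≤ C → ∀ (s₁ r₁ s₂ r₂ : Finset (IN N)),
        Forms V (vf a b c t₁) s₁ r₁ → Forms V (vf b a c t₂) s₂ r₂ → ∀ C' : ℝ,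
        (∀ x ∈ G', C ≤ nrm L₁ x ^ S.n₁ → ∀ u₁ u₂ : Finset (IN N), s₁ ⊆ u₁ → u₁ ⊆ r₁ →
          s₂ ⊆ u₂ → u₂ ⊆ r₂ → u₁.card = Module.finrank K V → u₂.card = Module.finrank K V →
          (∏ i ∈ u₁, beta₁ N C (nrm L₁ x ^ S.n₁)
            (‖algebraMap K L₁ (w x b)‖ ^ S.n₁) (‖algebraMap K L₁ (w x c)‖ ^ S.n₁) i) *
          (∏ i ∈ u₂, beta₂ N C
            (‖algebraMap K L₁ (w x a)‖ ^ S.n₁) (‖algebraMap K L₁ (w x c)‖ ^ S.n₁) i) ≤
            C' * (nrm L₁ x ^ S.n₁)⁻¹) → False := by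
      intro G' hG' hD' C hC s₁ r₁ s₂ r₂ hf₁ hf₂ C' hprod
      have hD'' := hlarge G' hG' hD' C
      exact S.apply hsub hP y {x | x ∈ G' ∧ C ≤ nrm L₁ x ^ S.n₁} hD'' V
        (fun G'' hG'' hDG => hVs G'' (fun x hx => hG' (hG'' hx).1) hDG)
        (by omega)
        (fun x hx => hyO x (hG' hx.1)) (fun x => nrm L₁ x ^ S.n₁)
        (fun B => by
          have := hlarge _ (fun x hx => hG' hx.1) hD'' B
          exact this)
        (vf a b c t₁) s₁ r₁ hf₁ (vf b a c t₂) s₂ r₂ hf₂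
        (fun x => beta₁ N C (nrm L₁ x ^ S.n₁)
            (‖algebraMap K L₁ (w x b)‖ ^ S.n₁) (‖algebraMap K L₁ (w x c)‖ ^ S.n₁))
        (fun x => beta₂ N C
            (‖algebraMap K L₁ (w x a)‖ ^ S.n₁) (‖algebraMap K L₁ (w x c)‖ ^ S.n₁)) 4
        (fun x hx => hβ₁ x (hG' hx.1) C hC hx.2)
        (fun x hx => hβ₂ x (hG' hx.1) C hC hx.2)
        (fun x hx => beta₁_two (hnum x (hG' hx.1) C hC hx.2))
        (fun x hx => beta₂_two (hnum x (hG' hx.1) C hC hx.2))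
        C' (fun x hx => hprod x hx.1 hx.2)
    obtain ⟨m, hm⟩ : ∃ m, Module.finrank K V = m + 4 := ⟨Module.finrank K V - 4, by omega⟩
    obtain ⟨x₀, hx₀⟩ := hGne
    have hb₀ : y x₀ (Sum.inr b) ≠ 0 := hw0 x₀ (hGE hx₀) b
    have ha₀ : y x₀ (Sum.inr a) ≠ 0 := hw0 x₀ (hGE hx₀) a
    have habc' : ∀ i : Fin 3, i = b ∨ i = a ∨ i = c := fun i => by
      rcases habc i with h | h | h <;> tauto
    by_cases hcb : ∃ κ : K, Dn P {x | x ∈ G ∧ w x c = κ * w x b}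
    · -- case a
      obtain ⟨κ, hκ⟩ := hcb
      have hsubG : {x | x ∈ G ∧ w x c = κ * w x b} ⊆ G := fun x hx => hx.1
      have hrelV : ∀ z ∈ V, z (Sum.inr c) = κ * z (Sum.inr b) := by
        intro z hz
        rw [← hVs _ hsubG hκ] at hz
        have := rel_on_span y (Pi.single (Sum.inr c) 1 - κ • Pi.single (Sum.inr b) 1) (by
          intro x hx
          rw [rel_sum b c hbc, sub_eq_zero]
          exact hx.2) z hz
        rw [rel_sum b c hbc, sub_eq_zero] at this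
        exact this
      set C : ℝ := C₁ * (1 + ‖algebraMap K L₁ κ‖ ^ S.n₁) with hCdef
      have hC₁0 : 0 < C₁ := by linarith
      have hCC : C₁ ≤ C := by
        rw [hCdef]
        exact le_mul_of_one_le_right hC₁0.le (by
          have : 0 ≤ ‖algebraMap K L₁ κ‖ ^ S.n₁ := by positivity
          linarith)
      refine fin _ hsubG hκ C hCC {Sum.inl 0} (Finset.univ.erase (Sum.inl 1)) {Sum.inl 0}
        Finset.univ (forms_prop V habc hta₁ htf₁ (y x₀) (hyV x₀ hx₀) hb₀ κ hrelV)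
        (forms_one V habc' hta₂ htf₂ (y x₀) (hyV x₀ hx₀) ha₀)
        (C ^ 8 * (C ^ 6) ^ (m + 1 + 1)) ?_
      intro x hx hCX u₁ u₂ hs₁ hu₁ hs₂ hu₂ hc₁ hc₂
      have hN := hnum x hx.1 C hCC hCX
      have hN₁ := hnum x hx.1 C₁ le_rfl (hCC.trans hCX)
      refine prods_a hN ?_ u₁ u₂ hs₁ hu₁ hs₂ (m + 1) (by omega) (by omega)
      rw [hx.2, map_mul, norm_mul, mul_pow, hCdef]
      calc ‖algebraMap K L₁ κ‖ ^ S.n₁ * ‖algebraMap K L₁ (w x b)‖ ^ S.n₁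
          ≤ ‖algebraMap K L₁ κ‖ ^ S.n₁ * C₁ :=
            mul_le_mul_of_nonneg_left hN₁.b2 (by positivity)
        _ ≤ C₁ * (1 + ‖algebraMap K L₁ κ‖ ^ S.n₁) := by nlinarith
    by_cases hca : ∃ κ : K, Dn P {x | x ∈ G ∧ w x c = κ * w x a}
    · -- case b
      obtain ⟨κ, hκ⟩ := hca
      have hsubG : {x | x ∈ G ∧ w x c = κ * w x a} ⊆ G := fun x hx => hx.1
      have hrelV : ∀ z ∈ V, z (Sum.inr c) = κ * z (Sum.inr a) := by
        intro z hz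
        rw [← hVs _ hsubG hκ] at hz
        have := rel_on_span y (Pi.single (Sum.inr c) 1 - κ • Pi.single (Sum.inr a) 1) (by
          intro x hx
          rw [rel_sum a c hac, sub_eq_zero]
          exact hx.2) z hz
        rw [rel_sum a c hac, sub_eq_zero] at this
        exact this
      have hκ0 : κ ≠ 0 := by
        intro h0
        have h1 := hrelV (y x₀) (hyV x₀ hx₀)
        rw [h0, zero_mul] at h1
        exact hw0 x₀ (hGE hx₀) c h1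
      have hκn : 0 < ‖algebraMap K L₁ κ‖ ^ S.n₁ := by
        have : 0 < ‖algebraMap K L₁ κ‖ := norm_pos_iff.mpr
          (by rw [Ne, map_eq_zero_iff _ (algebraMap K L₁).injective]; exact hκ0)
        positivity
      set C : ℝ := C₁ * (1 + (‖algebraMap K L₁ κ‖ ^ S.n₁)⁻¹) with hCdef
      have hC₁0 : 0 < C₁ := by linarith
      have hCC : C₁ ≤ C := by
        rw [hCdef]
        exact le_mul_of_one_le_right hC₁0.le (by
          have : 0 ≤ (‖algebraMap K L₁ κ‖ ^ S.n₁)⁻¹ := by positivity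
          linarith)
      refine fin _ hsubG hκ C hCC {Sum.inl 0} Finset.univ {Sum.inl 0}
        (Finset.univ.erase (Sum.inl 1))
        (forms_one V habc hta₁ htf₁ (y x₀) (hyV x₀ hx₀) hb₀)
        (forms_prop V habc' hta₂ htf₂ (y x₀) (hyV x₀ hx₀) ha₀ κ hrelV)
        (C ^ 8 * (C ^ 6) ^ (m + 1 + 1)) ?_
      intro x hx hCX u₁ u₂ hs₁ hu₁ hs₂ hu₂ hc₁ hc₂
      have hN := hnum x hx.1 C hCC hCX
      have hN₁ := hnum x hx.1 C₁ le_rfl (hCC.trans hCX)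
      refine prods_b hN ?_ u₁ u₂ hs₁ hs₂ hu₂ (m + 1) (by omega) (by omega)
      rw [hx.2, map_mul, norm_mul, mul_pow, hCdef]
      have hA0 := hN₁.a0
      calc nrm L₁ x ^ S.n₁ ≤ C₁ * ‖algebraMap K L₁ (w x a)‖ ^ S.n₁ := hN₁.a1
        _ = C₁ * (‖algebraMap K L₁ κ‖ ^ S.n₁)⁻¹ *
            (‖algebraMap K L₁ κ‖ ^ S.n₁ * ‖algebraMap K L₁ (w x a)‖ ^ S.n₁) := by
            field_simp
        _ ≤ C₁ * (1 + (‖algebraMap K L₁ κ‖ ^ S.n₁)⁻¹) *
            (‖algebraMap K L₁ κ‖ ^ S.n₁ * ‖algebraMap K L₁ (w x a)‖ ^ S.n₁) := by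
            apply mul_le_mul_of_nonneg_right _ (by positivity)
            apply mul_le_mul_of_nonneg_left _ hC₁0.le
            linarith
    · -- case c
      refine fin G subset_rfl hD₂ C₁ le_rfl {Sum.inl 0, Sum.inl 1} Finset.univ
        {Sum.inl 0, Sum.inl 1} Finset.univ
        (forms_two V habc hta₁ htf₁ G y hyV ⟨x₀, hx₀⟩ (fun x hx => hw0 x (hGE hx) b) ?_)
        (forms_two V habc' hta₂ htf₂ G y hyV ⟨x₀, hx₀⟩ (fun x hx => hw0 x (hGE hx) a) ?_)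
        (C₁ ^ 8 * (C₁ ^ 2) ^ (m + 1)) ?_
      · rintro ⟨κ, hκ⟩
        exact hcb ⟨κ, hD₂.mono (fun x hx => ⟨hx, hκ x hx⟩)⟩
      · rintro ⟨κ, hκ⟩
        exact hca ⟨κ, hD₂.mono (fun x hx => ⟨hx, hκ x hx⟩)⟩
      · intro x hx hCX u₁ u₂ hs₁ hu₁ hs₂ hu₂ hc₁ hc₂
        exact prods_c (hnum x hx C₁ le_rfl hCX) u₁ u₂ hs₁ hs₂ m (by omega) (by omega)

end Pool.Agent.Helper10.Sub
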