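import Pool.Agent.Helper10.Sub.Main3

/-!
# Surfaces minus three hypersurface sections, two places: the general statement
-/

set_option autoImplicit false

namespace Pool.Agent.Helper10.Sub

open MvPolynomial

variable {K L₁ L₂ : Type} [Field K] [CharZero K] [NontriviallyNormedField L₁] [ProperSpace L₁]
  [NontriviallyNormedField L₂] [ProperSpace L₂] [Algebra K L₁] [Algebra K L₂] {N : ℕ}

lemma third : ∀ i j : Fin 3, i ≠ j → ∃ c, (∀ k, k = i ∨ k = j ∨ k = c) ∧ i ≠ c ∧ j ≠ c := by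
  decide

lemma other : ∀ i : Fin 3, ∃ j : Fin 3, i ≠ j := by
  decide

/-- Lower bound at a place from the emptiness of the triple intersection. -/
lemma lower {L : Type} [NontriviallyNormedField L] [ProperSpace L] [Algebra K L]
    (P : Ideal (MvPolynomial (Fin (N + 1)) K))
    (hPh : ∀ f ∈ P, ∀ n, homogeneousComponent n f ∈ P)
    (F : Fin 3 → MvPolynomial (Fin (N + 1)) K) (d : Fin 3 → ℕ)
    (hF : ∀ i, (F i).IsHomogeneous (d i))
    (hempty : ∀ A : Fin (N + 1) → L, OnV (P : Set (MvPolynomial (Fin (N + 1)) K)) A →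
      (∀ i, aeval A (F i) = 0) → A = 0) :
    ∃ η : ℝ, 0 < η ∧ ∀ x : Fin (N + 1) → K, x ≠ 0 →
      OnV (P : Set (MvPolynomial (Fin (N + 1)) K)) x →
      ∃ i, η * nrm L x ^ d i ≤ ‖algebraMap K L (eval x (F i))‖ := by
  obtain ⟨η, hη, h⟩ := loc0 (L := L) (homEl P) (fun f hf => hf.2) F d hF (by
    intro A hA hOn
    by_contra hcon
    push Not at hcon
    apply hA
    apply hempty A _ hcon
    have h1 : OnV (homEl P ∪ ∅) A := by
      rintro f (hf | hf)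
      · exact hOn f hf
      · exact absurd hf (Set.notMem_empty f)
    have h2 := onV_homEl hPh h1
    exact fun f hf => h2 f (Or.inl hf))
  refine ⟨η, hη, fun x hx hxP => ?_⟩
  obtain ⟨i, hi⟩ := h (fun k => algebraMap K L (x k)) (by
    intro h0
    apply hx
    funext k
    exact (map_eq_zero_iff _ (algebraMap K L).injective).mp (congrFun h0 k)) (by
    intro f hf
    rw [aeval_alg]
    have := hxP f hf.1
    rw [aeval_self'] at this
    rw [this, map_zero])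
  rw [aeval_alg] at hi
  exact ⟨i, hi⟩

/-- **Main theorem, abstract two-place form.** -/
theorem nonDense (S : TwoPl K L₁ L₂) (hsub : S.SubHyp) {Ω : Type} [Field Ω] [IsAlgClosed Ω]
    [Algebra K Ω] (P : Ideal (MvPolynomial (Fin (N + 1)) K)) (hP : P.IsPrime)
    (hPh : ∀ f ∈ P, ∀ n, homogeneousComponent n f ∈ P)
    (hdim : ringKrullDim (MvPolynomial (Fin (N + 1)) K ⧸ P) = 3)
    (F : Fin 3 → MvPolynomial (Fin (N + 1)) K) (d : Fin 3 → ℕ) (hd : ∀ i, 1 ≤ d i)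
    (hF : ∀ i, (F i).IsHomogeneous (d i))
    (hempty : ∀ A : Fin (N + 1) → Ω, OnV (P : Set (MvPolynomial (Fin (N + 1)) K)) A →
      (∀ i, aeval A (F i) = 0) → A = 0)
    (hred : ∀ i j, i ≠ j → ∀ A : Fin (N + 1) → Ω, A ≠ 0 →
      OnV ((P : Set (MvPolynomial (Fin (N + 1)) K)) ∪ {F i, F j}) A →
      Jac ((P : Set (MvPolynomial (Fin (N + 1)) K)) ∪ {F i, F j}) A)
    (hexc : (∃ i, d i ≠ 1) ∨ ∀ Λ : Set (MvPolynomial (Fin (N + 1)) K),
      (∀ f ∈ Λ, f.IsHomogeneous 1) → P ≠ Ideal.span Λ)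
    (E : Set (Fin (N + 1) → K)) (hO : ∀ x ∈ E, ∀ k, x k ∈ S.O)
    (hX : ∀ x ∈ E, OnV (P : Set (MvPolynomial (Fin (N + 1)) K)) x)
    (𝒞 : Finset K) (h𝒞 : ∀ c ∈ 𝒞, c ≠ 0)
    (hint : ∀ x ∈ E, ∀ i, ∃ c ∈ 𝒞, ∃ q : ℤ, eval x (F i) = c * (S.ε ^ q) ^ d i)
    (c₀ : ℝ) (hc₀ : 0 < c₀) (hn : ∀ x ∈ E, c₀ ≤ nrm L₂ x ∧ nrm L₂ x ≤ c₀⁻¹) : ¬ Dn P E := by
  classical
  intro hE
  -- linear forms
  let Λ : Submodule K (Fin (N + 1) → K) :=
    { carrier := {c | (∑ i, C (c i) * X i : MvPolynomial (Fin (N + 1)) K) ∈ P}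
      add_mem' := by
        intro c c' hc hc'
        simp only [Set.mem_ofPred_eq, Pi.add_apply, map_add, add_mul, Finset.sum_add_distrib]
        exact P.add_mem hc hc'
      zero_mem' := by simp
      smul_mem' := by
        intro r c hc
        simp only [Set.mem_ofPred_eq, Pi.smul_apply, smul_eq_mul, map_mul, mul_assoc,
          ← Finset.mul_sum]
        exact P.mul_mem_left _ hc }
  have hΛ : ∀ c, c ∈ Λ ↔ (∑ i, C (c i) * X i : MvPolynomial (Fin (N + 1)) K) ∈ P :=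
    fun c => Iff.rfl
  obtain ⟨hΛ3, hΛ3'⟩ := dimPart P hP hdim Λ hΛ
  have hpt := exists_hyperplane Λ hΛ hΛ3
  have hεL : 1 < ‖algebraMap K L₁ S.ε‖ := S.hε
  -- transfers
  have hE0 : ∀ A : Fin (N + 1) → Ω,
      OnV ((P : Set (MvPolynomial (Fin (N + 1)) K)) ∪ Set.range F) A → A = 0 :=
    fun A hA => hempty A (fun f hf => hA f (Or.inl hf)) (fun i => hA _ (Or.inr ⟨i, rfl⟩))
  have hempty₁ : ∀ A : Fin (N + 1) → L₁, OnV (P : Set (MvPolynomial (Fin (N + 1)) K)) A →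
      (∀ i, aeval A (F i) = 0) → A = 0 := by
    intro A hA hAF
    apply transfer0 _ hE0 A
    rintro f (hf | ⟨i, rfl⟩)
    · exact hA f hf
    · exact hAF i
  have hempty₂ : ∀ A : Fin (N + 1) → L₂, OnV (P : Set (MvPolynomial (Fin (N + 1)) K)) A →
      (∀ i, aeval A (F i) = 0) → A = 0 := by
    intro A hA hAF
    apply transfer0 _ hE0 A
    rintro f (hf | ⟨i, rfl⟩)
    · exact hA f hf
    · exact hAF i
  have hred₁ : ∀ i j, i ≠ j → ∀ A : Fin (N + 1) → L₁, A ≠ 0 →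
      OnV ((P : Set (MvPolynomial (Fin (N + 1)) K)) ∪ {F i, F j}) A →
      Jac ((P : Set (MvPolynomial (Fin (N + 1)) K)) ∪ {F i, F j}) A :=
    fun i j hij A hA hOn => transfer _ (hred i j hij) A hA hOn
  have hred₂ : ∀ i j, i ≠ j → ∀ A : Fin (N + 1) → L₂, A ≠ 0 →
      OnV ((P : Set (MvPolynomial (Fin (N + 1)) K)) ∪ {F i, F j}) A →
      Jac ((P : Set (MvPolynomial (Fin (N + 1)) K)) ∪ {F i, F j}) A :=
    fun i j hij A hA hOn => transfer _ (hred i j hij) A hA hOn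
  obtain ⟨η₁, hη₁, hl₁⟩ := lower (L := L₁) P hPh F d hF hempty₁
  obtain ⟨η₂, hη₂, hl₂⟩ := lower (L := L₂) P hPh F d hF hempty₂
  have hxne : ∀ x ∈ E, x ≠ 0 := by
    intro x hx h0
    have h1 := (hn x hx).1
    have h2 : nrm L₂ x = 0 := by
      rw [h0, nrm]
      simp only [Pi.zero_apply, map_zero]
      exact norm_zero
    linarith
  -- fix the constants
  obtain ⟨D, hD𝒞, hE₁⟩ := hE.partition hP (Fintype.piFinset (fun _ : Fin 3 => 𝒞))
    (fun D x => ∀ i, ∃ q : ℤ, eval x (F i) = D i * (S.ε ^ q) ^ d i) (by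
      intro x hx
      choose c hc q hq using hint x hx
      exact ⟨c, Fintype.mem_piFinset.mpr hc, fun i => ⟨q i, hq i⟩⟩)
  rw [Fintype.mem_piFinset] at hD𝒞
  have hD : ∀ i, D i ≠ 0 := fun i => h𝒞 _ (hD𝒞 i)
  set E₁ : Set (Fin (N + 1) → K) := _ with hE₁def
  change Dn P E₁ at hE₁
  have hq' : ∀ x ∈ E₁, ∀ i, ∃ q : ℤ, eval x (F i) = D i * (S.ε ^ q) ^ d i := fun x hx => hx.2
  choose! q hq using hq'
  -- fix the two indices
  obtain ⟨⟨a, b⟩, hE₂⟩ := hE₁.partition' hP (fun (ab : Fin 3 × Fin 3) x =>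
      η₁ * nrm L₁ x ^ d ab.1 ≤ ‖algebraMap K L₁ (eval x (F ab.1))‖ ∧
      η₂ * nrm L₂ x ^ d ab.2 ≤ ‖algebraMap K L₂ (eval x (F ab.2))‖) (by
    intro x hx
    obtain ⟨i, hi⟩ := hl₁ x (hxne x hx.1) (hX x hx.1)
    obtain ⟨j, hj⟩ := hl₂ x (hxne x hx.1) (hX x hx.1)
    exact ⟨(i, j), hi, hj⟩)
  set E₂ : Set (Fin (N + 1) → K) := _ with hE₂def
  change Dn P E₂ at hE₂
  have hE₂₁ : ∀ x ∈ E₂, x ∈ E₁ := fun x hx => hx.1
  have hE₂₀ : ∀ x ∈ E₂, x ∈ E := fun x hx => hx.1.1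
  have hη : 0 < min η₁ η₂ := lt_min hη₁ hη₂
  have hla : ∀ x ∈ E₂, min η₁ η₂ * nrm L₁ x ^ d a ≤ ‖algebraMap K L₁ (eval x (F a))‖ := by
    intro x hx
    refine le_trans ?_ hx.2.1
    exact mul_le_mul_of_nonneg_right (min_le_left _ _) (pow_nonneg (nrm_nonneg _) _)
  have hlb : ∀ x ∈ E₂, min η₁ η₂ * nrm L₂ x ^ d b ≤ ‖algebraMap K L₂ (eval x (F b))‖ := by
    intro x hx
    refine le_trans ?_ hx.2.2
    exact mul_le_mul_of_nonneg_right (min_le_right _ _) (pow_nonneg (nrm_nonneg _) _)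
  have hab : a ≠ b := by
    rintro rfl
    obtain ⟨C₀, hC₀, hnum⟩ := S.consts F d hd hF D hD a a a E₂ (fun x i => S.ε ^ (q x i))
      (fun x _ i => ⟨q x i, rfl⟩) (fun x hx i => hq x (hE₂₁ x hx) i) c₀ hc₀
      (fun x hx => hn x (hE₂₀ x hx)) (min η₁ η₂) hη hla hlb
    have hbig := S.large hP hpt hE₂ (fun x hx => hO x (hE₂₀ x hx)) c₀⁻¹
      (fun x hx => (hn x (hE₂₀ x hx)).2) (C₀ ^ 2 + C₀)
    obtain ⟨x, ⟨hx, hxB⟩, -⟩ := hbig 1 0 (isHomogeneous_one _ _) (fun h1 => hP.ne_top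
      ((Ideal.eq_top_iff_one P).mpr h1))
    have hN := hnum x hx C₀ le_rfl (by nlinarith)
    have h1 := hN.a1
    have h2 := hN.b2
    nlinarith
  obtain ⟨c, habc, hac, hbc⟩ := third a b hab
  obtain ⟨h3, l, hl⟩ := core S hsub P hP hPh F d hd hF D hD Λ hΛ hΛ3 a b c habc hac hbc
    hempty₁ hempty₂ (hred₁ b c hbc) (hred₂ a c hac) E₂ hE₂ (fun x i => S.ε ^ (q x i))
    (fun x _ i => ⟨q x i, rfl⟩) (fun x hx i => hq x (hE₂₁ x hx) i)
    (fun x hx => hO x (hE₂₀ x hx)) (fun x hx => hX x (hE₂₀ x hx)) c₀ hc₀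
    (fun x hx => hn x (hE₂₀ x hx)) (min η₁ η₂) hη hla hlb
  have hPs := hΛ3' h3
  have hlin : ∀ e : Fin (N + 1) → K,
      (∑ k, C (e k) * X k : MvPolynomial (Fin (N + 1)) K).IsHomogeneous 1 := by
    intro e
    apply IsHomogeneous.sum
    intro k _
    have := (isHomogeneous_C (Fin (N + 1)) (e k)).mul (isHomogeneous_X K k)
    simpa using this
  by_cases hall : ∃ i, d i ≠ 1
  · obtain ⟨i, hi⟩ := hall
    obtain ⟨j, hij⟩ := other i
    obtain ⟨A, hA, hOn, hJ⟩ := plane (Ω := Ω) P Λ h3 hPs (F i) (F j)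
      (∑ k, C (l i k) * X k) (d i) (d j) (by have := hd i; omega) (hd j) (hF j) (hlin _) (D i)
      (hl i)
    exact hJ (hred i j hij A hA hOn)
  · rcases hexc with h | h
    · exact hall h
    · apply h _ _ hPs
      rintro f ⟨e, -, rfl⟩
      exact hlin e

end Pool.Agent.Helper10.Sub
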