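import Pool.Agent.Helper10.Sub.Main4

/-!
# Planes in the surface: the degrees are one
-/

set_option autoImplicit false

namespace Pool.Agent.Helper10.Sub

open MvPolynomial

/-- Chain rule. -/
lemma derivative_aeval {K κ : Type} [Field K] [Fintype κ] [DecidableEq κ] (ξ : κ → Polynomial K)
    (f : MvPolynomial κ K) :
    Polynomial.derivative (aeval ξ f) = ∑ i, aeval ξ (pderiv i f) * Polynomial.derivative (ξ i) := by
  induction f using MvPolynomial.induction_on with
  | C a => simp
  | add p q hp hq =>
    simp only [map_add, hp, hq, add_mul, Finset.sum_add_distrib]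
  | mul_X p i hp =>
    simp only [map_mul, aeval_X, Polynomial.derivative_mul, hp, Derivation.leibniz, pderiv_X,
      smul_eq_mul, map_add, add_mul, Finset.sum_add_distrib]
    rw [add_comm]
    congr 1
    · rw [Finset.sum_eq_single i]
      · simp
      · intro j _ hj
        simp [hj.symm]
      · intro h; exact absurd (Finset.mem_univ _) h
    · rw [Finset.sum_mul]
      exact Finset.sum_congr rfl fun j _ => by ring

lemma dif_of_line {K κ : Type} [Field K] [Infinite K] [Fintype κ] [DecidableEq κ]
    (f : MvPolynomial κ K) (A v : κ → K) (c : K) (n : ℕ) (hn : n ≠ 1)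
    (h : ∀ t : K, eval (A + t • v) f = c * t ^ n) : dif f A v = 0 := by
  classical
  set ξ : κ → Polynomial K := fun i => Polynomial.C (A i) + Polynomial.C (v i) * Polynomial.X
    with hξ
  have hev : ∀ (g : MvPolynomial κ K) (t : K), (aeval ξ g).eval t = eval (A + t • v) g := by
    intro g t
    have h2 := (map_aeval ξ (Polynomial.evalRingHom t) g)
    rw [Polynomial.coe_evalRingHom] at h2
    have h3 : (A + t • v) = fun i => (ξ i).eval t := by
      funext i
      simp only [hξ, Pi.add_apply, Pi.smul_apply, smul_eq_mul, Polynomial.eval_add,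
        Polynomial.eval_mul, Polynomial.eval_C, Polynomial.eval_X]
      ring
    have h4 : (Polynomial.evalRingHom t).comp (algebraMap K (Polynomial K)) = RingHom.id K := by
      ext a; simp
    rw [h2, h3, h4]
    rfl
  have h1 : aeval ξ f = Polynomial.C c * Polynomial.X ^ n := by
    apply Polynomial.funext
    intro t
    rw [hev, h]
    simp
  have h2 := derivative_aeval ξ f
  have h3 := congrArg (Polynomial.eval 0) h2
  rw [h1] at h3
  have h4 : Polynomial.eval 0 (Polynomial.derivative (Polynomial.C c * Polynomial.X ^ n)) = 0 := by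
    rw [Polynomial.derivative_C_mul, Polynomial.derivative_X_pow]
    rcases n with _ | _ | n
    · simp
    · exact absurd rfl hn
    · simp
  rw [h4, Polynomial.eval_finsetSum] at h3
  rw [dif, h3]
  apply Finset.sum_congr rfl
  intro i _
  rw [Polynomial.eval_mul, hev, zero_smul, add_zero]
  simp [hξ, aeval_self']

lemma aeval_algM {K Ω κ : Type} [Field K] [Field Ω] [Algebra K Ω] (f : MvPolynomial κ K)
    (A : κ → K) : aeval (fun i => algebraMap K Ω (A i)) f = algebraMap K Ω (eval A f) := by
  have h := aeval_algebraMap_apply Ω A f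
  rw [aeval_self'] at h
  exact h

lemma dif_algebraMap {K Ω κ : Type} [Field K] [Field Ω] [Algebra K Ω] [Fintype κ]
    (f : MvPolynomial κ K) (A v : κ → K) :
    dif f (fun i => algebraMap K Ω (A i)) (fun i => algebraMap K Ω (v i)) =
      algebraMap K Ω (dif f A v) := by
  simp only [dif, aeval_algM, aeval_self', map_sum, map_mul]

variable {K : Type} [Field K] [CharZero K] {N : ℕ}

/-- If the scheme contains a plane in which the `F i` restrict to multiples of the coordinate
lines, then all degrees are one. -/
lemma plane_deg {Ω : Type} [Field Ω] [Algebra K Ω] (J₀ : Set (MvPolynomial (Fin (N + 1)) K))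
    (F : Fin 3 → MvPolynomial (Fin (N + 1)) K) (d : Fin 3 → ℕ) (hd : ∀ i, 1 ≤ d i)
    (hred : ∀ i j, i ≠ j → ∀ A : Fin (N + 1) → Ω, A ≠ 0 → OnV (J₀ ∪ {F i, F j}) A →
      Jac (J₀ ∪ {F i, F j}) A) (D : Fin 3 → K) (hD : ∀ i, D i ≠ 0)
    (l : Fin 3 → Fin (N + 1) → K)
    (hJ : ∀ u : Fin 3 → K, ∀ f ∈ J₀, eval (∑ i, u i • l i) f = 0)
    (hU : ∀ u : Fin 3 → K, ∀ i, eval (∑ i, u i • l i) (F i) = D i * u i ^ d i) :
    ∀ i, d i = 1 := by
  classical
  intro i
  by_contra hi
  obtain ⟨j, k, hij, hik, hjk⟩ : ∃ j k : Fin 3, i ≠ j ∧ i ≠ k ∧ j ≠ k := by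
    fin_cases i
    · exact ⟨1, 2, by decide, by decide, by decide⟩
    · exact ⟨0, 2, by decide, by decide, by decide⟩
    · exact ⟨0, 1, by decide, by decide, by decide⟩
  have hline : ∀ t : K, l k + t • l i = ∑ m, (Pi.single k 1 + t • Pi.single i 1 : Fin 3 → K) m • l m := by
    intro t
    simp only [Pi.add_apply, Pi.smul_apply, add_smul, Finset.sum_add_distrib]
    congr 1
    · rw [Finset.sum_eq_single k]
      · simp
      · intro m _ hm; simp [hm]
      · intro h; exact absurd (Finset.mem_univ _) h
    · rw [Finset.sum_eq_single i]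
      · simp
      · intro m _ hm; simp [hm]
      · intro h; exact absurd (Finset.mem_univ _) h
  have hlF : ∀ (t : K) (m : Fin 3), eval (l k + t • l i) (F m) =
      D m * ((Pi.single k 1 + t • Pi.single i 1 : Fin 3 → K) m) ^ d m := by
    intro t m
    rw [hline t, hU]
  have hlk : ∀ m, eval (l k) (F m) = D m * ((Pi.single k 1 : Fin 3 → K) m) ^ d m := by
    intro m
    have := hlF 0 m
    simpa using this
  have hd0 : ∀ m, d m ≠ 0 := fun m => by have := hd m; omega
  have hlk0 : l k ≠ 0 := by
    intro h0
    have h1 := hU 0 i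
    have h2 := hlk k
    rw [h0] at h2
    simp only [Pi.zero_apply, zero_smul, Finset.sum_const_zero] at h1
    have h3 := hU 0 k
    simp only [Pi.zero_apply, zero_smul, Finset.sum_const_zero] at h3
    rw [h3, zero_pow (hd0 k)] at h2
    simp only [Pi.single_eq_same, one_pow, mul_zero, mul_one] at h2
    exact hD k h2.symm
  have hAne : (fun m => algebraMap K Ω (l k m)) ≠ 0 := by
    intro h0
    apply hlk0
    funext m
    exact (map_eq_zero_iff _ (algebraMap K Ω).injective).mp (congrFun h0 m)
  obtain ⟨c, hc⟩ := hred i j hij (fun m => algebraMap K Ω (l k m)) hAne (by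
    rintro f (hf | hf)
    · rw [aeval_algM]
      have := hJ (Pi.single k 1) f hf
      have h2 := hline 0
      rw [zero_smul, zero_smul, add_zero, add_zero] at h2
      rw [← h2] at this
      rw [this, map_zero]
    · rw [Set.mem_insert_iff, Set.mem_singleton_iff] at hf
      rcases hf with rfl | rfl
      · rw [aeval_algM, hlk i, Pi.single_apply, if_neg hik, zero_pow (hd0 i), mul_zero, map_zero]
      · rw [aeval_algM, hlk j, Pi.single_apply, if_neg hjk, zero_pow (hd0 j), mul_zero, map_zero])
    (fun m => algebraMap K Ω (l i m)) (by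
    rintro f (hf | hf)
    · rw [dif_algebraMap, dif_of_line f (l k) (l i) 0 0 (by norm_num), map_zero]
      intro t
      rw [hline t, hJ _ f hf, zero_mul]
    · rw [Set.mem_insert_iff, Set.mem_singleton_iff] at hf
      rcases hf with rfl | rfl
      · rw [dif_algebraMap, dif_of_line (F i) (l k) (l i) (D i) (d i) hi, map_zero]
        intro t
        rw [hlF]
        simp [hik]
      · rw [dif_algebraMap, dif_of_line (F j) (l k) (l i) 0 0 (by norm_num), map_zero]
        intro t
        rw [hlF]
        simp [hjk, hij.symm, hd0 j])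
  -- contradiction
  have h5 : ∃ c' : K, l i = c' • l k := by
    obtain ⟨m, hm⟩ : ∃ m, l k m ≠ 0 := by
      by_contra hcon
      push Not at hcon
      exact hlk0 (funext hcon)
    refine ⟨l i m / l k m, ?_⟩
    funext n
    have h6 := congrFun hc m
    have h7 := congrFun hc n
    simp only [Pi.smul_apply, smul_eq_mul] at h6 h7
    apply (algebraMap K Ω).injective
    have h8 : algebraMap K Ω (l k m) ≠ 0 := by
      rw [Ne, map_eq_zero_iff _ (algebraMap K Ω).injective]; exact hm
    rw [Pi.smul_apply, smul_eq_mul, map_mul, map_div₀, h7, h6]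
    field_simp
  obtain ⟨c', hc'⟩ := h5
  have h9 : l i + (-c') • l k = 0 := by
    rw [hc', ← add_smul, add_neg_cancel, zero_smul]
  have h10 : l i + (-c') • l k =
      ∑ m, (Pi.single i 1 + (-c') • Pi.single k 1 : Fin 3 → K) m • l m := by
    simp only [Pi.add_apply, Pi.smul_apply, add_smul, Finset.sum_add_distrib]
    congr 1
    · rw [Finset.sum_eq_single i]
      · simp
      · intro m _ hm; simp [hm]
      · intro h; exact absurd (Finset.mem_univ _) h
    · rw [Finset.sum_eq_single k]
      · simp
      · intro m _ hm; simp [hm]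
      · intro h; exact absurd (Finset.mem_univ _) h
  have h11 := hU (Pi.single i 1 + (-c') • Pi.single k 1) i
  rw [← h10, h9] at h11
  have h12 := hU 0 i
  simp only [Pi.zero_apply, zero_smul, Finset.sum_const_zero] at h12
  rw [h12, zero_pow (hd0 i)] at h11
  simp [hik] at h11
  exact hD i h11.symm

end Pool.Agent.Helper10.Sub
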