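import Pool.Agent.Helper10.Sub.CoreInf
import Pool.Agent.Helper10.Sub.KEval

/-!
# From linear relations to curves parametrised by the multiplicative group
-/

set_option autoImplicit false

namespace Pool.Agent.Helper10.Sub

open MvPolynomial

section laurent
variable {K : Type} [Field K] {N : ℕ}

/-- The point with parameter `z` of the curve with data `l`, `p`. -/
def cpt (l : Fin 3 → Fin (N + 1) → K) (p : Fin 3 → ℤ) (z : K) : Fin (N + 1) → K :=
  ∑ i, z ^ (p i) • l i

/-- The curve, multiplied by a power of the parameter, is polynomial. -/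
lemma exists_poly (l : Fin 3 → Fin (N + 1) → K) (p : Fin 3 → ℤ) :
    ∃ (n : ℕ), (∀ i, 0 ≤ p i + n) ∧ ∃ ξ : Fin (N + 1) → Polynomial K, ∀ z : K, z ≠ 0 →
      (fun k => (ξ k).eval z) = z ^ n • cpt l p z := by
  classical
  set n : ℕ := ∑ i, (p i).natAbs with hn
  have hpos : ∀ i, 0 ≤ p i + n := by
    intro i
    have h1 : (p i).natAbs ≤ n :=
      Finset.single_le_sum (f := fun i => (p i).natAbs) (fun _ _ => Nat.zero_le _)
        (Finset.mem_univ i)
    omega
  refine ⟨n, hpos, fun k => ∑ i, Polynomial.C (l i k) * Polynomial.X ^ (p i + n).toNat, ?_⟩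
  intro z hz
  funext k
  simp only [cpt, Pi.smul_apply, Finset.sum_apply, smul_eq_mul, Polynomial.eval_finsetSum,
    Polynomial.eval_mul, Polynomial.eval_C, Polynomial.eval_pow, Polynomial.eval_X,
    Finset.mul_sum]
  apply Finset.sum_congr rfl
  intro i _
  have h2 : z ^ (p i + n).toNat = z ^ n * z ^ (p i) := by
    rw [← zpow_natCast z (p i + n).toNat, Int.toNat_of_nonneg (hpos i), zpow_add₀ hz,
      zpow_natCast, mul_comm]
  rw [h2]
  ring

/-- A homogeneous identity along the curve that holds for infinitely many parameters holds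
for all. -/
lemma identity (l : Fin 3 → Fin (N + 1) → K) (p : Fin 3 → ℤ) (f : MvPolynomial (Fin (N + 1)) K)
    (e : ℕ) (hf : f.IsHomogeneous e) (c : K) (j : Fin 3)
    (Z : Set K) (hZ : Z.Infinite)
    (h : ∀ z ∈ Z, z ≠ 0 → eval (cpt l p z) f = c * z ^ ((e : ℤ) * p j)) :
    ∀ z : K, z ≠ 0 → eval (cpt l p z) f = c * z ^ ((e : ℤ) * p j) := by
  classical
  obtain ⟨n, hn, ξ, hξ⟩ := exists_poly l p
  set H : Polynomial K := aeval ξ f - Polynomial.C c * Polynomial.X ^ (e * (p j + n).toNat)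
    with hH
  have hev : ∀ z : K, z ≠ 0 → H.eval z =
      (z ^ n) ^ e * (eval (cpt l p z) f - c * z ^ ((e : ℤ) * p j)) := by
    intro z hz
    have h1 : (aeval ξ f : Polynomial K).eval z = eval (fun k => (ξ k).eval z) f := by
      have h2 := (map_aeval ξ (Polynomial.evalRingHom z) f)
      rw [Polynomial.coe_evalRingHom] at h2
      rw [h2, eval, eval₂Hom_congr _ rfl rfl]
      ext a
      simp
    rw [hH, Polynomial.eval_sub, h1, hξ z hz, hf.eval_smul']
    simp only [Polynomial.eval_mul, Polynomial.eval_C, Polynomial.eval_pow, Polynomial.eval_X]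
    have h3 : z ^ (e * (p j + n).toNat) = (z ^ n) ^ e * z ^ ((e : ℤ) * p j) := by
      rw [← zpow_natCast z (e * (p j + n).toNat), ← zpow_natCast, ← zpow_natCast z n, ← zpow_mul,
        ← zpow_add₀ hz]
      congr 1
      push_cast
      rw [Int.toNat_of_nonneg (hn j)]
      ring
    rw [h3]
    ring
  have hH0 : H = 0 := by
    apply Polynomial.eq_zero_of_infinite_isRoot
    apply (hZ.sdiff (Set.finite_singleton (0 : K))).mono
    rintro z ⟨hz, hz0⟩
    rw [Set.mem_singleton_iff] at hz0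
    change H.eval z = 0
    rw [hev z hz0, h z hz hz0, sub_self, mul_zero]
  intro z hz
  have h4 := hev z hz
  rw [hH0, Polynomial.eval_zero] at h4
  have h5 : (z ^ n) ^ e ≠ 0 := pow_ne_zero _ (pow_ne_zero _ hz)
  exact sub_eq_zero.mp ((mul_eq_zero.mp h4.symm).resolve_left h5)

end laurent

section exc
variable {K : Type} [Field K] {N : ℕ}

/-- `z ↦ ∑ z ^ (p i) l i` defines a non-constant morphism from the multiplicative group to
`X ∖ D`. -/
structure IsGm (J₀ : Set (MvPolynomial (Fin (N + 1)) K))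
    (F : Fin 3 → MvPolynomial (Fin (N + 1)) K) (d : Fin 3 → ℕ)
    (l : Fin 3 → Fin (N + 1) → K) (p : Fin 3 → ℤ) : Prop where
  nonconst : ∃ i j, p i ≠ p j
  onX : ∀ z : K, z ≠ 0 → ∀ f ∈ J₀, eval (∑ i, z ^ (p i) • l i) f = 0
  units : ∃ c : Fin 3 → K, (∀ i, c i ≠ 0) ∧ ∀ z : K, z ≠ 0 → ∀ i,
    eval (∑ i, z ^ (p i) • l i) (F i) = c i * z ^ ((d i : ℤ) * p i)

/-- `u ↦ ∑ (u i) l i` embeds a plane in `X` linearly, and the coordinate lines are the
intersections with the components of `D`. -/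
structure IsPlane (J₀ : Set (MvPolynomial (Fin (N + 1)) K))
    (F : Fin 3 → MvPolynomial (Fin (N + 1)) K) (d : Fin 3 → ℕ)
    (l : Fin 3 → Fin (N + 1) → K) : Prop where
  deg : ∀ i, d i = 1
  onX : ∀ u : Fin 3 → K, ∀ f ∈ J₀, eval (∑ i, u i • l i) f = 0
  units : ∃ c : Fin 3 → K, (∀ i, c i ≠ 0) ∧ ∀ u : Fin 3 → K, ∀ i,
    eval (∑ i, u i • l i) (F i) = c i * u i

/-- A set of vectors covered by finitely many points, curves and planes. -/
def Small (J₀ : Set (MvPolynomial (Fin (N + 1)) K))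
    (F : Fin 3 → MvPolynomial (Fin (N + 1)) K) (d : Fin 3 → ℕ)
    (E : Set (Fin (N + 1) → K)) : Prop :=
  ∃ (A : Set (Fin (N + 1) → K)) (𝒯 : Set ((Fin 3 → Fin (N + 1) → K) × (Fin 3 → ℤ)))
    (𝒬 : Set (Fin 3 → Fin (N + 1) → K)), A.Finite ∧ 𝒯.Finite ∧ 𝒬.Finite ∧
    (∀ t ∈ 𝒯, IsGm J₀ F d t.1 t.2) ∧ (∀ l ∈ 𝒬, IsPlane J₀ F d l) ∧
    ∀ x ∈ E, (∃ v ∈ A, ∃ μ : K, μ ≠ 0 ∧ x = μ • v) ∨
      (∃ t ∈ 𝒯, ∃ μ z : K, μ ≠ 0 ∧ z ≠ 0 ∧ x = μ • ∑ i, z ^ (t.2 i) • t.1 i) ∨
      ∃ l ∈ 𝒬, ∃ u : Fin 3 → K, (∀ i, u i ≠ 0) ∧ x = ∑ i, u i • l i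

/-- The corresponding notion of largeness. -/
def bigLN (J₀ : Set (MvPolynomial (Fin (N + 1)) K))
    (F : Fin 3 → MvPolynomial (Fin (N + 1)) K) (d : Fin 3 → ℕ) :
    LN (Fin (N + 1) → K) where
  Big E := ¬ Small J₀ F d E
  mono := by
    rintro E E' hE hbig ⟨A, 𝒯, 𝒬, h1, h2, h3, h4, h5, h⟩
    exact hbig ⟨A, 𝒯, 𝒬, h1, h2, h3, h4, h5, fun x hx => h x (hE hx)⟩
  union := by
    intro E E' hbig
    by_contra hcon
    rw [not_or, not_not, not_not] at hcon
    obtain ⟨⟨A, 𝒯, 𝒬, h1, h2, h3, h4, h5, h⟩, ⟨A', 𝒯', 𝒬', h1', h2', h3', h4', h5', h'⟩⟩ := hcon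
    apply hbig
    refine ⟨A ∪ A', 𝒯 ∪ 𝒯', 𝒬 ∪ 𝒬', h1.union h1', h2.union h2', h3.union h3', ?_, ?_, ?_⟩
    · rintro t (ht | ht)
      exacts [h4 t ht, h4' t ht]
    · rintro t (ht | ht)
      exacts [h5 t ht, h5' t ht]
    · rintro x (hx | hx)
      · rcases h x hx with ⟨v, hv, h⟩ | ⟨v, hv, h⟩ | ⟨v, hv, h⟩
        · exact Or.inl ⟨v, Or.inl hv, h⟩
        · exact Or.inr (Or.inl ⟨v, Or.inl hv, h⟩)
        · exact Or.inr (Or.inr ⟨v, Or.inl hv, h⟩)
      · rcases h' x hx with ⟨v, hv, h⟩ | ⟨v, hv, h⟩ | ⟨v, hv, h⟩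
        · exact Or.inl ⟨v, Or.inr hv, h⟩
        · exact Or.inr (Or.inl ⟨v, Or.inr hv, h⟩)
        · exact Or.inr (Or.inr ⟨v, Or.inr hv, h⟩)
  inf := by
    intro E hbig hfin
    apply hbig
    refine ⟨E, ∅, ∅, hfin, Set.finite_empty, Set.finite_empty, ?_, ?_, ?_⟩
    · exact fun t ht => absurd ht (Set.notMem_empty t)
    · exact fun t ht => absurd ht (Set.notMem_empty t)
    · exact fun x hx => Or.inl ⟨x, hx, 1, one_ne_zero, (one_smul _ _).symm⟩

end exc

section torus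
variable {K : Type} [Field K] {N : ℕ}

/-- Two exponents are close. -/
lemma two_close {L : Type} [NontriviallyNormedField L] [Algebra K L] (ε : K)
    (hε : 1 < ‖algebraMap K L ε‖) (g : MvPolynomial (Fin 3) K) (hg : g ≠ 0) :
    ∃ M : ℕ, ∀ q : Fin 3 → ℤ, eval (fun i => ε ^ (q i)) g = 0 →
      ∃ α ∈ g.support, ∃ β ∈ g.support, α ≠ β ∧
        |∑ i, ((α i : ℤ) - (β i : ℤ)) * q i| ≤ M := by
  classical
  set r : ℝ := ‖algebraMap K L ε‖ with hr
  have hr0 : 0 < r := by linarith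
  have hε0 : ε ≠ 0 := by
    rintro rfl
    rw [hr, map_zero, norm_zero] at hr0
    exact lt_irrefl _ hr0
  set A : ℝ := ∑ α ∈ g.support, ‖algebraMap K L (coeff α g)‖ with hA
  have hinj : Function.Injective (algebraMap K L) := (algebraMap K L).injective
  have hsupp : g.support.Nonempty := by
    rw [Finset.nonempty_iff_ne_empty, Ne, support_eq_empty]
    exact hg
  obtain ⟨α₁, hα₁, hmin⟩ := g.support.exists_min_image
    (fun α => ‖algebraMap K L (coeff α g)‖) hsupp
  set a : ℝ := ‖algebraMap K L (coeff α₁ g)‖ with ha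
  have ha0 : 0 < a := norm_pos_iff.mpr
    (by rw [Ne, map_eq_zero_iff _ hinj]; exact mem_support_iff.mp hα₁)
  have hA0 : 0 ≤ A := Finset.sum_nonneg fun _ _ => norm_nonneg _
  obtain ⟨M, hM⟩ := pow_unbounded_of_one_lt ((A + 1) / a) hε
  refine ⟨M, fun q hq => ?_⟩
  set n : (Fin 3 →₀ ℕ) → ℤ := fun α => ∑ i, (α i : ℤ) * q i with hn
  have hmono : ∀ α, ∏ i, (ε ^ (q i)) ^ (α i) = ε ^ (n α) := by
    intro α
    have h1 : ∀ i, (ε ^ (q i)) ^ (α i) = ε ^ ((α i : ℤ) * q i) := by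
      intro i
      rw [← zpow_natCast, ← zpow_mul, mul_comm]
    simp only [h1, hn, Fin.prod_univ_three, Fin.sum_univ_three]
    rw [← zpow_add₀ hε0, ← zpow_add₀ hε0]
  obtain ⟨α, hα, hmax⟩ := g.support.exists_max_image n hsupp
  by_contra hcon
  push Not at hcon
  have hsmall : ∀ β ∈ g.support.erase α, n β ≤ n α - M := by
    intro β hβ
    have hβ' := Finset.mem_of_mem_erase hβ
    have h2 := hcon α hα β hβ' (Ne.symm (Finset.ne_of_mem_erase hβ))
    have h3 : ∑ i, ((α i : ℤ) - (β i : ℤ)) * q i = n α - n β := by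
      simp only [hn, sub_mul, Finset.sum_sub_distrib]
    rw [h3, abs_of_nonneg (by have := hmax β hβ'; omega)] at h2
    omega
  have hsum : eval (fun i => ε ^ (q i)) g = ∑ β ∈ g.support, coeff β g * ε ^ (n β) := by
    rw [eval_eq']
    exact Finset.sum_congr rfl fun β _ => by rw [hmono]
  rw [hsum, ← Finset.add_sum_erase _ _ hα] at hq
  have h4 : coeff α g * ε ^ (n α) = -∑ β ∈ g.support.erase α, coeff β g * ε ^ (n β) := by
    linear_combination hq
  have h5 : a * r ^ (n α) ≤ A * r ^ (n α - M) := by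
    calc a * r ^ (n α) ≤ ‖algebraMap K L (coeff α g)‖ * r ^ (n α) :=
          mul_le_mul_of_nonneg_right (hmin α hα) (zpow_nonneg hr0.le _)
      _ = ‖algebraMap K L (coeff α g * ε ^ (n α))‖ := by
          rw [map_mul, norm_mul, map_zpow₀, norm_zpow]
      _ = ‖algebraMap K L (∑ β ∈ g.support.erase α, coeff β g * ε ^ (n β))‖ := by
          rw [h4, map_neg, norm_neg]
      _ ≤ ∑ β ∈ g.support.erase α, ‖algebraMap K L (coeff β g)‖ * r ^ (n α - M) := by
          rw [map_sum]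
          refine (norm_sum_le _ _).trans (Finset.sum_le_sum fun β hβ => ?_)
          rw [map_mul, norm_mul, map_zpow₀, norm_zpow]
          apply mul_le_mul_of_nonneg_left _ (norm_nonneg _)
          exact zpow_le_zpow_right₀ hε.le (hsmall β hβ)
      _ ≤ A * r ^ (n α - M) := by
          rw [← Finset.sum_mul]
          apply mul_le_mul_of_nonneg_right _ (zpow_nonneg hr0.le _)
          exact Finset.sum_le_sum_of_subset_of_nonneg (Finset.erase_subset _ _)
            fun _ _ _ => norm_nonneg _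
  have h6 : r ^ (n α) = r ^ M * r ^ (n α - M) := by
    rw [← zpow_natCast, ← zpow_add₀ hr0.ne']
    congr 1
    ring
  rw [h6, ← mul_assoc] at h5
  have h7 : a * r ^ M ≤ A := le_of_mul_le_mul_right h5 (zpow_pos hr0 _)
  rw [div_lt_iff₀ ha0] at hM
  linarith

/-- **From three spanning vectors to curves parametrised by the multiplicative group.** -/
theorem torus {L : Type} [NontriviallyNormedField L] [Algebra K L] (ε : K)
    (hε : 1 < ‖algebraMap K L ε‖)
    (J₀ : Set (MvPolynomial (Fin (N + 1)) K)) (hJ₀ : ∀ f ∈ J₀, ∃ e, f.IsHomogeneous e)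
    (F : Fin 3 → MvPolynomial (Fin (N + 1)) K) (d : Fin 3 → ℕ)
    (hF : ∀ i, (F i).IsHomogeneous (d i)) (D : Fin 3 → K) (hD : ∀ i, D i ≠ 0)
    (hdeg : ∀ l : Fin 3 → Fin (N + 1) → K,
      (∀ u : Fin 3 → K, ∀ f ∈ J₀, eval (∑ i, u i • l i) f = 0) →
      (∀ u : Fin 3 → K, ∀ i, eval (∑ i, u i • l i) (F i) = D i * u i ^ d i) → ∀ i, d i = 1)
    (E : Set (Fin (N + 1) → K)) (q : (Fin (N + 1) → K) → Fin 3 → ℤ)
    (l : Fin 3 → Fin (N + 1) → K) (hx : ∀ x ∈ E, x = ∑ i, ε ^ (q x i) • l i)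
    (hX : ∀ x ∈ E, ∀ f ∈ J₀, eval x f = 0)
    (hev : ∀ x ∈ E, ∀ i, eval x (F i) = D i * (ε ^ (q x i)) ^ d i) :
    Small J₀ F d E := by
  by_contra hE
  change (bigLN J₀ F d).Big E at hE
  set 𝔅 := bigLN J₀ F d with h𝔅
  classical
  have hε0 : ε ≠ 0 := by
    rintro rfl
    rw [map_zero, norm_zero] at hε
    linarith
  -- pull back to the plane
  set g : MvPolynomial (Fin (N + 1)) K → MvPolynomial (Fin 3) K :=
    fun f => aeval (fun k => ∑ i, C (l i k) * X i) f with hg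
  have hgev : ∀ (f : MvPolynomial (Fin (N + 1)) K) (u : Fin 3 → K),
      eval u (g f) = eval (∑ i, u i • l i) f := by
    intro f u
    have h2 := (map_aeval (fun k => ∑ i, C (l i k) * X i) (eval u) f)
    rw [hg]
    simp only
    have h3 : (∑ i, u i • l i) = fun k => eval u (∑ i, C (l i k) * X i) := by
      funext k
      simp [Finset.sum_apply, mul_comm]
    have h4 : (eval u).comp (algebraMap K (MvPolynomial (Fin 3) K)) = RingHom.id K := by
      ext a; simp
    rw [h2, h3, h4]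
    rfl
  have hghom : ∀ (f : MvPolynomial (Fin (N + 1)) K) (e : ℕ), f.IsHomogeneous e →
      (g f).IsHomogeneous e := by
    intro f e hf
    have := hf.aeval (fun k => ∑ i, C (l i k) * X i) (n := 1) (fun k => by
      apply IsHomogeneous.sum
      intro i _
      have := (isHomogeneous_C (Fin 3) (l i k)).mul (isHomogeneous_X K i)
      simpa using this)
    rwa [one_mul] at this
  by_cases hall : (∀ f ∈ J₀, g f = 0) ∧ ∀ i, g (F i) - C (D i) * X i ^ d i = 0
  · -- all identities hold on the plane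
    have hU : ∀ u : Fin 3 → K, ∀ i, eval (∑ i, u i • l i) (F i) = D i * u i ^ d i := by
      intro u i
      have h1 := hall.2 i
      rw [sub_eq_zero] at h1
      rw [← hgev (F i) u, h1]
      simp
    have hJ : ∀ u : Fin 3 → K, ∀ f ∈ J₀, eval (∑ i, u i • l i) f = 0 := by
      intro u f hf
      rw [← hgev, hall.1 f hf, map_zero]
    have hd1 := hdeg l hJ hU
    apply hE
    refine ⟨∅, ∅, {l}, Set.finite_empty, Set.finite_empty, Set.finite_singleton l,
      fun t ht => absurd ht (Set.notMem_empty t), ?_, fun x hxE => Or.inr (Or.inr ⟨l, rfl,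
        fun i => ε ^ (q x i), fun i => zpow_ne_zero _ hε0, hx x hxE⟩)⟩
    rintro _ rfl
    refine ⟨hd1, hJ, D, hD, fun u i => ?_⟩
    rw [hU, hd1 i, pow_one]
  · -- a non-trivial relation
    obtain ⟨G, e, hG0, hGe, hGx⟩ : ∃ (G : MvPolynomial (Fin 3) K) (e : ℕ), G ≠ 0 ∧
        G.IsHomogeneous e ∧ ∀ x ∈ E, eval (fun i => ε ^ (q x i)) G = 0 := by
      rw [not_and_or] at hall
      rcases hall with h | h
      · push Not at h
        obtain ⟨f, hf, hf0⟩ := h
        obtain ⟨e, he⟩ := hJ₀ f hf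
        refine ⟨g f, e, hf0, hghom f e he, fun x hxE => ?_⟩
        rw [hgev, ← hx x hxE]
        exact hX x hxE f hf
      · push Not at h
        obtain ⟨i, hi⟩ := h
        refine ⟨_, d i, hi, ?_, fun x hxE => ?_⟩
        · apply (hghom _ _ (hF i)).sub
          have := (isHomogeneous_C (Fin 3) (D i)).mul ((isHomogeneous_X K i).pow (d i))
          simpa using this
        · rw [map_sub, hgev, ← hx x hxE, hev x hxE i]
          simp
    obtain ⟨M, hM⟩ := two_close ε hε G hG0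
    obtain ⟨⟨⟨α, β⟩, m⟩, -, hE₁⟩ := 𝔅.partition
      ((G.support ×ˢ G.support) ×ˢ Finset.Icc (-(M : ℤ)) M) hE
      (fun t x => t.1.1 ∈ G.support ∧ t.1.2 ∈ G.support ∧ t.1.1 ≠ t.1.2 ∧
        ∑ i, ((t.1.1 i : ℤ) - (t.1.2 i : ℤ)) * q x i = t.2) (by
      intro x hxE
      obtain ⟨α, hα, β, hβ, hne, hab⟩ := hM (q x) (hGx x hxE)
      rw [abs_le] at hab
      exact ⟨((α, β), _), Finset.mem_product.mpr ⟨Finset.mem_product.mpr ⟨hα, hβ⟩,
        Finset.mem_Icc.mpr hab⟩, hα, hβ, hne, rfl⟩)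
    simp only at hE₁
    set E₁ : Set (Fin (N + 1) → K) := _ with hE₁def
    change 𝔅.Big E₁ at hE₁
    obtain ⟨x₁, hx₁⟩ := 𝔅.nonempty hE₁
    have hα : α ∈ G.support := hx₁.2.1
    have hβ : β ∈ G.support := hx₁.2.2.1
    have hne : α ≠ β := hx₁.2.2.2.1
    set δ : Fin 3 → ℤ := fun i => (α i : ℤ) - (β i : ℤ) with hδ
    have hδq : ∀ x ∈ E₁, ∑ i, δ i * q x i = m := fun x hx => hx.2.2.2.2
    have hδsum : δ 0 + δ 1 + δ 2 = 0 := by
      have h1 : ∀ γ ∈ G.support, ((γ 0 : ℤ) + γ 1 + γ 2) = e := by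
        intro γ hγ
        have := hGe (mem_support_iff.mp hγ)
        rw [Finsupp.weight_apply, Finsupp.sum_fintype _ _ (by simp), Fin.sum_univ_three] at this
        simp only [Pi.one_apply, smul_eq_mul, mul_one] at this
        exact_mod_cast this
      have h2 := h1 α hα
      have h3 := h1 β hβ
      simp only [hδ]
      omega
    have hδ0 : ¬ (δ 0 = 0 ∧ δ 1 = 0) := by
      rintro ⟨h0, h1⟩
      apply hne
      ext i
      have h2 : δ 2 = 0 := by omega
      simp only [hδ] at h0 h1 h2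
      fin_cases i
      · change α 0 = β 0; omega
      · change α 1 = β 1; omega
      · change α 2 = β 2; omega
    set n : ℤ := δ 0 ^ 2 + δ 1 ^ 2 with hn
    have hn0 : 0 < n := by
      rw [hn]
      by_cases h : δ 0 = 0
      · have h1 : δ 1 ≠ 0 := fun h1 => hδ0 ⟨h, h1⟩
        positivity
      · positivity
    -- congruence classes
    obtain ⟨r, -, hE₂⟩ := 𝔅.partition (Fintype.piFinset fun _ : Fin 3 => Finset.Ico (0 : ℤ) n)
      hE₁ (fun r x => ∀ i, q x i % n = r i) (by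
      intro x _
      refine ⟨fun i => q x i % n, ?_, fun i => rfl⟩
      rw [Fintype.mem_piFinset]
      exact fun i => Finset.mem_Ico.mpr ⟨Int.emod_nonneg _ hn0.ne', Int.emod_lt_of_pos _ hn0⟩)
    set E₂ : Set (Fin (N + 1) → K) := _ with hE₂def
    change 𝔅.Big E₂ at hE₂
    obtain ⟨x₀, hx₀⟩ := 𝔅.nonempty hE₂
    have hE₂₁ : ∀ x ∈ E₂, x ∈ E₁ := fun x hx => hx.1
    have hE₂₀ : ∀ x ∈ E₂, x ∈ E := fun x hx => hx.1.1
    set p : Fin 3 → ℤ := ![δ 1, -δ 0, 0] with hp
    set l' : Fin 3 → Fin (N + 1) → K := fun i => ε ^ (q x₀ i) • l i with hl'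
    have hkey : ∀ x ∈ E₂, ∃ s t : ℤ, ∀ i, q x i = q x₀ i + s + t * p i := by
      intro x hxE
      set c : Fin 3 → ℤ := fun i => q x i / n - q x₀ i / n with hc
      have h1 : ∀ i, q x i = q x₀ i + n * c i := by
        intro i
        have h2 := Int.emod_add_mul_ediv (q x i) n
        have h3 := Int.emod_add_mul_ediv (q x₀ i) n
        rw [hxE.2 i] at h2
        rw [hx₀.2 i] at h3
        simp only [hc]
        linear_combination h3 - h2
      have h4 : δ 0 * c 0 + δ 1 * c 1 + δ 2 * c 2 = 0 := by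
        have h5 := hδq x (hE₂₁ x hxE)
        have h6 := hδq x₀ (hE₂₁ x₀ hx₀)
        rw [Fin.sum_univ_three] at h5 h6
        rw [h1 0, h1 1, h1 2] at h5
        have h7 : n * (δ 0 * c 0 + δ 1 * c 1 + δ 2 * c 2) = 0 := by linear_combination h5 - h6
        exact (mul_eq_zero.mp h7).resolve_left hn0.ne'
      have h8 : δ 0 * (c 0 - c 2) + δ 1 * (c 1 - c 2) = 0 := by
        linear_combination h4 - c 2 * hδsum
      refine ⟨n * c 2, δ 1 * (c 0 - c 2) - δ 0 * (c 1 - c 2), fun i => ?_⟩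
      rw [h1 i]
      fin_cases i
      · change q x₀ 0 + n * c 0 = q x₀ 0 + n * c 2 + _ * δ 1
        rw [hn]
        linear_combination δ 0 * h8
      · change q x₀ 1 + n * c 1 = q x₀ 1 + n * c 2 + _ * (-δ 0)
        rw [hn]
        linear_combination δ 1 * h8
      · change q x₀ 2 + n * c 2 = q x₀ 2 + n * c 2 + _ * 0
        ring
    choose! s t hst using hkey
    have hxc : ∀ x ∈ E₂, x = ε ^ (s x) • cpt l' p (ε ^ (t x)) := by
      intro x hxE
      conv_lhs => rw [hx x (hE₂₀ x hxE)]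
      rw [cpt, Finset.smul_sum]
      apply Finset.sum_congr rfl
      intro i _
      rw [hl', hst x hxE i, smul_smul, smul_smul, zpow_add₀ hε0, zpow_add₀ hε0, zpow_mul]
      congr 1
      ring
    set Z : Set K := (fun x => ε ^ (t x)) '' E₂ with hZ
    have hZinf : Z.Infinite := by
      intro hfin
      apply hE₂
      refine ⟨(fun z => cpt l' p z) '' Z, ∅, ∅, hfin.image _, Set.finite_empty, Set.finite_empty,
        fun t ht => absurd ht (Set.notMem_empty t), fun t ht => absurd ht (Set.notMem_empty t),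
        fun x hxE => Or.inl ⟨_, ⟨_, ⟨x, hxE, rfl⟩, rfl⟩, ε ^ (s x), zpow_ne_zero _ hε0,
          hxc x hxE⟩⟩
    have hz0 : ∀ z ∈ Z, z ≠ 0 := by
      rintro _ ⟨x, -, rfl⟩
      exact zpow_ne_zero _ hε0
    have hscale : ∀ (f : MvPolynomial (Fin (N + 1)) K) (e : ℕ), f.IsHomogeneous e →
        ∀ x ∈ E₂, eval x f = (ε ^ (s x)) ^ e * eval (cpt l' p (ε ^ (t x))) f := by
      intro f e hf x hxE
      conv_lhs => rw [hxc x hxE]
      exact hf.eval_smul' _ _
    apply hE₂
    refine ⟨∅, {(l', p)}, ∅, Set.finite_empty, Set.finite_singleton _, Set.finite_empty, ?_,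
      fun t ht => absurd ht (Set.notMem_empty t),
      fun x hxE => Or.inr (Or.inl ⟨_, rfl, ε ^ (s x), ε ^ (t x), zpow_ne_zero _ hε0,
        zpow_ne_zero _ hε0, hxc x hxE⟩)⟩
    rintro _ rfl
    refine ⟨?_, ?_, fun i => eval x₀ (F i), ?_, ?_⟩
    · by_contra hcon
      push Not at hcon
      apply hδ0
      have h1 := hcon 0 2
      have h2 := hcon 1 2
      rw [hp] at h1 h2
      simp only [Matrix.cons_val_zero, Matrix.cons_val_one, Matrix.cons_val] at h1 h2
      exact ⟨by linarith, h1⟩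
    · intro z hz f hf
      obtain ⟨e, he⟩ := hJ₀ f hf
      have := identity l' p f e he 0 0 Z hZinf (by
        rintro _ ⟨x, hxE, rfl⟩ -
        have h1 := hscale f e he x hxE
        rw [hX x (hE₂₀ x hxE) f hf] at h1
        rw [zero_mul]
        exact (mul_eq_zero.mp h1.symm).resolve_left (pow_ne_zero _ (zpow_ne_zero _ hε0))) z hz
      rw [zero_mul] at this
      exact this
    · intro i
      simp only
      rw [hev x₀ (hE₂₀ x₀ hx₀) i]
      exact mul_ne_zero (hD i) (pow_ne_zero _ (zpow_ne_zero _ hε0))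
    · intro z hz i
      refine identity l' p (F i) (d i) (hF i) _ i Z hZinf ?_ z hz
      rintro _ ⟨x, hxE, rfl⟩ -
      have h1 := hscale (F i) (d i) (hF i) x hxE
      rw [hev x (hE₂₀ x hxE) i, hst x hxE i] at h1
      have h2 : (ε ^ (s x)) ^ d i ≠ 0 := pow_ne_zero _ (zpow_ne_zero _ hε0)
      apply mul_left_cancel₀ h2
      beta_reduce
      rw [← h1, hev x₀ (hE₂₀ x₀ hx₀) i, zpow_add₀ hε0, zpow_add₀ hε0, mul_pow, mul_pow]
      have h3 : (ε ^ (t x)) ^ ((d i : ℤ) * p i) = (ε ^ (t x * p i)) ^ d i := by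
        rw [← zpow_natCast (ε ^ (t x * p i)), ← zpow_mul, ← zpow_mul]
        congr 1
        ring
      rw [h3]
      ring

end torus

end Pool.Agent.Helper10.Sub
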