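import Pool.Agent.Helper10.Sub.CoreInf
import Pool.Agent.Helper10.Sub.Torus
import Pool.Agent.Helper10.Sub.PlaneDeg

/-!
# Three hypersurface sections, two places: integral points lie on finitely many points, curves
parametrised by the multiplicative group and planes
-/

set_option autoImplicit false

namespace Pool.Agent.Helper10.Sub

open MvPolynomial

variable {K L₁ L₂ : Type} [Field K] [CharZero K] [NontriviallyNormedField L₁] [ProperSpace L₁]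
  [NontriviallyNormedField L₂] [ProperSpace L₂] [Algebra K L₁] [Algebra K L₂] {N : ℕ}

/-- Lower bound at a place from the emptiness of the triple intersection. -/
lemma lowerJ {L : Type} [NontriviallyNormedField L] [ProperSpace L] [Algebra K L]
    (J₀ : Set (MvPolynomial (Fin (N + 1)) K)) (hJ₀ : ∀ f ∈ J₀, ∃ e, f.IsHomogeneous e)
    (F : Fin 3 → MvPolynomial (Fin (N + 1)) K) (d : Fin 3 → ℕ)
    (hF : ∀ i, (F i).IsHomogeneous (d i))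
    (hempty : ∀ A : Fin (N + 1) → L, OnV J₀ A → (∀ i, aeval A (F i) = 0) → A = 0) :
    ∃ η : ℝ, 0 < η ∧ ∀ x : Fin (N + 1) → K, x ≠ 0 → OnV J₀ x →
      ∃ i, η * nrm L x ^ d i ≤ ‖algebraMap K L (eval x (F i))‖ := by
  obtain ⟨η, hη, h⟩ := loc0 (L := L) J₀ hJ₀ F d hF (by
    intro A hA hOn
    by_contra hcon
    push Not at hcon
    exact hA (hempty A hOn hcon))
  refine ⟨η, hη, fun x hx hxP => ?_⟩
  obtain ⟨i, hi⟩ := h (fun k => algebraMap K L (x k)) (by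
    intro h0
    apply hx
    funext k
    exact (map_eq_zero_iff _ (algebraMap K L).injective).mp (congrFun h0 k)) (by
    intro f hf
    rw [aeval_alg]
    have := hxP f hf
    rw [aeval_self'] at this
    rw [this, map_zero])
  rw [aeval_alg] at hi
  exact ⟨i, hi⟩

/-- **Main theorem, abstract two-place form.** -/
theorem nonInf (S : TwoPl K L₁ L₂) (hsub : S.SubHyp) {Ω : Type} [Field Ω] [IsAlgClosed Ω]
    [Algebra K Ω] (J₀ : Set (MvPolynomial (Fin (N + 1)) K))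
    (hJ₀ : ∀ f ∈ J₀, ∃ e, f.IsHomogeneous e)
    (F : Fin 3 → MvPolynomial (Fin (N + 1)) K) (d : Fin 3 → ℕ) (hd : ∀ i, 1 ≤ d i)
    (hF : ∀ i, (F i).IsHomogeneous (d i))
    (hempty : ∀ A : Fin (N + 1) → Ω, OnV J₀ A → (∀ i, aeval A (F i) = 0) → A = 0)
    (hred : ∀ i j, i ≠ j → ∀ A : Fin (N + 1) → Ω, A ≠ 0 → OnV (J₀ ∪ {F i, F j}) A →
      Jac (J₀ ∪ {F i, F j}) A)
    (E : Set (Fin (N + 1) → K)) (hO : ∀ x ∈ E, ∀ k, x k ∈ S.O)
    (hX : ∀ x ∈ E, ∀ f ∈ J₀, eval x f = 0)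
    (𝒞 : Finset K) (h𝒞 : ∀ c ∈ 𝒞, c ≠ 0)
    (hint : ∀ x ∈ E, ∀ i, ∃ c ∈ 𝒞, ∃ q : ℤ, eval x (F i) = c * (S.ε ^ q) ^ d i)
    (c₀ : ℝ) (hc₀ : 0 < c₀) (hn : ∀ x ∈ E, c₀ ≤ nrm L₂ x ∧ nrm L₂ x ≤ c₀⁻¹) :
    Small J₀ F d E := by
  classical
  by_contra hE
  change (bigLN J₀ F d).Big E at hE
  set 𝔅 := bigLN J₀ F d with h𝔅
  have hOn : ∀ x ∈ E, OnV J₀ x := by
    intro x hx f hf
    rw [aeval_self']
    exact hX x hx f hf
  -- transfers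
  have hE0 : ∀ A : Fin (N + 1) → Ω, OnV (J₀ ∪ Set.range F) A → A = 0 :=
    fun A hA => hempty A (fun f hf => hA f (Or.inl hf)) (fun i => hA _ (Or.inr ⟨i, rfl⟩))
  have hempty₁ : ∀ A : Fin (N + 1) → L₁, OnV J₀ A → (∀ i, aeval A (F i) = 0) → A = 0 := by
    intro A hA hAF
    apply transfer0 _ hE0 A
    rintro f (hf | ⟨i, rfl⟩)
    · exact hA f hf
    · exact hAF i
  have hempty₂ : ∀ A : Fin (N + 1) → L₂, OnV J₀ A → (∀ i, aeval A (F i) = 0) → A = 0 := by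
    intro A hA hAF
    apply transfer0 _ hE0 A
    rintro f (hf | ⟨i, rfl⟩)
    · exact hA f hf
    · exact hAF i
  have hred₁ : ∀ i j, i ≠ j → ∀ A : Fin (N + 1) → L₁, A ≠ 0 → OnV (J₀ ∪ {F i, F j}) A →
      Jac (J₀ ∪ {F i, F j}) A :=
    fun i j hij A hA hOn => transfer _ (hred i j hij) A hA hOn
  have hred₂ : ∀ i j, i ≠ j → ∀ A : Fin (N + 1) → L₂, A ≠ 0 → OnV (J₀ ∪ {F i, F j}) A →
      Jac (J₀ ∪ {F i, F j}) A :=
    fun i j hij A hA hOn => transfer _ (hred i j hij) A hA hOn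
  obtain ⟨η₁, hη₁, hl₁⟩ := lowerJ (L := L₁) J₀ hJ₀ F d hF hempty₁
  obtain ⟨η₂, hη₂, hl₂⟩ := lowerJ (L := L₂) J₀ hJ₀ F d hF hempty₂
  have hxne : ∀ x ∈ E, x ≠ 0 := by
    intro x hx h0
    have h1 := (hn x hx).1
    have h2 : nrm L₂ x = 0 := by
      rw [h0, nrm]
      simp only [Pi.zero_apply, map_zero]
      exact norm_zero
    linarith
  -- fix the constants
  obtain ⟨D, hD𝒞, hE₁⟩ := 𝔅.partition (Fintype.piFinset (fun _ : Fin 3 => 𝒞)) hE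
    (fun D x => ∀ i, ∃ q : ℤ, eval x (F i) = D i * (S.ε ^ q) ^ d i) (by
      intro x hx
      choose c hc q hq using hint x hx
      exact ⟨c, Fintype.mem_piFinset.mpr hc, fun i => ⟨q i, hq i⟩⟩)
  rw [Fintype.mem_piFinset] at hD𝒞
  have hD : ∀ i, D i ≠ 0 := fun i => h𝒞 _ (hD𝒞 i)
  set E₁ : Set (Fin (N + 1) → K) := _ with hE₁def
  change 𝔅.Big E₁ at hE₁
  have hq' : ∀ x ∈ E₁, ∀ i, ∃ q : ℤ, eval x (F i) = D i * (S.ε ^ q) ^ d i := fun x hx => hx.2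
  choose! q hq using hq'
  -- fix the two indices
  obtain ⟨⟨a, b⟩, hE₂⟩ := 𝔅.partition' hE₁ (fun (ab : Fin 3 × Fin 3) x =>
      η₁ * nrm L₁ x ^ d ab.1 ≤ ‖algebraMap K L₁ (eval x (F ab.1))‖ ∧
      η₂ * nrm L₂ x ^ d ab.2 ≤ ‖algebraMap K L₂ (eval x (F ab.2))‖) (by
    intro x hx
    obtain ⟨i, hi⟩ := hl₁ x (hxne x hx.1) (hOn x hx.1)
    obtain ⟨j, hj⟩ := hl₂ x (hxne x hx.1) (hOn x hx.1)
    exact ⟨(i, j), hi, hj⟩)
  set E₂ : Set (Fin (N + 1) → K) := _ with hE₂def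
  change 𝔅.Big E₂ at hE₂
  have hE₂₁ : ∀ x ∈ E₂, x ∈ E₁ := fun x hx => hx.1
  have hE₂₀ : ∀ x ∈ E₂, x ∈ E := fun x hx => hx.1.1
  have hη : 0 < min η₁ η₂ := lt_min hη₁ hη₂
  have hla : ∀ x ∈ E₂, min η₁ η₂ * nrm L₁ x ^ d a ≤ ‖algebraMap K L₁ (eval x (F a))‖ := by
    intro x hx
    refine le_trans ?_ hx.2.1
    exact mul_le_mul_of_nonneg_right (min_le_left _ _) (pow_nonneg (nrm_nonneg _) _)
  have hlb : ∀ x ∈ E₂, min η₁ η₂ * nrm L₂ x ^ d b ≤ ‖algebraMap K L₂ (eval x (F b))‖ := by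
    intro x hx
    refine le_trans ?_ hx.2.2
    exact mul_le_mul_of_nonneg_right (min_le_right _ _) (pow_nonneg (nrm_nonneg _) _)
  have hab : a ≠ b := by
    rintro rfl
    obtain ⟨C₀, hC₀, hnum⟩ := S.consts F d hd hF D hD a a a E₂ (fun x i => S.ε ^ (q x i))
      (fun x _ i => ⟨q x i, rfl⟩) (fun x hx i => hq x (hE₂₁ x hx) i) c₀ hc₀
      (fun x hx => hn x (hE₂₀ x hx)) (min η₁ η₂) hη hla hlb
    have hbig := S.largeInf 𝔅 hE₂ (fun x hx => hO x (hE₂₀ x hx)) c₀⁻¹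
      (fun x hx => (hn x (hE₂₀ x hx)).2) (C₀ ^ 2 + C₀)
    obtain ⟨x, hx, hxB⟩ := 𝔅.nonempty hbig
    have hN := hnum x hx C₀ le_rfl (by nlinarith)
    have h1 := hN.a1
    have h2 := hN.b2
    nlinarith
  obtain ⟨c, habc, hac, hbc⟩ := third a b hab
  obtain ⟨E₃, hE₃, hE₃i, l, hl⟩ := coreInf S hsub 𝔅 J₀ hJ₀ F d hd hF D hD a b c habc hab hac hbc
    hempty₁ hempty₂ (hred₁ b c hbc) (hred₂ a c hac) E₂ hE₂ (fun x i => S.ε ^ (q x i))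
    (fun x _ i => ⟨q x i, rfl⟩) (fun x hx i => hq x (hE₂₁ x hx) i)
    (fun x hx => hO x (hE₂₀ x hx)) (fun x hx => hOn x (hE₂₀ x hx)) c₀ hc₀
    (fun x hx => hn x (hE₂₀ x hx)) (min η₁ η₂) hη hla hlb
  have hE₃₀ : ∀ x ∈ E₃, x ∈ E := fun x hx => hE₂₀ x (hE₃ hx)
  apply hE₃i
  apply torus (L := L₁) S.ε S.hε J₀ hJ₀ F d hF D hD _ E₃ q l _
    (fun x hx => hX x (hE₃₀ x hx)) (fun x hx i => hq x (hE₂₁ x (hE₃ hx)) i)
  · intro l' hJ hU
    exact plane_deg (Ω := Ω) J₀ F d hd hred D hD l' hJ hU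
  · intro x hx
    funext k
    conv_lhs => rw [hl x hx k]
    rw [Finset.sum_apply]
    rfl

end Pool.Agent.Helper10.Sub
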