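import Pool.Agent.Helper10.Sub.Place

/-!
# Two places: using the Subspace theorem
-/

set_option autoImplicit false

namespace Pool.Agent.Helper10.Sub

open MvPolynomial

/-- A field `K` with two places, given by two local fields, and a ring `O` of integers whose
only fundamental unit is `ε`. -/
structure TwoPl (K L₁ L₂ : Type) [Field K] [NontriviallyNormedField L₁]
    [NontriviallyNormedField L₂] [Algebra K L₁] [Algebra K L₂] where
  O : Subring K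
  n₁ : ℕ
  n₂ : ℕ
  hn₁ : n₁ ≠ 0
  hn₂ : n₂ ≠ 0
  ε : K
  εO : ∀ q : ℤ, ε ^ q ∈ O
  hε : 1 < ‖algebraMap K L₁ ε‖
  pf : ‖algebraMap K L₁ ε‖ ^ n₁ * ‖algebraMap K L₂ ε‖ ^ n₂ = 1
  north : ∀ B : ℝ, {z : K | z ∈ O ∧ ‖algebraMap K L₁ z‖ ≤ B ∧ ‖algebraMap K L₂ z‖ ≤ B}.Finite

variable {K L₁ L₂ : Type} [Field K] [NontriviallyNormedField L₁] [NontriviallyNormedField L₂]
  [Algebra K L₁] [Algebra K L₂]

/-- The value of a linear form over `L` at a `K`-rational vector. -/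
def lf {K L Y : Type} [Field K] [Field L] [Algebra K L] [Fintype Y] (l : Y → L) (y : Y → K) : L :=
  ∑ m, l m * algebraMap K L (y m)

/-- The Subspace theorem at the two places, on a rational subspace `V`. -/
def TwoPl.SubHyp (S : TwoPl K L₁ L₂) : Prop :=
  ∀ (Y : Type) [Fintype Y] [DecidableEq Y] (V : Submodule K (Y → K)) (M : ℕ),
    Module.finrank K V = M → 2 ≤ M → ∀ (l₁ : Fin M → Y → L₁) (l₂ : Fin M → Y → L₂),
    (∀ i k, IsAlgebraic K (l₁ i k)) → (∀ i k, IsAlgebraic K (l₂ i k)) →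
    (∀ c : Fin M → L₁, (∀ y ∈ V, ∑ i, c i * lf (l₁ i) y = 0) → c = 0) →
    (∀ c : Fin M → L₂, (∀ y ∈ V, ∑ i, c i * lf (l₂ i) y = 0) → c = 0) →
    ∀ δ B : ℝ, 0 < δ → ∃ 𝒲 : Finset (Submodule K (Y → K)), (∀ W ∈ 𝒲, W < V) ∧
      ∀ (Q : ℝ) (a a' : Fin M → ℝ), 1 ≤ Q → (∀ i, Q ^ (-B) ≤ a i ∧ a i ≤ Q ^ B) →
        (∀ i, Q ^ (-B) ≤ a' i ∧ a' i ≤ Q ^ B) → (∏ i, a i) * ∏ i, a' i ≤ Q ^ (-δ) →
        ∀ y ∈ V, (∀ k, y k ∈ S.O) → (∀ i, ‖lf (l₁ i) y‖ ^ S.n₁ ≤ a i) →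
        (∀ i, ‖lf (l₂ i) y‖ ^ S.n₂ ≤ a' i) → ∃ W ∈ 𝒲, y ∈ W

/-- The conditions on the forms at one place. -/
structure Forms {L Y I : Type} [Field L] [Algebra K L] [Fintype Y] [Fintype I]
    (V : Submodule K (Y → K)) (v : I → Y → L) (s t : Finset I) : Prop where
  hst : s ⊆ t
  alg : ∀ i m, IsAlgebraic K (v i m)
  ind : ∀ c : I → L, (∀ y ∈ V, ∑ i ∈ s, c i * lf (v i) y = 0) → ∀ i ∈ s, c i = 0
  spn : ∀ m : Y, ∃ c : I → L, ∀ y ∈ V, algebraMap K L (y m) = ∑ i ∈ t, c i * lf (v i) y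

/-- **Application of the Subspace theorem.** A dense set all of whose dense subsets span the same
space `V` cannot have too small products of linear forms. -/
theorem TwoPl.apply (S : TwoPl K L₁ L₂) (hsub : S.SubHyp) {κ : Type}
    {P : Ideal (MvPolynomial κ K)} (hP : P.IsPrime) {Y I : Type} [Fintype Y] [DecidableEq Y]
    [Fintype I] [DecidableEq I] (y : (κ → K) → Y → K) (E : Set (κ → K)) (hE : Dn P E)
    (V : Submodule K (Y → K)) (hV : ∀ E' ⊆ E, Dn P E' → Submodule.span K (y '' E') = V)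
    (hV2 : 2 ≤ Module.finrank K V)
    (hO : ∀ x ∈ E, ∀ k, y x k ∈ S.O)
    (X : (κ → K) → ℝ) (hX : ∀ B : ℝ, Dn P {x | x ∈ E ∧ B ≤ X x})
    (v₁ : I → Y → L₁) (s₁ t₁ : Finset I) (h₁ : Forms V v₁ s₁ t₁)
    (v₂ : I → Y → L₂) (s₂ t₂ : Finset I) (h₂ : Forms V v₂ s₂ t₂)
    (β₁ β₂ : (κ → K) → I → ℝ) (B : ℝ)
    (hβ₁ : ∀ x ∈ E, ∀ i, ‖lf (v₁ i) (y x)‖ ^ S.n₁ ≤ β₁ x i)
    (hβ₂ : ∀ x ∈ E, ∀ i, ‖lf (v₂ i) (y x)‖ ^ S.n₂ ≤ β₂ x i)
    (hB₁ : ∀ x ∈ E, ∀ i, X x ^ (-B) ≤ β₁ x i ∧ β₁ x i ≤ X x ^ B)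
    (hB₂ : ∀ x ∈ E, ∀ i, X x ^ (-B) ≤ β₂ x i ∧ β₂ x i ≤ X x ^ B)
    (C : ℝ) (hprod : ∀ x ∈ E, ∀ r₁ r₂ : Finset I, s₁ ⊆ r₁ → r₁ ⊆ t₁ → s₂ ⊆ r₂ → r₂ ⊆ t₂ →
      r₁.card = Module.finrank K V → r₂.card = Module.finrank K V →
      (∏ i ∈ r₁, β₁ x i) * (∏ i ∈ r₂, β₂ x i) ≤ C * (X x)⁻¹) : False := by
  set M := Module.finrank K V with hM
  obtain ⟨e₁, he₁, hs₁, ht₁, hi₁⟩ := basisSel V M rfl v₁ s₁ t₁ h₁.hst h₁.ind h₁.spn
  obtain ⟨e₂, he₂, hs₂, ht₂, hi₂⟩ := basisSel V M rfl v₂ s₂ t₂ h₂.hst h₂.ind h₂.spn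
  obtain ⟨𝒲, hW, hmain⟩ := hsub Y V M rfl hV2 (fun j => v₁ (e₁ j)) (fun j => v₂ (e₂ j))
    (fun i k => h₁.alg _ _) (fun i k => h₂.alg _ _) hi₁ hi₂ (1 / 2) B (by norm_num)
  set B0 : ℝ := max 1 (C ^ 2) with hB0
  have hD := hX B0
  obtain ⟨W, hWm, hWd⟩ := hD.partition hP 𝒲 (fun W x => y x ∈ W) (by
    rintro x ⟨hx, hxB⟩
    have hX1 : 1 ≤ X x := (le_max_left _ _).trans hxB
    have hX0 : 0 < X x := by linarith
    apply hmain (X x) (fun j => β₁ x (e₁ j)) (fun j => β₂ x (e₂ j)) hX1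
      (fun j => hB₁ x hx _) (fun j => hB₂ x hx _)
    · have h3 : ∏ j, β₁ x (e₁ j) = ∏ i ∈ Finset.univ.image e₁, β₁ x i := by
        rw [Finset.prod_image (fun a _ b _ hab => he₁ hab)]
      have h4 : ∏ j, β₂ x (e₂ j) = ∏ i ∈ Finset.univ.image e₂, β₂ x i := by
        rw [Finset.prod_image (fun a _ b _ hab => he₂ hab)]
      rw [h3, h4]
      refine (hprod x hx _ _ ?_ ?_ ?_ ?_ ?_ ?_).trans ?_
      · intro i hi
        obtain ⟨j, hj⟩ := hs₁ i hi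
        exact Finset.mem_image.mpr ⟨j, Finset.mem_univ _, hj⟩
      · intro i hi
        obtain ⟨j, -, hj⟩ := Finset.mem_image.mp hi
        rw [← hj]; exact ht₁ j
      · intro i hi
        obtain ⟨j, hj⟩ := hs₂ i hi
        exact Finset.mem_image.mpr ⟨j, Finset.mem_univ _, hj⟩
      · intro i hi
        obtain ⟨j, -, hj⟩ := Finset.mem_image.mp hi
        rw [← hj]; exact ht₂ j
      · rw [Finset.card_image_of_injective _ he₁, Finset.card_univ, Fintype.card_fin]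
      · rw [Finset.card_image_of_injective _ he₂, Finset.card_univ, Fintype.card_fin]
      · have h5 : C ^ 2 ≤ X x := (le_max_right _ _).trans hxB
        have h6 : C ≤ X x ^ (1 / 2 : ℝ) := by
          rw [← Real.sqrt_eq_rpow]
          exact Real.le_sqrt_of_sq_le h5
        have h7 : X x ^ (-(1 / 2) : ℝ) = X x ^ (1 / 2 : ℝ) * (X x)⁻¹ := by
          rw [← Real.rpow_neg_one, ← Real.rpow_add hX0]
          norm_num
        rw [h7]
        exact mul_le_mul_of_nonneg_right h6 (inv_nonneg.mpr hX0.le)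
    · rw [← hV E subset_rfl hE]
      exact Submodule.subset_span ⟨x, hx, rfl⟩
    · exact hO x hx
    · exact fun j => hβ₁ x hx _
    · exact fun j => hβ₂ x hx _)
  have h8 := hV _ (fun x hx => hx.1.1) hWd
  have h9 : V ≤ W := by
    rw [← h8, Submodule.span_le]
    rintro _ ⟨x, hx, rfl⟩
    exact hx.2
  exact absurd h9 (not_le_of_gt (hW W hWm))

/-- Elementary estimate for products. -/
lemma prod_bound {I : Type} [DecidableEq I] (s r : Finset I) (hsr : s ⊆ r) (β : I → ℝ)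
    (G g : ℝ) (hg : 0 ≤ g) (hgG : g ≤ G) (i₀ : I) (m : ℕ) (hm : (r \ s).card = m + 1)
    (hβ0 : ∀ i ∈ r, 0 ≤ β i)
    (h1 : ∀ i ∈ r \ s, i ≠ i₀ → β i ≤ g) (h2 : β i₀ ≤ G) :
    ∏ i ∈ r, β i ≤ (∏ i ∈ s, β i) * (G * g ^ m) := by
  rw [← Finset.prod_sdiff hsr, mul_comm]
  apply mul_le_mul_of_nonneg_left _ (Finset.prod_nonneg fun i hi => hβ0 i (hsr hi))
  have hG : 0 ≤ G := hg.trans hgG
  by_cases h : i₀ ∈ r \ s
  · rw [← Finset.mul_prod_erase _ _ h]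
    have h3 : ∏ i ∈ (r \ s).erase i₀, β i ≤ g ^ ((r \ s).erase i₀).card := by
      rw [← Finset.prod_const]
      apply Finset.prod_le_prod
      · intro i hi
        exact hβ0 i (Finset.sdiff_subset (Finset.mem_of_mem_erase hi))
      · intro i hi
        exact h1 i (Finset.mem_of_mem_erase hi) (Finset.ne_of_mem_erase hi)
    rw [Finset.card_erase_of_mem h, hm, Nat.add_sub_cancel] at h3
    exact mul_le_mul h2 h3 (Finset.prod_nonneg fun i hi =>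
      hβ0 i (Finset.sdiff_subset (Finset.mem_of_mem_erase hi))) hG
  · have h3 : ∏ i ∈ (r \ s), β i ≤ g ^ (r \ s).card := by
      rw [← Finset.prod_const]
      apply Finset.prod_le_prod
      · intro i hi
        exact hβ0 i (Finset.sdiff_subset hi)
      · intro i hi
        apply h1 i hi
        rintro rfl
        exact h hi
    rw [hm, pow_succ, mul_comm] at h3
    exact h3.trans (mul_le_mul_of_nonneg_right hgG (pow_nonneg hg _))

end Pool.Agent.Helper10.Sub
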