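import Pool.Agent.Helper10.Sub.Hasse

/-!
# Upper bounds for Hasse derivatives at points with small linear forms
-/

set_option autoImplicit false
set_option linter.unusedSimpArgs false

namespace Pool.Agent.Helper10.Sub

open MvPolynomial Finset

section l1
variable {σ : Type*} {F : Type*} [NormedField F]

/-- Sum of the norms of the coefficients. -/
noncomputable def l1 (P : MvPolynomial σ F) : ℝ := ∑ e ∈ P.support, ‖coeff e P‖

lemma l1_nonneg (P : MvPolynomial σ F) : 0 ≤ l1 P := Finset.sum_nonneg fun _ _ => norm_nonneg _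

lemma l1_eq_of_subset (P : MvPolynomial σ F) {s : Finset (σ →₀ ℕ)} (h : P.support ⊆ s) :
    l1 P = ∑ e ∈ s, ‖coeff e P‖ := by
  apply Finset.sum_subset h
  intro e _ he
  rw [notMem_support_iff.mp he, norm_zero]

lemma norm_coeff_le_l1 (P : MvPolynomial σ F) (e : σ →₀ ℕ) : ‖coeff e P‖ ≤ l1 P := by
  by_cases he : e ∈ P.support
  · exact Finset.single_le_sum (f := fun e => ‖coeff e P‖) (fun _ _ => norm_nonneg _) he
  · rw [notMem_support_iff.mp he, norm_zero]
    exact l1_nonneg P

lemma l1_add (P Q : MvPolynomial σ F) : l1 (P + Q) ≤ l1 P + l1 Q := by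
  classical
  have h1 : (P + Q).support ⊆ P.support ∪ Q.support := support_add
  rw [l1_eq_of_subset _ h1, l1_eq_of_subset P Finset.subset_union_left,
    l1_eq_of_subset Q Finset.subset_union_right, ← Finset.sum_add_distrib]
  exact Finset.sum_le_sum fun e _ => by rw [coeff_add]; exact norm_add_le _ _

lemma l1_zero : l1 (0 : MvPolynomial σ F) = 0 := by simp [l1]

lemma l1_sum {α : Type*} (s : Finset α) (P : α → MvPolynomial σ F) :
    l1 (∑ a ∈ s, P a) ≤ ∑ a ∈ s, l1 (P a) := by
  classical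
  induction s using Finset.induction_on with
  | empty => simp [l1_zero]
  | insert a s ha ih =>
    rw [Finset.sum_insert ha, Finset.sum_insert ha]
    exact (l1_add _ _).trans (by linarith)

lemma l1_monomial (e : σ →₀ ℕ) (a : F) : l1 (monomial e a) = ‖a‖ := by
  classical
  rw [l1_eq_of_subset (s := {e}) _ support_monomial_subset]
  simp

lemma l1_C_mul (a : F) (P : MvPolynomial σ F) : l1 (C a * P) ≤ ‖a‖ * l1 P := by
  have h : (C a * P).support ⊆ P.support := by
    intro e he
    rw [mem_support_iff, coeff_C_mul] at he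
    rw [mem_support_iff]
    exact right_ne_zero_of_mul he
  rw [l1_eq_of_subset _ h, l1, Finset.mul_sum]
  exact Finset.sum_le_sum fun e _ => by rw [coeff_C_mul, norm_mul]

lemma l1_mul (P Q : MvPolynomial σ F) : l1 (P * Q) ≤ l1 P * l1 Q := by
  classical
  have h : P * Q = ∑ e ∈ P.support, monomial e (coeff e P) * Q := by
    conv_lhs => rw [P.as_sum, Finset.sum_mul]
  rw [h]
  refine (l1_sum _ _).trans ?_
  rw [l1, Finset.sum_mul]
  refine Finset.sum_le_sum fun e _ => ?_
  have h1 : (monomial e (coeff e P) * Q).support ⊆ Q.support.image (fun x => e + x) := by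
    intro x hx
    rw [mem_support_iff] at hx
    rw [Finset.mem_image]
    rw [coeff_monomial_mul'] at hx
    split_ifs at hx with hle
    · refine ⟨x - e, ?_, by rw [add_tsub_cancel_of_le hle]⟩
      rw [mem_support_iff]
      exact right_ne_zero_of_mul hx
    · exact absurd rfl hx
  rw [l1_eq_of_subset _ h1, Finset.sum_image (fun a _ b _ hab => by simpa using hab), l1,
    Finset.mul_sum]
  refine Finset.sum_le_sum fun x _ => ?_
  rw [coeff_monomial_mul', if_pos (by simp), norm_mul]
  simp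

lemma l1_one : l1 (1 : MvPolynomial σ F) = 1 := by
  have := l1_monomial (σ := σ) 0 (1 : F)
  rw [norm_one] at this
  exact this

lemma l1_prod {α : Type*} (s : Finset α) (P : α → MvPolynomial σ F) :
    l1 (∏ a ∈ s, P a) ≤ ∏ a ∈ s, l1 (P a) := by
  classical
  induction s using Finset.induction_on with
  | empty => simp [l1_one]
  | insert a s ha ih =>
    rw [Finset.prod_insert ha, Finset.prod_insert ha]
    exact (l1_mul _ _).trans (mul_le_mul_of_nonneg_left ih (l1_nonneg _))

lemma l1_pow (P : MvPolynomial σ F) (n : ℕ) : l1 (P ^ n) ≤ l1 P ^ n := by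
  induction n with
  | zero => simp [l1_one]
  | succ n ih =>
    rw [pow_succ, pow_succ]
    exact (l1_mul _ _).trans (mul_le_mul_of_nonneg_right ih (l1_nonneg _))

end l1

section upper
variable {b : ℕ} {ι : Type*} [Fintype ι] [DecidableEq ι] {F : Type*} [NormedField F]

/-- The linear forms `L_i(X_h)` as polynomials. -/
noncomputable def lin (A : Matrix ι ι F) (q : Fin b × ι) : MvPolynomial (Fin b × ι) F :=
  ∑ j, C (A q.2 j) * X (q.1, j)

lemma l1_lin (A : Matrix ι ι F) {A0 : ℝ} (hA : ∀ i j, ‖A i j‖ ≤ A0) (q : Fin b × ι) :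
    l1 (lin (b := b) A q) ≤ Fintype.card ι * A0 := by
  refine (l1_sum _ _).trans ?_
  have : ∀ j ∈ (Finset.univ : Finset ι), l1 (C (A q.2 j) * X (q.1, j) : MvPolynomial (Fin b × ι) F)
      ≤ A0 := by
    intro j _
    rw [C_mul_X_eq_monomial, l1_monomial]
    exact hA _ _
  refine (Finset.sum_le_sum this).trans ?_
  simp

/-- Block degree of an exponent. -/
def bdeg (e : (Fin b × ι) →₀ ℕ) (h : Fin b) : ℕ := ∑ i, e (h, i)

lemma bdeg_add (e e' : (Fin b × ι) →₀ ℕ) (h : Fin b) : bdeg (e + e') h = bdeg e h + bdeg e' h := by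
  simp [bdeg, Finset.sum_add_distrib]

/-- `P` is homogeneous of degree `d h` in the block `h`. -/
def BHom (d : Fin b → ℕ) (P : MvPolynomial (Fin b × ι) F) : Prop :=
  ∀ e, coeff e P ≠ 0 → ∀ h, bdeg e h = d h

omit [DecidableEq ι] in
lemma BHom.mul {d d' : Fin b → ℕ} {P Q : MvPolynomial (Fin b × ι) F} (hP : BHom d P)
    (hQ : BHom d' Q) : BHom (d + d') (P * Q) := by
  classical
  intro e he h
  rw [coeff_mul] at he
  obtain ⟨x, hx, hne⟩ := Finset.exists_ne_zero_of_sum_ne_zero he
  rw [Finset.HasAntidiagonal.mem_antidiagonal] at hx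
  rw [← hx, bdeg_add, Pi.add_apply, hP _ (left_ne_zero_of_mul hne), hQ _ (right_ne_zero_of_mul hne)]

omit [DecidableEq ι] in
lemma BHom.one : BHom (0 : Fin b → ℕ) (1 : MvPolynomial (Fin b × ι) F) := by
  classical
  intro e he h
  rw [coeff_one] at he
  split_ifs at he with h0
  · rw [← h0]; simp [bdeg]
  · exact absurd rfl he

omit [DecidableEq ι] in
lemma BHom.pow {d : Fin b → ℕ} {P : MvPolynomial (Fin b × ι) F} (hP : BHom d P) (n : ℕ) :
    BHom (n • d) (P ^ n) := by
  induction n with
  | zero => rw [zero_smul, pow_zero]; exact BHom.one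
  | succ n ih => rw [succ_nsmul, pow_succ]; exact ih.mul hP

omit [DecidableEq ι] in
lemma BHom.prod {α : Type*} (s : Finset α) {d : α → Fin b → ℕ} {P : α → MvPolynomial (Fin b × ι) F}
    (hP : ∀ a ∈ s, BHom (d a) (P a)) : BHom (∑ a ∈ s, d a) (∏ a ∈ s, P a) := by
  classical
  induction s using Finset.induction_on with
  | empty => simp only [Finset.sum_empty, Finset.prod_empty]; exact BHom.one
  | insert a s ha ih =>
    rw [Finset.sum_insert ha, Finset.prod_insert ha]
    exact (hP a (Finset.mem_insert_self _ _)).mul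
      (ih fun x hx => hP x (Finset.mem_insert_of_mem hx))

lemma BHom.lin (A : Matrix ι ι F) (q : Fin b × ι) : BHom (Pi.single q.1 1) (lin A q) := by
  intro e he h
  unfold Pool.Agent.Helper10.Sub.lin at he
  rw [coeff_sum] at he
  obtain ⟨j, -, hj⟩ := Finset.exists_ne_zero_of_sum_ne_zero he
  rw [coeff_C_mul, coeff_X] at hj
  split_ifs at hj with h1
  · rw [← h1]
    unfold bdeg
    by_cases hh : q.1 = h
    · subst hh
      rw [Finset.sum_eq_single j]
      · simp
      · intro i _ hi
        rw [Finsupp.single_apply, if_neg]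
        intro h3
        exact hi (Prod.ext_iff.mp h3).2.symm
      · intro h3; exact absurd (Finset.mem_univ _) h3
    · rw [Pi.single_apply, if_neg (fun h3 => hh h3.symm)]
      apply Finset.sum_eq_zero
      intro i _
      rw [Finsupp.single_apply, if_neg]
      intro h3
      exact hh (Prod.ext_iff.mp h3).1
  · simp at hj

/-- `P` in terms of the linear forms. -/
lemma map_eq_sum_lin (A M : Matrix ι ι F) (hMA : M * A = 1) (P : MvPolynomial (Fin b × ι) ℤ) :
    MvPolynomial.map (Int.castRingHom F) P =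
      ∑ e ∈ (linSub M P).support, C (coeff e (linSub M P)) * ∏ q, lin A q ^ (e q) := by
  have h1 : MvPolynomial.map (Int.castRingHom F) P = aeval (lin (b := b) A) (linSub M P) := by
    unfold linSub
    have h2 : ∀ q : Fin b × ι, (aeval (lin (b := b) A) : MvPolynomial (Fin b × ι) F →ₐ[F] _)
        (∑ j, C (M q.2 j) * X (q.1, j)) = X q := by
      intro q
      rw [map_sum]
      simp only [map_mul, aeval_X]
      have h3 : ∀ j, (aeval (lin (b := b) A) : MvPolynomial (Fin b × ι) F →ₐ[F] _)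
          (C (M q.2 j)) = C (M q.2 j) := by
        intro j
        rw [aeval_C]; rfl
      simp only [h3, lin, Finset.mul_sum]
      rw [Finset.sum_comm]
      have h4 : ∀ k, ∑ j, C (M q.2 j) * (C (A j k) * X (q.1, k) : MvPolynomial (Fin b × ι) F) =
          C ((M * A) q.2 k) * X (q.1, k) := by
        intro k
        rw [Matrix.mul_apply, map_sum, Finset.sum_mul]
        apply Finset.sum_congr rfl
        intro j _
        rw [C_mul]; ring
      simp only [h4, hMA]
      rw [Finset.sum_eq_single q.2]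
      · simp
      · intro k _ hk
        rw [Matrix.one_apply_ne (Ne.symm hk)]; simp
      · intro h; exact absurd (Finset.mem_univ _) h
    induction P using MvPolynomial.induction_on with
    | C a => simp
    | add p q hp hq => simp only [map_add, hp, hq]
    | mul_X p i hp => simp only [map_mul, map_X, aeval_X, hp, h2]
  rw [h1]
  conv_lhs => rw [(linSub M P).as_sum, map_sum]
  apply Finset.sum_congr rfl
  intro e _
  rw [aeval_monomial, Finsupp.prod_fintype _ _ (by simp)]
  rfl

/-- Coefficients of the translate of a product of linear forms. -/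
lemma norm_coeff_prod_lin (A : Matrix ι ι F) {A0 : ℝ} (hA : ∀ i j, ‖A i j‖ ≤ A0) (hA0 : 0 ≤ A0)
    (e k : (Fin b × ι) →₀ ℕ) (lam : Fin b × ι → F) {Φ : ℝ} (hΦ0 : 0 ≤ Φ)
    (hΦ : ∀ J : (Fin b × ι) →₀ ℕ, J ≤ e → (∀ h, bdeg J h = bdeg k h) →
      ∏ q, ‖lam q‖ ^ (e q - J q) ≤ Φ) :
    ‖coeff k (∏ q, (lin A q + C (lam q)) ^ (e q))‖ ≤
      (4 * max 1 (Fintype.card ι * A0)) ^ (∑ q, e q) * Φ := by
  classical
  set D : ℝ := max 1 (Fintype.card ι * A0) with hD
  have hD1 : 1 ≤ D := le_max_left _ _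
  have h1 : ∀ q : Fin b × ι, (lin A q + C (lam q)) ^ (e q) =
      ∑ j ∈ range (e q + 1), C (((e q).choose j : F) * lam q ^ (e q - j)) * lin A q ^ j := by
    intro q
    rw [add_pow]
    apply Finset.sum_congr rfl
    intro j _
    simp only [map_mul, map_pow, map_natCast]
    ring
  rw [Finset.prod_congr rfl (fun q _ => h1 q), Finset.prod_univ_sum, coeff_sum]
  have h2 : ∀ J ∈ Fintype.piFinset (fun q => range (e q + 1)),
      ‖coeff k (∏ q, (C (((e q).choose (J q) : F) * lam q ^ (e q - J q)) *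
        lin A q ^ (J q) : MvPolynomial (Fin b × ι) F))‖ ≤
        (2 * D) ^ (∑ q, e q) * Φ := by
    intro J hJ
    rw [Fintype.mem_piFinset] at hJ
    have hJle : ∀ q, J q ≤ e q := fun q => Nat.le_of_lt_succ (Finset.mem_range.mp (hJ q))
    rw [Finset.prod_mul_distrib, ← map_prod, coeff_C_mul, norm_mul, norm_prod]
    have h3 : ∏ q, ‖((e q).choose (J q) : F) * lam q ^ (e q - J q)‖ ≤
        2 ^ (∑ q, e q) * ∏ q, ‖lam q‖ ^ (e q - J q) := by
      rw [← Finset.prod_pow_eq_pow_sum, ← Finset.prod_mul_distrib]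
      apply Finset.prod_le_prod (fun _ _ => norm_nonneg _)
      intro q _
      rw [norm_mul, norm_pow]
      apply mul_le_mul_of_nonneg_right _ (by positivity)
      have h4 : ‖(((e q).choose (J q) : ℕ) : F)‖ ≤ (e q).choose (J q) := by
        have := norm_nsmul_le (n := (e q).choose (J q)) (a := (1 : F))
        simpa using this
      refine h4.trans ?_
      exact_mod_cast Nat.choose_le_two_pow _ _
    by_cases hb : ∀ h, bdeg (Finsupp.equivFunOnFinite.symm J) h = bdeg k h
    · have h5 := hΦ (Finsupp.equivFunOnFinite.symm J) (by intro q; simpa using hJle q) hb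
      have h6 : ‖coeff k (∏ q, lin A q ^ (J q))‖ ≤ D ^ (∑ q, e q) := by
        refine (norm_coeff_le_l1 _ _).trans ((l1_prod _ _).trans ?_)
        have : ∀ q ∈ (Finset.univ : Finset (Fin b × ι)), l1 (lin A q ^ (J q)) ≤ D ^ (e q) := by
          intro q _
          refine (l1_pow _ _).trans ?_
          have h7 : l1 (lin A q) ≤ D := (l1_lin A hA q).trans (le_max_right _ _)
          exact (pow_le_pow_left₀ (l1_nonneg _) h7 _).trans (pow_le_pow_right₀ hD1 (hJle q))
        refine (Finset.prod_le_prod (fun _ _ => l1_nonneg _) this).trans ?_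
        rw [Finset.prod_pow_eq_pow_sum]
      simp only [Finsupp.equivFunOnFinite_symm_apply_apply] at h5
      calc _ ≤ (2 ^ (∑ q, e q) * ∏ q, ‖lam q‖ ^ (e q - J q)) * D ^ (∑ q, e q) :=
            mul_le_mul h3 h6 (norm_nonneg _) (by positivity)
        _ ≤ (2 ^ (∑ q, e q) * Φ) * D ^ (∑ q, e q) := by gcongr
        _ = (2 * D) ^ (∑ q, e q) * Φ := by rw [mul_pow]; ring
    · have h8 : coeff k (∏ q, lin A q ^ (J q)) = 0 := by
        by_contra hne
        apply hb
        have h9 := BHom.prod (F := F) (Finset.univ : Finset (Fin b × ι))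
          (d := fun q => J q • Pi.single q.1 1) (P := fun q => lin A q ^ (J q))
          (fun q _ => (BHom.lin A q).pow (J q))
        intro h
        rw [h9 k hne h, Finset.sum_apply]
        simp only [bdeg, Finsupp.equivFunOnFinite_symm_apply_apply, Pi.smul_apply, smul_eq_mul]
        rw [Fintype.sum_prod_type]
        rw [Finset.sum_eq_single h]
        · simp
        · intro h' _ hh'
          apply Finset.sum_eq_zero
          intro i _
          rw [Pi.single_apply, if_neg (Ne.symm hh')]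
          simp
        · intro h'; exact absurd (Finset.mem_univ _) h'
      rw [h8, norm_zero, mul_zero]
      positivity
  refine (norm_sum_le _ _).trans ((Finset.sum_le_sum h2).trans ?_)
  rw [Finset.sum_const, nsmul_eq_mul, Fintype.card_piFinset]
  have h10 : ((∏ q : Fin b × ι, (range (e q + 1)).card : ℕ) : ℝ) ≤ 2 ^ (∑ q, e q) := by
    rw [← Finset.prod_pow_eq_pow_sum]
    push_cast
    apply Finset.prod_le_prod (fun _ _ => by positivity)
    intro q _
    rw [Finset.card_range]
    have : e q + 1 ≤ 2 ^ (e q) := Nat.lt_two_pow_self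
    exact_mod_cast this
  calc ((∏ q : Fin b × ι, (range (e q + 1)).card : ℕ) : ℝ) * ((2 * D) ^ (∑ q, e q) * Φ)
      ≤ 2 ^ (∑ q, e q) * ((2 * D) ^ (∑ q, e q) * Φ) := by gcongr
    _ = (4 * D) ^ (∑ q, e q) * Φ := by
        rw [← mul_assoc, ← mul_pow]
        congr 2
        ring

/-- Number of exponents with given block degrees. -/
lemma card_support_le (P : MvPolynomial (Fin b × ι) ℤ) (r : Fin b → ℕ)
    (hP : ∀ e ∈ P.support, ∀ h, bdeg e h = r h) :
    (P.support.card : ℝ) ≤ (2 ^ Fintype.card ι) ^ (∑ h, r h) := by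
  classical
  have h1 : P.support.card ≤ (Fintype.piFinset (fun q : Fin b × ι => range (r q.1 + 1))).card := by
    apply Finset.card_le_card_of_injOn (fun (e : (Fin b × ι) →₀ ℕ) (q : Fin b × ι) => e q)
    · intro e he
      have h3 := hP e he
      simp only [Finset.coe_sort_coe, Finset.mem_coe, Fintype.mem_piFinset, Finset.mem_range]
      intro q
      have h2 : e q ≤ bdeg e q.1 :=
        Finset.single_le_sum (f := fun i => e (q.1, i)) (fun _ _ => Nat.zero_le _)
          (Finset.mem_univ q.2)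
      rw [h3] at h2
      exact Nat.lt_succ_of_le h2
    · intro e _ e' _ hee
      exact DFunLike.coe_injective hee
  have h2 : ((Fintype.piFinset (fun q : Fin b × ι => range (r q.1 + 1))).card : ℝ) ≤
      (2 ^ Fintype.card ι) ^ (∑ h, r h) := by
    rw [Fintype.card_piFinset, ← Finset.prod_pow_eq_pow_sum, Fintype.prod_prod_type]
    push_cast
    apply Finset.prod_le_prod (fun _ _ => by positivity)
    intro h _
    rw [Finset.prod_const, Finset.card_range, Finset.card_univ, ← pow_mul, mul_comm, pow_mul]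
    apply pow_le_pow_left₀ (by positivity)
    have : r h + 1 ≤ 2 ^ (r h) := Nat.lt_two_pow_self
    exact_mod_cast this
  exact (by exact_mod_cast h1 : (P.support.card : ℝ) ≤ _).trans h2

lemma sum_eq_sum_bdeg (e : (Fin b × ι) →₀ ℕ) : ∑ q, e q = ∑ h, bdeg e h := by
  rw [Fintype.sum_prod_type]; rfl

lemma linSub_eq (M : Matrix ι ι F) (P : MvPolynomial (Fin b × ι) ℤ) :
    linSub M P = ∑ e ∈ P.support, C ((coeff e P : ℤ) : F) * ∏ q, lin M q ^ (e q) := by
  unfold linSub
  conv_lhs => rw [P.as_sum, map_sum]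
  apply Finset.sum_congr rfl
  intro e _
  rw [aeval_monomial, Finsupp.prod_fintype _ _ (by simp)]
  congr 1

lemma linSub_bhom (M : Matrix ι ι F) (P : MvPolynomial (Fin b × ι) ℤ) (r : Fin b → ℕ)
    (hP : ∀ e ∈ P.support, ∀ h, bdeg e h = r h) : BHom r (linSub M P) := by
  classical
  intro e he h
  rw [linSub_eq, coeff_sum] at he
  obtain ⟨e', he', hne⟩ := Finset.exists_ne_zero_of_sum_ne_zero he
  rw [coeff_C_mul] at hne
  have h9 := BHom.prod (F := F) (Finset.univ : Finset (Fin b × ι))
    (d := fun q => e' q • Pi.single q.1 1) (P := fun q => lin M q ^ (e' q))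
    (fun q _ => (BHom.lin M q).pow (e' q)) e (right_ne_zero_of_mul hne) h
  rw [h9, ← hP e' he' h, Finset.sum_apply]
  simp only [bdeg, Pi.smul_apply, smul_eq_mul]
  rw [Fintype.sum_prod_type, Finset.sum_eq_single h]
  · simp
  · intro h' _ hh'
    apply Finset.sum_eq_zero
    intro i _
    rw [Pi.single_apply, if_neg (Ne.symm hh')]
    simp
  · intro h'; exact absurd (Finset.mem_univ _) h'

lemma norm_intCast_le' (z : ℤ) : ‖(z : F)‖ ≤ |(z : ℝ)| := by
  have := norm_zsmul_le (n := z) (a := (1 : F))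
  rw [zsmul_one, norm_one, mul_one, Int.norm_eq_abs] at this
  exact this

lemma l1_linSub (M : Matrix ι ι F) {M0 : ℝ} (hM : ∀ i j, ‖M i j‖ ≤ M0)
    (P : MvPolynomial (Fin b × ι) ℤ) (r : Fin b → ℕ)
    (hP : ∀ e ∈ P.support, ∀ h, bdeg e h = r h) {B : ℝ} (hB : ∀ e, |((coeff e P : ℤ) : ℝ)| ≤ B) :
    l1 (linSub M P) ≤ (2 ^ Fintype.card ι * max 1 (Fintype.card ι * M0)) ^ (∑ h, r h) * B := by
  set D : ℝ := max 1 (Fintype.card ι * M0) with hD
  have hD1 : 1 ≤ D := le_max_left _ _
  have hB0 : 0 ≤ B := (abs_nonneg _).trans (hB 0)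
  rw [linSub_eq]
  refine (l1_sum _ _).trans ?_
  have h1 : ∀ e ∈ P.support, l1 (C ((coeff e P : ℤ) : F) * ∏ q, lin M q ^ (e q)) ≤
      B * D ^ (∑ h, r h) := by
    intro e he
    refine (l1_C_mul _ _).trans ?_
    apply mul_le_mul ((norm_intCast_le' _).trans (hB e)) _ (l1_nonneg _) hB0
    refine (l1_prod _ _).trans ?_
    have : ∀ q ∈ (Finset.univ : Finset (Fin b × ι)), l1 (lin M q ^ (e q)) ≤ D ^ (e q) := by
      intro q _
      refine (l1_pow _ _).trans ?_
      exact pow_le_pow_left₀ (l1_nonneg _) ((l1_lin M hM q).trans (le_max_right _ _)) _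
    refine (Finset.prod_le_prod (fun _ _ => l1_nonneg _) this).trans ?_
    rw [Finset.prod_pow_eq_pow_sum, sum_eq_sum_bdeg]
    rw [Finset.sum_congr rfl (fun h _ => hP e he h)]
  refine (Finset.sum_le_sum h1).trans ?_
  rw [Finset.sum_const, nsmul_eq_mul]
  calc (P.support.card : ℝ) * (B * D ^ (∑ h, r h))
      ≤ (2 ^ Fintype.card ι) ^ (∑ h, r h) * (B * D ^ (∑ h, r h)) := by
        apply mul_le_mul_of_nonneg_right (card_support_le P r hP) (by positivity)
    _ = (2 ^ Fintype.card ι * D) ^ (∑ h, r h) * B := by rw [mul_pow]; ring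

/-- **Upper bound** for a Hasse derivative at a point where the linear forms are small. -/
theorem norm_hd_le (A M : Matrix ι ι F) (hMA : M * A = 1) {A0 M0 : ℝ} (hA : ∀ i j, ‖A i j‖ ≤ A0)
    (hA0 : 0 ≤ A0) (hM : ∀ i j, ‖M i j‖ ≤ M0)
    (P : MvPolynomial (Fin b × ι) ℤ) (r : Fin b → ℕ)
    (hP : ∀ e ∈ P.support, ∀ h, bdeg e h = r h) {B : ℝ} (hB : ∀ e, |((coeff e P : ℤ) : ℝ)| ≤ B)
    (z : Fin b → ι → F) (k : (Fin b × ι) →₀ ℕ) {Φ : ℝ} (hΦ0 : 0 ≤ Φ)
    (hΦ : ∀ e ∈ (linSub M P).support, ∀ J : (Fin b × ι) →₀ ℕ, J ≤ e →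
      (∀ h, bdeg J h = bdeg k h) → ∏ q : Fin b × ι, ‖∑ j, A q.2 j * z q.1 j‖ ^ (e q - J q) ≤ Φ) :
    ‖eval (fun q => z q.1 q.2) (hd k (MvPolynomial.map (Int.castRingHom F) P))‖ ≤
      (4 * max 1 (Fintype.card ι * A0) * (2 ^ Fintype.card ι * max 1 (Fintype.card ι * M0))) ^
        (∑ h, r h) * B * Φ := by
  have hB0 : 0 ≤ B := (abs_nonneg _).trans (hB 0)
  rw [← coeff_shift, map_eq_sum_lin A M hMA P, map_sum, coeff_sum]
  have h1 : ∀ q : Fin b × ι, shift (fun q => z q.1 q.2) (lin A q) =
      lin A q + C (∑ j, A q.2 j * z q.1 j) := by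
    intro q
    simp only [lin, map_sum, map_mul, shift_C, shift_X, mul_add, Finset.sum_add_distrib]
  have h2 : ∀ e ∈ (linSub M P).support,
      ‖coeff k (shift (fun q => z q.1 q.2) (C (coeff e (linSub M P)) * ∏ q, lin A q ^ (e q)))‖ ≤
      ‖coeff e (linSub M P)‖ * ((4 * max 1 (Fintype.card ι * A0)) ^ (∑ h, r h) * Φ) := by
    intro e he
    rw [map_mul, shift_C, coeff_C_mul, norm_mul, map_prod]
    apply mul_le_mul_of_nonneg_left _ (norm_nonneg _)
    simp only [map_pow, h1]
    have h3 := norm_coeff_prod_lin A hA hA0 e k (fun q => ∑ j, A q.2 j * z q.1 j) hΦ0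
      (fun J hJ hb => hΦ e he J hJ hb)
    rw [sum_eq_sum_bdeg, Finset.sum_congr rfl
      (fun h _ => linSub_bhom M P r hP e (mem_support_iff.mp he) h)] at h3
    exact h3
  refine (norm_sum_le _ _).trans ((Finset.sum_le_sum h2).trans ?_)
  rw [← Finset.sum_mul]
  have h4 := l1_linSub M hM P r hP hB
  calc l1 (linSub M P) * ((4 * max 1 (Fintype.card ι * A0)) ^ (∑ h, r h) * Φ)
      ≤ ((2 ^ Fintype.card ι * max 1 (Fintype.card ι * M0)) ^ (∑ h, r h) * B) *
        ((4 * max 1 (Fintype.card ι * A0)) ^ (∑ h, r h) * Φ) := by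
        apply mul_le_mul_of_nonneg_right h4 (by positivity)
    _ = _ := by rw [mul_pow _ (2 ^ Fintype.card ι * max 1 (Fintype.card ι * M0))]; ring

end upper

end Pool.Agent.Helper10.Sub
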